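import Pool.Agent.Lib.Tate.Toe.Spec

/-!
# C42 (MP_071d69_gt), Toe/Aq (helper33)
-/

set_option autoImplicit false

open Set Filter Topology

noncomputable section

namespace Pool.Agent.Tate.Toe

open Idx

namespace Aqaux

theorem norm_one {x : ℂ} (h : x ^ 4 = 1) : ‖x‖ = 1 := 
  Complex.norm_eq_one_of_pow_eq_one h (by norm_num)

theorem ne_zero {x : ℂ} (h : x ^ 4 = 1) : x ≠ 0 := by
  intro h0
  rw [h0] at h
  norm_num at h

/-- The point `ζ^n z`. -/
def rot {M : ℕ} (ζ : Fin M → ℂ) (n : ℕ) (z : Fin M → ℂ) : Fin M → ℂ := fun l => ζ l ^ n * z l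

theorem rot_norm {M : ℕ} {ζ : Fin M → ℂ} (hζ : ∀ i, ζ i ^ 4 = 1) (n : ℕ) (z : Fin M → ℂ)
    (l : Fin M) : ‖rot ζ n z l‖ = ‖z l‖ := by
  unfold rot
  rw [norm_mul, norm_pow, norm_one (hζ l), one_pow, one_mul]

theorem rot_Sp {M : ℕ} {ζ : Fin M → ℂ} (hζ : ∀ i, ζ i ^ 4 = 1) (n : ℕ) {z : Fin M → ℂ}
    (hz : z ∈ Sp M) : rot ζ n z ∈ Sp M := by
  show ∑ j, ‖rot ζ n z j‖ ^ 2 = 1
  rw [Finset.sum_congr rfl fun j _ => by rw [rot_norm hζ n z j]]
  exact hz

theorem ph_rot {M : ℕ} {ζ : Fin M → ℂ} (hζ : ∀ i, ζ i ^ 4 = 1) (n : ℕ) (z : Fin M → ℂ)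
    (k : Fin M → ℤ) : ph k (rot ζ n z) = (∏ i, ζ i ^ k i) ^ n * ph k z := by
  unfold ph
  rw [← Finset.prod_pow, ← Finset.prod_mul_distrib]
  refine Finset.prod_congr rfl fun j _ => ?_
  rw [rot_norm hζ n z j]
  unfold rot
  rw [mul_div_assoc, mul_zpow]
  congr 1
  rw [← zpow_natCast, ← zpow_natCast, ← zpow_mul, ← zpow_mul, mul_comm]

theorem ev_rot {M : ℕ} {ζ : Fin M → ℂ} (hζ : ∀ i, ζ i ^ 4 = 1) (n : ℕ) (z : Fin M → ℂ)
    (f : GS M) : ev (rot ζ n z) f =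
      ∑ k ∈ f.1.coeff.support, (∏ i, ζ i ^ k i) ^ n * (ph k z * f.1.coeff k fun j => ‖z j‖ ^ 2) := by
  show evA (rot ζ n z) f.1 = _
  unfold evA
  rw [Finsupp.sum]
  refine Finset.sum_congr rfl fun k _ => ?_
  rw [ph_rot hζ, mul_assoc]
  have hr : (fun j => ‖rot ζ n z j‖ ^ 2) = fun j => ‖z j‖ ^ 2 := by
    funext j
    rw [rot_norm hζ n z j]
  rw [hr]

/-- The part of a symbol with the coefficients in `P`. -/
def flt {M : ℕ} (P : (Fin M → ℤ) → Prop) [DecidablePred P] (f : GS M) : GS M :=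
  ⟨∑ k ∈ f.1.coeff.support.filter P, AddMonoidAlgebra.single k (f.1.coeff k),
    Gd.sum _ _ fun k _ => Gd.single (f.2.1 k) fun t j h h' => f.2.2 k t j h h'⟩

theorem flt_coeff {M : ℕ} (P : (Fin M → ℤ) → Prop) [DecidablePred P] (f : GS M) (k : Fin M → ℤ)
    (hk : (flt P f).1.coeff k ≠ 0) : P k := by
  classical
  by_contra hP
  apply hk
  show (∑ k ∈ f.1.coeff.support.filter P, AddMonoidAlgebra.single k (f.1.coeff k) :
    RR M).coeff k = 0
  rw [AddMonoidAlgebra.coeff_sum, Finsupp.finsetSum_apply]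
  refine Finset.sum_eq_zero fun l hl => ?_
  rw [AddMonoidAlgebra.coeff_single, Finsupp.single_apply, if_neg]
  rintro rfl
  exact hP (Finset.mem_filter.1 hl).2

theorem flt_ev {M : ℕ} (P : (Fin M → ℤ) → Prop) [DecidablePred P] (f : GS M) (z : Fin M → ℂ) :
    ev z (flt P f) = ∑ k ∈ f.1.coeff.support,
      (if P k then (1 : ℂ) else 0) * (ph k z * f.1.coeff k fun j => ‖z j‖ ^ 2) := by
  show evA z (∑ k ∈ f.1.coeff.support.filter P, AddMonoidAlgebra.single k (f.1.coeff k)) = _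
  rw [evA_sum, Finset.sum_filter]
  refine Finset.sum_congr rfl fun k _ => ?_
  split_ifs
  · rw [evA_single, one_mul]
  · rw [zero_mul]

theorem avg {x : ℂ} (h : x ^ 4 = 1) : (1 / 4 : ℂ) * ∑ n ∈ Finset.range 4, x ^ n =
    if x = 1 then 1 else 0 := by
  split_ifs with hx
  · subst hx
    simp
  · have h1 : (x - 1) * ∑ n ∈ Finset.range 4, x ^ n = 0 := by
      rw [mul_geom_sum, h, sub_self]
    rcases mul_eq_zero.1 h1 with h2 | h2
    · exact absurd (sub_eq_zero.1 h2) hx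
    · rw [h2, mul_zero]

theorem F_rot {M : ℕ} {J : Type} {ζ : Fin M → ℂ} {χ : J → ℂ} {F : (Fin M → ℂ) → Matrix J J ℂ}
    (hζ : ∀ i, ζ i ^ 4 = 1) (hχ : ∀ j, χ j ^ 4 = 1) (hF : EqF ζ χ F) {z : Fin M → ℂ}
    (hz : z ∈ Sp M) (i j : J) (n : ℕ) :
    (χ i / χ j) ^ n * F (rot ζ n z) i j = F z i j := by
  induction n with
  | zero =>
    have : rot ζ 0 z = z := by
      funext l
      simp [rot]
    rw [this]
    simp
  | succ n ih =>
    have e : rot ζ (n + 1) z = fun l => ζ l * rot ζ n z l := by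
      funext l
      simp only [rot]
      ring
    have h1 := hF _ (rot_Sp hζ n hz) i j
    rw [← e] at h1
    rw [pow_succ, mul_assoc, ← ih]
    congr 1
    have := ne_zero (hχ j)
    field_simp
    linear_combination h1

end Aqaux

open Aqaux in
theorem pAq (h1 : S_Ap) : S_Aq := by
  classical
  intro M J _ ζ χ F hζ hχ hFc hF ε hε
  obtain ⟨f, hf⟩ := h1 M J F hFc ε hε
  refine ⟨fun i j => flt (fun k => (∏ l, ζ l ^ k l) * χ i = χ j) (f i j), fun i j k hk =>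
    flt_coeff (fun k => (∏ l, ζ l ^ k l) * χ i = χ j) (f i j) k hk, fun z hz i j => ?_⟩
  have e1 : ev z (flt (fun k => (∏ l, ζ l ^ k l) * χ i = χ j) (f i j)) =
      (1 / 4 : ℂ) * ∑ n ∈ Finset.range 4, (χ i / χ j) ^ n * ev (rot ζ n z) (f i j) := by
    rw [flt_ev]
    simp only [ev_rot hζ, Finset.mul_sum]
    rw [Finset.sum_comm]
    refine Finset.sum_congr rfl fun k _ => ?_
    have hx : ((∏ l, ζ l ^ k l) * (χ i / χ j)) ^ 4 = 1 := by
      rw [mul_pow, div_pow, hχ, hχ, ← Finset.prod_pow]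
      rw [Finset.prod_eq_one fun l _ => ?_]
      · norm_num
      · rw [← zpow_natCast, ← zpow_mul, mul_comm, zpow_mul, zpow_natCast, hζ, one_zpow]
    have hP : ((∏ l, ζ l ^ k l) * χ i = χ j) ↔ (∏ l, ζ l ^ k l) * (χ i / χ j) = 1 := by
      rw [← mul_div_assoc, div_eq_iff (ne_zero (hχ j)), one_mul]
    have h2 := avg hx
    rw [if_congr hP rfl rfl, ← h2, Finset.mul_sum, Finset.sum_mul]
    refine Finset.sum_congr rfl fun n _ => ?_
    rw [mul_pow]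
    ring
  have e2 : F z i j = (1 / 4 : ℂ) * ∑ n ∈ Finset.range 4, (χ i / χ j) ^ n * F (rot ζ n z) i j := by
    rw [Finset.sum_congr rfl fun n _ => F_rot hζ hχ hF hz i j n]
    simp
  rw [e1, e2, ← mul_sub, ← Finset.sum_sub_distrib, norm_mul]
  have h3 : ‖∑ n ∈ Finset.range 4, ((χ i / χ j) ^ n * ev (rot ζ n z) (f i j) -
      (χ i / χ j) ^ n * F (rot ζ n z) i j)‖ ≤ ∑ _n ∈ Finset.range 4, ε := by
    refine norm_sum_le_of_le _ fun n _ => ?_
    rw [← mul_sub, norm_mul, norm_pow, norm_div, norm_one (hχ i), norm_one (hχ j), div_one,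
      one_pow, one_mul]
    exact hf _ (rot_Sp hζ n hz) i j
  rw [Finset.sum_const, Finset.card_range] at h3
  have h4 : ‖(1 / 4 : ℂ)‖ = 1 / 4 := by norm_num
  rw [h4]
  simp only [nsmul_eq_mul, Nat.cast_ofNat] at h3
  linarith

end Pool.Agent.Tate.Toe
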