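import Pool.Agent.Lib.Tate.Toe.Spec

/-!
# C42 (MP_071d69_gt), block Toe: `S_Bt`, the block triangular form of a Toeplitz operator
-/

set_option autoImplicit false

open Set Filter Topology

noncomputable section

namespace Pool.Agent.Tate.Toe

open Idx

namespace BtAux

/-- The coordinate functional. -/
def co {ι : Type} (i : ι) : H ι →L[ℂ] ℂ := lp.evalCLM ℂ (fun _ : ι => ℂ) 1 i

theorem co_apply {ι : Type} (i : ι) (x : H ι) : co i x = (x : ι → ℂ) i := rfl

open Classical in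
theorem de_apply {ι : Type} (a b : ι) :
    ((de a : H ι) : ι → ℂ) b = if b = a then 1 else 0 := by
  unfold de
  rw [lp.single_apply]
  by_cases h : b = a
  · subst h; simp
  · simp [h]

/-- Entries after relabeling. -/
theorem relabel (h1 : Idx.S_L2) {ι ι' : Type} (e : ι ≃ ι') (E : H ι ≃L[ℂ] H ι')
    (hE : ∀ a, E (de a) = de (e a)) (z : H ι) (p : ι) :
    ((E z : H ι') : ι' → ℂ) (e p) = (z : ι → ℂ) p := by
  classical
  have h : (co (e p)) ∘L (E : H ι →L[ℂ] H ι') = co p := by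
    refine (h1 ι ℂ).2.2 _ _ fun a => ?_
    rw [ContinuousLinearMap.comp_apply, ContinuousLinearEquiv.coe_coe, hE, co_apply, co_apply,
      de_apply, de_apply]
    simp
  have := congrArg (fun A : H ι →L[ℂ] ℂ => A z) h
  simpa [co_apply] using this

/-- Entries of the first component. -/
theorem sumL (h1 : Idx.S_L2) {ι ι' : Type} (E : H (ι ⊕ ι') ≃L[ℂ] H ι × H ι')
    (ha : ∀ a, E (de (Sum.inl a)) = (de a, 0)) (hb : ∀ b, E (de (Sum.inr b)) = (0, de b))
    (z : H (ι ⊕ ι')) (p : ι) :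
    (((E z).1 : H ι) : ι → ℂ) p = (z : ι ⊕ ι' → ℂ) (Sum.inl p) := by
  classical
  have h : (co p) ∘L (ContinuousLinearMap.fst ℂ (H ι) (H ι')) ∘L
      (E : H (ι ⊕ ι') →L[ℂ] H ι × H ι') = co (Sum.inl p) := by
    refine (h1 (ι ⊕ ι') ℂ).2.2 _ _ fun a => ?_
    rw [ContinuousLinearMap.comp_apply, ContinuousLinearMap.comp_apply,
      ContinuousLinearEquiv.coe_coe, co_apply, co_apply, de_apply]
    rcases a with a | b
    · rw [ha, ContinuousLinearMap.coe_fst', de_apply]
      simp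
    · rw [hb, ContinuousLinearMap.coe_fst']
      simp
  have := congrArg (fun A : H (ι ⊕ ι') →L[ℂ] ℂ => A z) h
  simpa [co_apply] using this

/-- Entries of the second component. -/
theorem sumR (h1 : Idx.S_L2) {ι ι' : Type} (E : H (ι ⊕ ι') ≃L[ℂ] H ι × H ι')
    (ha : ∀ a, E (de (Sum.inl a)) = (de a, 0)) (hb : ∀ b, E (de (Sum.inr b)) = (0, de b))
    (z : H (ι ⊕ ι')) (p : ι') :
    (((E z).2 : H ι') : ι' → ℂ) p = (z : ι ⊕ ι' → ℂ) (Sum.inr p) := by
  classical
  have h : (co p) ∘L (ContinuousLinearMap.snd ℂ (H ι) (H ι')) ∘L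
      (E : H (ι ⊕ ι') →L[ℂ] H ι × H ι') = co (Sum.inr p) := by
    refine (h1 (ι ⊕ ι') ℂ).2.2 _ _ fun a => ?_
    rw [ContinuousLinearMap.comp_apply, ContinuousLinearMap.comp_apply,
      ContinuousLinearEquiv.coe_coe, co_apply, co_apply, de_apply]
    rcases a with a | b
    · rw [ha, ContinuousLinearMap.coe_snd']
      simp
    · rw [hb, ContinuousLinearMap.coe_snd', de_apply]
      simp
  have := congrArg (fun A : H (ι ⊕ ι') →L[ℂ] ℂ => A z) h
  simpa [co_apply] using this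

theorem df_up1 {M : ℕ} (a b : Fin (M + 1) → ℕ) : df (up1 b) (up1 a) = df b a := by
  funext i
  simp only [df, up1, Pi.add_apply]
  push_cast
  ring

theorem df_snoc {M : ℕ} (a b : Fin M → ℕ) :
    df (Fin.snoc (α := fun _ => ℕ) b 0) (Fin.snoc (α := fun _ => ℕ) a 0) =
      Fin.snoc (α := fun _ => ℤ) (df b a) 0 := by
  funext i
  refine Fin.lastCases ?_ (fun i => ?_) i
  · simp [df]
  · simp [df]

theorem pt_snoc {M : ℕ} (a : Fin M → ℕ) :
    pt (Fin.snoc (α := fun _ => ℕ) a 0) = Fin.snoc (α := fun _ => ℝ) (pt a) 0 := by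
  funext i
  refine Fin.lastCases ?_ (fun i => ?_) i
  · simp [pt]
  · simp [pt, Fin.sum_univ_castSucc]

end BtAux

open BtAux in
theorem pBt (h1 : Idx.S_L2) (h2 : Idx.S_L5) (h3 : Idx.S_L6) (h4 : S_Sx) : S_Bt := by
  classical
  intro M J _ f f' T D T' hres hT hT' hD
  obtain ⟨e, he1, he2⟩ := h4 M J
  obtain ⟨E1, hE1⟩ := h3 _ _ e
  obtain ⟨E2, hE2a, hE2b⟩ := h2 (In M J) (In (M + 1) J)
  set E := E1.trans E2 with hE
  -- entries
  have c1 : ∀ (z : H (In (M + 1) J)) (b : Fin M → ℕ) (j : J),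
      (((E z).1 : H (In M J)) : In M J → ℂ) (b, j) =
        (z : In (M + 1) J → ℂ) (Fin.snoc (α := fun _ => ℕ) b 0, j) := by
    intro z b j
    show (((E2 (E1 z)).1 : H (In M J)) : In M J → ℂ) (b, j) = _
    rw [sumL h1 E2 hE2a hE2b, ← he1, relabel h1 e E1 hE1]
  have c2 : ∀ (z : H (In (M + 1) J)) (b : Fin (M + 1) → ℕ) (j : J),
      (((E z).2 : H (In (M + 1) J)) : In (M + 1) J → ℂ) (b, j) =
        (z : In (M + 1) J → ℂ) (up1 b, j) := by
    intro z b j
    show (((E2 (E1 z)).2 : H (In (M + 1) J)) : In (M + 1) J → ℂ) (b, j) = _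
    rw [sumR h1 E2 hE2a hE2b, ← he2, relabel h1 e E1 hE1]
  have hEa : ∀ (a : Fin M → ℕ) (j : J), E (de (Fin.snoc (α := fun _ => ℕ) a 0, j)) = (de (a, j), 0) := by
    intro a j
    show E2 (E1 _) = _
    rw [hE1, he1, hE2a]
  have hEb : ∀ (a : Fin (M + 1) → ℕ) (j : J), E (de (up1 a, j)) = (0, de (a, j)) := by
    intro a j
    show E2 (E1 _) = _
    rw [hE1, he2, hE2b]
  -- the operator in the new coordinates
  let P : H (In M J) × H (In (M + 1) J) →L[ℂ] H (In M J) × H (In (M + 1) J) :=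
    (E : H (In (M + 1) J) →L[ℂ] _) ∘L T ∘L (E.symm : _ →L[ℂ] H (In (M + 1) J))
  have hP : ∀ z, P z = E (T (E.symm z)) := fun z => rfl
  let B : H (In (M + 1) J) →L[ℂ] H (In M J) :=
    (ContinuousLinearMap.fst ℂ _ _) ∘L P ∘L (ContinuousLinearMap.inr ℂ (H (In M J)) _)
  have hB : ∀ y, B y = (P (0, y)).1 := fun y => rfl
  refine ⟨E, B, hEa, hEb, fun x y => ?_⟩
  -- first part
  have key1 : P ∘L (ContinuousLinearMap.inl ℂ (H (In M J)) (H (In (M + 1) J))) =
      (ContinuousLinearMap.inl ℂ (H (In M J)) (H (In (M + 1) J))) ∘L T' := by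
    refine (h1 (In M J) _).2.2 _ _ fun p => ?_
    obtain ⟨a, j⟩ := p
    show P (de (a, j), 0) = (T' (de (a, j)), 0)
    rw [hP]
    have hs : E.symm (de (a, j), 0) = de (Fin.snoc (α := fun _ => ℕ) a 0, j) := by
      rw [ContinuousLinearEquiv.symm_apply_eq, hEa]
    rw [hs]
    refine Prod.ext ?_ ?_
    · refine lp.ext ?_
      funext q
      obtain ⟨b, j'⟩ := q
      rw [c1, hT, df_snoc, pt_snoc, ← hres j' j, ← hT']
    · refine lp.ext ?_
      funext q
      obtain ⟨b, j'⟩ := q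
      rw [c2, hT]
      show _ = (0 : ℂ)
      refine (f j' j).2.2 _ _ (Fin.last M) ?_ ?_
      · rw [pt_snoc]; simp
      · simp only [df, up1, Pi.add_apply, Pi.single_eq_same, Fin.snoc_last]
        push_cast
        omega
  have key2 : (ContinuousLinearMap.snd ℂ (H (In M J)) (H (In (M + 1) J))) ∘L P ∘L
      (ContinuousLinearMap.inr ℂ (H (In M J)) (H (In (M + 1) J))) = D := by
    refine (h1 (In (M + 1) J) _).2.2 _ _ fun p => ?_
    obtain ⟨a, j⟩ := p
    show (P (0, de (a, j))).2 = D (de (a, j))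
    rw [hP]
    have hs : E.symm (0, de (a, j)) = de (up1 a, j) := by
      rw [ContinuousLinearEquiv.symm_apply_eq, hEb]
    rw [hs]
    refine lp.ext ?_
    funext q
    obtain ⟨b, j'⟩ := q
    rw [c2, hT, hD, df_up1]
  have hx : P (x, 0) = (T' x, 0) := by
    have := congrArg (fun A : H (In M J) →L[ℂ] H (In M J) × H (In (M + 1) J) => A x) key1
    simpa using this
  have hy : (P (0, y)).2 = D y := by
    have := congrArg (fun A : H (In (M + 1) J) →L[ℂ] H (In (M + 1) J) => A y) key2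
    simpa using this
  rw [← hP]
  have hxy : ((x, y) : H (In M J) × H (In (M + 1) J)) = (x, 0) + (0, y) := by simp
  rw [hxy, map_add, hx]
  refine Prod.ext ?_ ?_
  · rw [hB]; rfl
  · show 0 + (P (0, y)).2 = _
    rw [hy, zero_add]

end Pool.Agent.Tate.Toe
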