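import Pool.Agent.Lib.Tate.Toe.Spec

/-! # C42, block Toe: proof of `S_C0` (properties of `Col0`) -/

set_option autoImplicit false

open Set Filter Topology

noncomputable section

namespace Pool.Agent.Tate.Toe

open Idx

theorem pC0 (h1 : Idx.S_L3) : S_C0 := by
  intro ι E E' _ _ _ _ _
  refine ⟨?_, ?_, ?_, ?_, ?_⟩
  · intro A B hA hB ε hε
    refine ((hA (ε / 2) (half_pos hε)).union (hB (ε / 2) (half_pos hε))).subset ?_
    intro p hp
    simp only [mem_setOf_eq, mem_union] at hp ⊢
    by_contra hcon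
    push Not at hcon
    have h3 : ‖(A + B) (de p)‖ ≤ ‖A (de p)‖ + ‖B (de p)‖ := by
      rw [ContinuousLinearMap.add_apply]
      exact norm_add_le _ _
    linarith [hcon.1, hcon.2]
  · intro c A hA ε hε
    have hc : 0 < ‖c‖ + 1 := by positivity
    refine (hA (ε / (‖c‖ + 1)) (by positivity)).subset ?_
    intro p hp
    simp only [mem_setOf_eq] at hp ⊢
    rw [div_lt_iff₀ hc]
    have h3 : ‖(c • A) (de p)‖ = ‖c‖ * ‖A (de p)‖ := by
      rw [ContinuousLinearMap.smul_apply, norm_smul]
    rw [h3] at hp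
    nlinarith [norm_nonneg (A (de p)), norm_nonneg c]
  · intro A C hA ε hε
    have hc : 0 < ‖C‖ + 1 := by positivity
    refine (hA (ε / (‖C‖ + 1)) (by positivity)).subset ?_
    intro p hp
    simp only [mem_setOf_eq] at hp ⊢
    rw [div_lt_iff₀ hc]
    have h3 : ‖(C ∘L A) (de p)‖ ≤ ‖C‖ * ‖A (de p)‖ := by
      rw [ContinuousLinearMap.comp_apply]
      exact C.le_opNorm _
    nlinarith [norm_nonneg (A (de p)), norm_nonneg C]
  · intro A hA ε hε
    refine hA.subset ?_
    intro p hp
    simp only [mem_setOf_eq] at hp ⊢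
    intro h0
    rw [h0, norm_zero] at hp
    linarith
  · intro A hA
    exact (h1 ι E A).1 hA

end Pool.Agent.Tate.Toe
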