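import Pool.Agent.Lib.Tate.Toe.Spec

/-!
# C42, block Toe: the conjugate symbol (`S_Cj`)
-/

set_option autoImplicit false

open Set Filter Topology

noncomputable section

namespace Pool.Agent.Tate.Toe

open Idx

namespace Cj

private lemma ph_neg {M : ℕ} (k : Fin M → ℤ) (z : Fin M → ℂ) (c : ℂ)
    (h : ∀ j, z j = 0 → k j ≠ 0 → c = 0) :
    ph (-k) z * (starRingEnd ℂ) c = (starRingEnd ℂ) (ph k z * c) := by
  by_cases hc : c = 0
  · simp [hc]
  rw [map_mul]
  congr 1
  unfold ph
  rw [map_prod]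
  refine Finset.prod_congr rfl fun j _ => ?_
  rw [map_zpow₀, Pi.neg_apply, map_div₀, Complex.conj_ofReal]
  by_cases hz : z j = 0
  · have hk : k j = 0 := by
      by_contra h'
      exact hc (h j hz h')
    rw [hk]
    simp
  · have hn : (‖z j‖ : ℂ) ≠ 0 := by simpa using hz
    rw [zpow_neg, ← inv_zpow, inv_div]
    congr 1
    rw [div_eq_div_iff hz hn, Complex.conj_mul']
    ring

end Cj

open Cj in
theorem pCj : S_Cj := by
  intro M f
  classical
  have hG : Gd (∑ k ∈ f.1.coeff.support, AddMonoidAlgebra.single (-k)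
      (fun t => (starRingEnd ℂ) (f.1.coeff k t)) : RR M) := by
    refine Gd.sum _ _ fun k _ => ?_
    refine Gd.single ?_ ?_
    · exact Complex.continuous_conj.comp_continuousOn (f.2.1 k)
    · intro t j h h'
      have h2 : k j ≠ 0 := by
        intro h3
        exact h' (by rw [Pi.neg_apply, h3, neg_zero])
      show (starRingEnd ℂ) (f.1.coeff k t) = 0
      rw [f.2.2 k t j h h2, map_zero]
  refine ⟨⟨_, hG⟩, fun z => ?_⟩
  show evA z _ = (starRingEnd ℂ) (evA z f.1)
  rw [evA_sum]
  have e : evA z f.1 = ∑ k ∈ f.1.coeff.support, ph k z * f.1.coeff k fun j => ‖z j‖ ^ 2 := rfl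
  rw [e, map_sum]
  refine Finset.sum_congr rfl fun k _ => ?_
  rw [evA_single]
  refine ph_neg k z _ fun j hz hk => ?_
  exact f.2.2 k _ j (by simp [hz]) hk

end Pool.Agent.Tate.Toe
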