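import Pool.Agent.Lib.Tate.Toe.Spec
import Pool.Agent.Lib.Tate.Idx.B4
import Pool.Agent.Lib.Tate.Idx.I3

/-!
# C42, block Toe: equivariant compact perturbations (helper66)
-/

set_option autoImplicit false

open Set Filter Topology

noncomputable section

namespace Pool.Agent.Tate.Toe

open Idx

variable {V W : Type} [NormedAddCommGroup V] [NormedSpace ℂ V] [NormedAddCommGroup W]
  [NormedSpace ℂ W]

theorem Ck_av_eq {gV : V →L[ℂ] V} {gW : W →L[ℂ] W} (hg : gW ^ 4 = 1) (K : V →L[ℂ] W)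
    (hK : K ∘L gV = gW ∘L K) : av gW gV K = K := by
  have e : ∀ v, K (gV v) = gW (K v) := fun v => by
    have := congrArg (fun A : V →L[ℂ] W => A v) hK
    exact this
  ext v
  rw [av_apply]
  simp only [e]
  rw [pow4_apply hg]
  have : K v + K v + K v + K v = (4 : ℂ) • K v := by
    rw [show (4 : ℂ) = 1 + 1 + 1 + 1 by norm_num, add_smul, add_smul, add_smul, one_smul]
  rw [this, smul_smul]
  norm_num

theorem Ck_FR (h2 : S_T2) (gV : V →L[ℂ] V) (gW : W →L[ℂ] W) (F : V →L[ℂ] W)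
    (hF : FR (F : V →ₗ[ℂ] W)) : FR ((av gW gV F : V →L[ℂ] W) : V →ₗ[ℂ] W) := by
  have k : ∀ (A : W →L[ℂ] W) (B : V →L[ℂ] V),
      FR ((A ∘L (F ∘L B) : V →L[ℂ] W) : V →ₗ[ℂ] W) :=
    fun A B => I3x.cl A (I3x.cr B hF)
  unfold av
  exact frc_smul h2 _ _ (frc_add h2 _ _ (frc_add h2 _ _ (frc_add h2 _ _ hF (k _ _)) (k _ _))
    (k _ _))

theorem pCk (h1 : Idx.S_T2) (_h2 : Idx.S_T3) (h3 : Idx.S_I3) (h4 : Idx.S_B1) : S_Ck := by
  intro V W _ _ _ _ _ gV gW T K w hV hW nV nW hT hK hKe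
  obtain ⟨S, hS, rfl⟩ := hT
  have hpos : 0 < ‖S‖ + 1 := by positivity
  obtain ⟨F, hF, hn⟩ := hK (1 / (2 * (‖S‖ + 1))) (by positivity)
  have hF' := Ck_FR h1 gV gW F hF
  have he' : av gW gV F ∘L gV = gW ∘L av gW gV F := av_equiv hW hV F
  have hd : K - av gW gV F = av gW gV (K - F) := by
    rw [av_sub, Ck_av_eq hW K hKe]
  have hnd : ‖K - av gW gV F‖ ≤ 1 / (2 * (‖S‖ + 1)) := by
    rw [hd]
    exact (av_norm nW nV _).trans hn
  have hde : (K - av gW gV F) ∘L gV = gW ∘L (K - av gW gV F) := by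
    rw [ContinuousLinearMap.sub_comp, ContinuousLinearMap.comp_sub, hKe, he']
  have hsm : ‖S ∘L (K - av gW gV F)‖ < 1 := by
    calc ‖S ∘L (K - av gW gV F)‖ ≤ ‖S‖ * ‖K - av gW gV F‖ :=
          ContinuousLinearMap.opNorm_comp_le _ _
      _ ≤ ‖S‖ * (1 / (2 * (‖S‖ + 1))) := mul_le_mul_of_nonneg_left hnd (norm_nonneg _)
      _ < 1 := by
        rw [mul_one_div, div_lt_one (by positivity)]
        have := norm_nonneg S
        linarith
  have h5 := h4 V W gV gW T (K - av gW gV F) S hS hde hsm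
  have h6 := h3 V W gV gW _ (av gW gV F) _ h5 hF' he'
  rwa [add_assoc, sub_add_cancel] at h6

end Pool.Agent.Tate.Toe
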