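import Pool.Agent.Lib.Tate.Toe.Spec

/-! # C42, block Toe: proof of `S_Dg` (the operator `g`) -/

set_option autoImplicit false

open Set Filter Topology

noncomputable section

namespace Pool.Agent.Tate.Toe

open Idx

theorem pDg (h1 : Idx.S_L2) (h2 : Idx.S_L8) : S_Dg := by
  intro M J ζ χ hζ hχ
  have hc : ∀ p : In M J, chr ζ χ p ^ 4 = 1 := by
    intro p
    unfold chr
    rw [mul_pow, hχ, mul_one, ← Finset.prod_pow]
    refine Finset.prod_eq_one fun i _ => ?_
    rw [← pow_mul, mul_comm, pow_mul, hζ, one_pow]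
  obtain ⟨g, hg, hg4, hgn⟩ := h2 (In M J) (chr ζ χ) hc
  refine ⟨⟨g, hg⟩, fun g' hg' => ?_⟩
  have h3 : g' = g :=
    (h1 (In M J) (H (In M J))).2.2 g' g fun p => by rw [hg' p, hg p]
  rw [h3]
  exact ⟨hg4, hgn⟩

end Pool.Agent.Tate.Toe
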