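import Pool.Agent.Lib.Tate.Toe.Spec

/-!
# C42 (MP_071d69_gt), block Toe, statement Di: divisibility of the index
-/

set_option autoImplicit false

open Set Filter Topology

noncomputable section

namespace Pool.Agent.Tate.Toe

open Idx

namespace DiM

private theorem app_mem {M d : ℕ} {z : Fin M → ℂ} (hz : z ∈ Sp M) :
    Fin.append z (0 : Fin d → ℂ) ∈ Sp (M + d) := by
  show ∑ j, ‖Fin.append z (0 : Fin d → ℂ) j‖ ^ 2 = 1
  rw [Fin.sum_univ_add]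
  have h1 : ∀ i : Fin M, ‖Fin.append z (0 : Fin d → ℂ) (Fin.castAdd d i)‖ ^ 2 = ‖z i‖ ^ 2 := by
    intro i
    rw [Fin.append_left]
  have h2 : ∀ i : Fin d, ‖Fin.append z (0 : Fin d → ℂ) (Fin.natAdd M i)‖ ^ 2 = 0 := by
    intro i
    rw [Fin.append_right]
    simp
  rw [Finset.sum_congr rfl fun i _ => h1 i, Finset.sum_congr rfl fun i _ => h2 i]
  rw [Finset.sum_const_zero, add_zero]
  exact hz

end DiM

open DiM in
theorem pDi (h1 : Idx.S_I1) (h2 : Idx.S_I7) (h3 : S_To1) (h4 : S_Dg) (h5 : S_Fr) (h6 : S_Pa)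
    (h7 : S_It) (h8 : S_Aq) (h9 : S_Ds) : S_Di := by
  intro M d J _ _ ζ χ F Φ T g w hM hζ hχ hF hE hdet hΦ hΦF hT hg hw
  obtain ⟨ε, hε, hst⟩ := h9 (M + d) J F hF hdet
  obtain ⟨f, hfE, hfF⟩ := h8 (M + d) J ζ χ F hζ hχ hF hE ε hε
  have hfdet : ∀ z ∈ Sp (M + d), (f.map (ev z)).det ≠ 0 := fun z hz =>
    hst z hz _ fun i j => hfF z hz i j
  obtain ⟨Tf, hTf⟩ := h3 (M + d) J J f
  obtain ⟨⟨gf, hgf⟩, hg4⟩ := h4 (M + d) J ζ χ hζ hχ
  obtain ⟨w₀, hw₀⟩ := h5 (M + d) J ζ χ f Tf gf (by omega) hζ hχ hfE hfdet hTf hgf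
  obtain ⟨x, y, hxy⟩ := h2 _ _ gf gf Tf w₀ (hg4 gf hgf).1 (hg4 gf hgf).1 hw₀
  obtain ⟨f', hf'E, hf'ev, hf'⟩ := h7 J χ M hM hχ d ζ f Tf gf w₀ hζ hfE hfdet hTf hgf hw₀
  obtain ⟨T', hT'⟩ := h3 M J J f'
  have hw' := hf' T' g hT' hg
  refine ⟨x, y, ?_⟩
  rw [← hxy]
  refine h1 _ _ g g T w _ hw (h6 M J (fun i => ζ (Fin.castAdd d i)) χ f' Φ T' T g _ hM
    (fun i => hζ _) hχ hf'E hΦ ?_ hT' hT hg hw')
  intro s hs z hz
  refine hst (Fin.append z 0) (app_mem hz) _ fun i j => ?_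
  have e1 : (((1 - s : ℝ) : ℂ) • f'.map (ev z) + ((s : ℝ) : ℂ) • Φ.map (ev z)) i j -
      F (Fin.append z 0) i j =
      ((1 - s : ℝ) : ℂ) * (ev (Fin.append z 0) (f i j) - F (Fin.append z 0) i j) := by
    rw [hΦF z hz, Matrix.add_apply, Matrix.smul_apply, Matrix.smul_apply, Matrix.map_apply,
      hf'ev, smul_eq_mul, smul_eq_mul]
    push_cast
    ring
  rw [e1, norm_mul, Complex.norm_real, Real.norm_of_nonneg (by linarith [hs.2])]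
  have e2 := hfF _ (app_mem (d := d) hz) i j
  calc (1 - s) * ‖ev (Fin.append z 0) (f i j) - F (Fin.append z 0) i j‖ ≤
      1 * ‖ev (Fin.append z 0) (f i j) - F (Fin.append z 0) i j‖ :=
        mul_le_mul_of_nonneg_right (by linarith [hs.1]) (norm_nonneg _)
    _ ≤ ε := by rw [one_mul]; exact e2

end Pool.Agent.Tate.Toe
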