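import Pool.Agent.Lib.Tate.Toe.Spec

/-! # C42, block Toe: proof of `S_Ds` (stability of invertibility) -/

set_option autoImplicit false

open Set Filter Topology

noncomputable section

namespace Pool.Agent.Tate.Toe

open Idx

private theorem isCompact_Sp' (M : ℕ) : IsCompact (Sp M) := by
  refine Metric.isCompact_of_isClosed_isBounded ?_ ?_
  · unfold Sp
    exact isClosed_eq (by fun_prop) continuous_const
  · refine (Metric.isBounded_closedBall (x := (0 : Fin M → ℂ)) (r := 1)).subset ?_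
    intro z hz
    rw [mem_closedBall_zero_iff, pi_norm_le_iff_of_nonneg zero_le_one]
    intro j
    have h1 : ‖z j‖ ^ 2 ≤ ∑ i, ‖z i‖ ^ 2 :=
      Finset.single_le_sum (f := fun i => ‖z i‖ ^ 2) (fun i _ => by positivity)
        (Finset.mem_univ j)
    have h2 : ∑ i, ‖z i‖ ^ 2 = 1 := hz
    rw [h2] at h1
    nlinarith [norm_nonneg (z j)]

/-- The same statement for functions `J → J → ℂ`. -/
private theorem aux_Ds (M : ℕ) (J : Type) [Fintype J] [DecidableEq J]
    (F : (Fin M → ℂ) → J → J → ℂ) (hF : ContinuousOn F (Sp M))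
    (hdet : ∀ z ∈ Sp M, (Matrix.of (F z)).det ≠ 0) :
    ∃ ε > (0 : ℝ), ∀ z ∈ Sp M, ∀ B : J → J → ℂ, (∀ i j, ‖B i j - F z i j‖ ≤ ε) →
      (Matrix.of B).det ≠ 0 := by
  have hK : IsCompact (F '' Sp M) := (isCompact_Sp' M).image_of_continuousOn hF
  have hU : IsOpen {B : J → J → ℂ | (Matrix.of B).det ≠ 0} := by
    have hc : Continuous fun B : J → J → ℂ => (Matrix.of B).det :=
      Continuous.matrix_det (A := fun B : J → J → ℂ => Matrix.of B) continuous_id
    exact isOpen_ne_fun hc continuous_const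
  have hsub : F '' Sp M ⊆ {B : J → J → ℂ | (Matrix.of B).det ≠ 0} := by
    rintro _ ⟨z, hz, rfl⟩
    exact hdet z hz
  obtain ⟨δ, hδ, hδ2⟩ := hK.exists_thickening_subset_open hU hsub
  refine ⟨δ / 2, half_pos hδ, ?_⟩
  intro z hz B hB
  have h1 : B ∈ Metric.thickening δ (F '' Sp M) := by
    rw [Metric.mem_thickening_iff]
    refine ⟨F z, ⟨z, hz, rfl⟩, ?_⟩
    have h2 : dist B (F z) ≤ δ / 2 := by
      refine (dist_pi_le_iff (by positivity)).2 fun i => ?_
      refine (dist_pi_le_iff (by positivity)).2 fun j => ?_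
      rw [dist_eq_norm]
      exact hB i j
    linarith
  exact hδ2 h1

theorem pDs : S_Ds := by
  intro M J _ _ F hF hdet
  exact aux_Ds M J F hF hdet

end Pool.Agent.Tate.Toe
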