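import Pool.Agent.Lib.Tate.Toe.Spec

/-!
# C42 (MP_071d69_gt), block Toe: the coefficients of a symbol are bounded by its values
-/

set_option autoImplicit false

open Set Filter Topology

noncomputable section

namespace Pool.Agent.Tate.Toe

open Idx

namespace E2

/-- geometric sums of roots of unity -/
theorem geo {L : ℕ} (hL : L ≠ 0) (d : ℤ) (hd : |d| < L) :
    ∑ m : Fin L, (Complex.exp (2 * Real.pi * Complex.I / L) ^ (m : ℕ)) ^ d =
      if d = 0 then (L : ℂ) else 0 := by
  have hprim := Complex.isPrimitiveRoot_exp L hL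
  set ω : ℂ := Complex.exp (2 * Real.pi * Complex.I / L) with hω
  split_ifs with h0
  · subst h0
    simp
  · have h1 : ∀ m : Fin L, (ω ^ (m : ℕ)) ^ d = (ω ^ d) ^ (m : ℕ) := by
      intro m
      rw [← zpow_natCast, ← zpow_natCast, ← zpow_mul, ← zpow_mul, mul_comm]
    rw [Finset.sum_congr rfl fun m _ => h1 m, Fin.sum_univ_eq_sum_range fun m => (ω ^ d) ^ m]
    have h2 : ω ^ d ≠ 1 := by
      intro h
      exact h0 (Int.eq_zero_of_abs_lt_dvd ((hprim.zpow_eq_one_iff_dvd d).1 h) hd)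
    have h3 : (ω ^ d) ^ L = 1 := by
      rw [← zpow_natCast, ← zpow_mul, mul_comm, zpow_mul, zpow_natCast, hprim.pow_eq_one, one_zpow]
    have h4 := mul_geom_sum (ω ^ d) L
    rw [h3, sub_self] at h4
    exact (mul_eq_zero.1 h4).resolve_left (sub_ne_zero.2 h2)

theorem pos {M : ℕ} (f : GS M) (ρ : ℝ) (h : ∀ z ∈ Sp M, ‖ev z f‖ ≤ ρ) (k : Fin M → ℤ)
    (t : Fin M → ℝ) (ht : t ∈ stdSimplex ℝ (Fin M)) (htp : ∀ j, 0 < t j) :
    ‖f.1.coeff k t‖ ≤ ρ := by
  classical
  set B : ℕ := ∑ l ∈ insert k f.1.coeff.support, ∑ j, (l j).natAbs with hB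
  have hBl : ∀ l ∈ insert k f.1.coeff.support, ∀ j, (l j).natAbs ≤ B := by
    intro l hl j
    calc (l j).natAbs ≤ ∑ j, (l j).natAbs :=
          Finset.single_le_sum (f := fun j => (l j).natAbs) (fun _ _ => Nat.zero_le _)
            (Finset.mem_univ j)
      _ ≤ B := Finset.single_le_sum (f := fun l : Fin M → ℤ => ∑ j, (l j).natAbs)
            (fun _ _ => Nat.zero_le _) hl
  set L : ℕ := 2 * B + 1 with hL
  have hL0 : L ≠ 0 := by omega
  have hLC : (L : ℂ) ≠ 0 := by exact_mod_cast hL0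
  have hdl : ∀ l ∈ f.1.coeff.support, ∀ j, |l j - k j| < L := by
    intro l hl j
    have h1 := hBl l (Finset.mem_insert_of_mem hl) j
    have h2 := hBl k (Finset.mem_insert_self _ _) j
    rw [abs_lt]
    constructor <;> omega
  set ω : ℂ := Complex.exp (2 * Real.pi * Complex.I / L) with hω
  have hω1 : ‖ω‖ = 1 := Complex.norm_eq_one_of_pow_eq_one
    (Complex.isPrimitiveRoot_exp L hL0).pow_eq_one hL0
  set z : (Fin M → Fin L) → Fin M → ℂ := fun n j => (Real.sqrt (t j) : ℂ) * ω ^ (n j : ℕ) with hz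
  have hsq : ∀ j, 0 < Real.sqrt (t j) := fun j => Real.sqrt_pos.2 (htp j)
  have hzn : ∀ n j, ‖z n j‖ = Real.sqrt (t j) := by
    intro n j
    simp only [hz]
    rw [norm_mul, norm_pow, hω1, one_pow, mul_one, Complex.norm_real, Real.norm_eq_abs,
      abs_of_pos (hsq j)]
  have hz2 : ∀ n, (fun j => ‖z n j‖ ^ 2) = t := by
    intro n
    funext j
    rw [hzn, Real.sq_sqrt (htp j).le]
  have hzS : ∀ n, z n ∈ Sp M := by
    intro n
    show ∑ j, ‖z n j‖ ^ 2 = 1
    have h1 : ∑ j, ‖z n j‖ ^ 2 = ∑ j, t j := Finset.sum_congr rfl fun j _ => congrFun (hz2 n) j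
    rw [h1]
    exact ht.2
  have hph : ∀ n l, ph l (z n) = ∏ j, (ω ^ (n j : ℕ)) ^ (l j) := by
    intro n l
    unfold ph
    refine Finset.prod_congr rfl fun j _ => ?_
    rw [hzn]
    congr 1
    simp only [hz]
    rw [mul_comm, mul_div_assoc, div_self (by exact_mod_cast (hsq j).ne'), mul_one]
  have hev : ∀ n, ev (z n) f = ∑ l ∈ f.1.coeff.support,
      (∏ j, (ω ^ (n j : ℕ)) ^ (l j)) * f.1.coeff l t := by
    intro n
    show evA (z n) f.1 = _
    unfold evA
    rw [Finsupp.sum]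
    refine Finset.sum_congr rfl fun l _ => ?_
    rw [hph, hz2]
  have hω0 : ω ≠ 0 := fun h => by
    rw [h, norm_zero] at hω1
    exact zero_ne_one hω1
  have key : ∑ n : Fin M → Fin L, (∏ j, (ω ^ (n j : ℕ)) ^ (-k j)) * ev (z n) f =
      (L : ℂ) ^ M * f.1.coeff k t := by
    have e1 : ∀ n : Fin M → Fin L, (∏ j, (ω ^ (n j : ℕ)) ^ (-k j)) * ev (z n) f =
        ∑ l ∈ f.1.coeff.support, (∏ j, (ω ^ (n j : ℕ)) ^ (l j - k j)) * f.1.coeff l t := by
      intro n
      rw [hev, Finset.mul_sum]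
      refine Finset.sum_congr rfl fun l _ => ?_
      rw [← mul_assoc, ← Finset.prod_mul_distrib]
      congr 1
      refine Finset.prod_congr rfl fun j _ => ?_
      rw [← zpow_add₀ (pow_ne_zero _ hω0)]
      congr 1
      ring
    rw [Finset.sum_congr rfl fun n _ => e1 n, Finset.sum_comm]
    have e2 : ∀ l ∈ f.1.coeff.support, ∑ n : Fin M → Fin L,
        (∏ j, (ω ^ (n j : ℕ)) ^ (l j - k j)) * f.1.coeff l t =
        if l = k then (L : ℂ) ^ M * f.1.coeff l t else 0 := by
      intro l hl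
      rw [← Finset.sum_mul]
      have e3 := Finset.prod_univ_sum (fun _ : Fin M => (Finset.univ : Finset (Fin L)))
        (fun j m => (ω ^ (m : ℕ)) ^ (l j - k j))
      rw [Fintype.piFinset_univ] at e3
      rw [← e3, Finset.prod_congr rfl fun j _ => geo hL0 (l j - k j) (hdl l hl j)]
      split_ifs with hlk
      · subst hlk
        simp
      · obtain ⟨j, hj⟩ : ∃ j, l j ≠ k j := by
          by_contra hcon
          push Not at hcon
          exact hlk (funext hcon)
        rw [Finset.prod_eq_zero (Finset.mem_univ j), zero_mul]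
        rw [if_neg (sub_ne_zero.2 hj)]
    rw [Finset.sum_congr rfl e2, Finset.sum_ite_eq']
    split_ifs with hk
    · rfl
    · rw [Finsupp.notMem_support_iff.1 hk]
      simp
  have hnorm : ‖∑ n : Fin M → Fin L, (∏ j, (ω ^ (n j : ℕ)) ^ (-k j)) * ev (z n) f‖ ≤
      (L : ℝ) ^ M * ρ := by
    refine (norm_sum_le _ _).trans ?_
    calc ∑ n : Fin M → Fin L, ‖(∏ j, (ω ^ (n j : ℕ)) ^ (-k j)) * ev (z n) f‖
        ≤ ∑ _n : Fin M → Fin L, ρ := by
          refine Finset.sum_le_sum fun n _ => ?_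
          rw [norm_mul, norm_prod]
          have e1 : ∏ j, ‖(ω ^ (n j : ℕ)) ^ (-k j)‖ = 1 := by
            refine Finset.prod_eq_one fun j _ => ?_
            rw [norm_zpow, norm_pow, hω1, one_pow, one_zpow]
          rw [e1, one_mul]
          exact h _ (hzS n)
      _ = (L : ℝ) ^ M * ρ := by
          rw [Finset.sum_const, Finset.card_univ, Fintype.card_fun, Fintype.card_fin,
            Fintype.card_fin, nsmul_eq_mul]
          push_cast
          ring
  rw [key, norm_mul, norm_pow, Complex.norm_natCast] at hnorm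
  exact le_of_mul_le_mul_left hnorm (by positivity)

end E2

open E2 in
theorem pE2 : S_E2 := by
  intro M f ρ h k t ht
  have hM : 0 < M := by
    rcases Nat.eq_zero_or_pos M with h0 | h0
    · subst h0
      have := ht.2
      simp at this
    · exact h0
  have hM' : (0 : ℝ) < M := by exact_mod_cast hM
  set γ : ℝ → Fin M → ℝ := fun s j => (1 - s) * t j + s * (1 / M) with hγ
  have hγc : Continuous γ := by
    refine continuous_pi fun j => ?_
    simp only [hγ]
    fun_prop
  have hγS : ∀ s ∈ Icc (0 : ℝ) 1, γ s ∈ stdSimplex ℝ (Fin M) := by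
    intro s hs
    refine ⟨fun j => ?_, ?_⟩
    · have h1 := mul_nonneg (sub_nonneg.2 hs.2) (ht.1 j)
      have h2 : 0 ≤ s * (1 / M) := mul_nonneg hs.1 (by positivity)
      simp only [hγ]
      linarith
    · simp only [hγ]
      rw [Finset.sum_add_distrib, ← Finset.mul_sum, ht.2, Finset.sum_const, Finset.card_univ,
        Fintype.card_fin, nsmul_eq_mul]
      field_simp
      ring
  have hγp : ∀ s ∈ Ioc (0 : ℝ) 1, ‖f.1.coeff k (γ s)‖ ≤ ρ := by
    intro s hs
    refine pos f ρ h k (γ s) (hγS s ⟨hs.1.le, hs.2⟩) fun j => ?_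
    have h1 := mul_nonneg (sub_nonneg.2 hs.2) (ht.1 j)
    have h2 : 0 < s * (1 / M) := mul_pos hs.1 (by positivity)
    simp only [hγ]
    linarith
  have hγ0 : γ 0 = t := by
    funext j
    simp [hγ]
  have hcont : ContinuousOn (fun s => ‖f.1.coeff k (γ s)‖) (Icc 0 1) :=
    ((f.2.1 k).comp hγc.continuousOn hγS).norm
  have h0 : (0 : ℝ) ∈ closure (Ioc (0 : ℝ) 1) := by
    rw [closure_Ioc (by norm_num)]
    exact ⟨le_rfl, zero_le_one⟩
  have h1 : ContinuousWithinAt (fun s => ‖f.1.coeff k (γ s)‖) (Ioc 0 1) 0 :=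
    (hcont 0 ⟨le_rfl, zero_le_one⟩).mono Ioc_subset_Icc_self
  have h2 := ContinuousWithinAt.closure_le h0 h1 (continuousWithinAt_const (b := ρ)) hγp
  rw [hγ0] at h2
  exact h2

end Pool.Agent.Tate.Toe
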