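import Pool.Agent.Lib.Tate.Toe.Spec

/-!
# C42, block Toe: Wiener's trick (`S_E3`)
-/

set_option autoImplicit false

open Set Filter Topology

noncomputable section

namespace Pool.Agent.Tate.Toe

open Idx

namespace E3

private lemma supp_mul {M : ℕ} {f g : RR M} {A B : ℤ}
    (hf : ∀ k, f.coeff k ≠ 0 → ∀ j, |k j| ≤ A) (hg : ∀ k, g.coeff k ≠ 0 → ∀ j, |k j| ≤ B) :
    ∀ k, (f * g).coeff k ≠ 0 → ∀ j, |k j| ≤ A + B := by
  classical
  intro k hk j
  rw [AddMonoidAlgebra.coeff_mul] at hk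
  obtain ⟨k1, h1, h1'⟩ := Finset.exists_ne_zero_of_sum_ne_zero hk
  obtain ⟨k2, h2, h2'⟩ := Finset.exists_ne_zero_of_sum_ne_zero h1'
  have h3 : k1 + k2 = k := by
    by_contra h
    exact h2' (if_neg h)
  have h4 := hf k1 (Finsupp.mem_support_iff.1 h1) j
  have h5 := hg k2 (Finsupp.mem_support_iff.1 h2) j
  rw [← h3, Pi.add_apply]
  exact (abs_add_le _ _).trans (add_le_add h4 h5)

private lemma supp_pow {M : ℕ} {f : GS M} {D : ℤ} (hf : ∀ k, f.1.coeff k ≠ 0 → ∀ j, |k j| ≤ D)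
    (n : ℕ) : ∀ k, (f ^ n : GS M).1.coeff k ≠ 0 → ∀ j, |k j| ≤ n * D := by
  induction n with
  | zero =>
    intro k hk j
    have e : ((f ^ 0 : GS M).1 : RR M) = AddMonoidAlgebra.single 0 fun _ => 1 := by
      rw [pow_zero]
      rfl
    rw [e, AddMonoidAlgebra.coeff_single] at hk
    have h0 : (0 : Fin M → ℤ) = k := by
      by_contra h
      exact hk (Finsupp.single_eq_of_ne (Ne.symm h))
    rw [← h0]
    simp
  | succ n ih =>
    intro k hk j
    have e : ((f ^ (n + 1) : GS M).1 : RR M) = (f ^ n : GS M).1 * f.1 := by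
      rw [pow_succ]
      rfl
    rw [e] at hk
    have h1 := supp_mul ih hf k hk j
    push_cast
    linarith

private lemma supp_bd {M : ℕ} (f : RR M) : ∃ D : ℕ, ∀ k, f.coeff k ≠ 0 → ∀ j, |k j| ≤ (D : ℤ) := by
  classical
  refine ⟨∑ k ∈ f.coeff.support, ∑ j, (k j).natAbs, fun k hk j => ?_⟩
  have h1 : (k j).natAbs ≤ ∑ j, (k j).natAbs :=
    Finset.single_le_sum (f := fun j => (k j).natAbs) (fun _ _ => Nat.zero_le _) (Finset.mem_univ j)
  have h2 : ∑ j, (k j).natAbs ≤ ∑ k ∈ f.coeff.support, ∑ j, (k j).natAbs :=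
    Finset.single_le_sum (f := fun k : Fin M → ℤ => ∑ j, (k j).natAbs) (fun _ _ => Nat.zero_le _)
      (Finsupp.mem_support_iff.2 hk)
  rw [Int.abs_eq_natAbs]
  exact_mod_cast h1.trans h2

end E3

open E3 in
theorem pE3 (h1 : S_E2) : S_E3 := by
  intro M f ρ hρ hρ1 hf ε hε
  classical
  obtain ⟨D, hD⟩ := supp_bd f.1
  have hlim := (tendsto_pow_const_mul_const_pow_of_abs_lt_one M (r := ρ)
    (by rw [abs_of_nonneg hρ]; exact hρ1)).const_mul ((2 * D + 1 : ℝ) ^ M)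
  rw [mul_zero] at hlim
  obtain ⟨n, hn, hn1⟩ := ((hlim.eventually (ge_mem_nhds hε)).and (eventually_ge_atTop 1)).exists
  refine ⟨n, fun t ht => ?_⟩
  have hev : ∀ z ∈ Sp M, ‖ev z (f ^ n)‖ ≤ ρ ^ n := by
    intro z hz
    rw [map_pow, norm_pow]
    exact pow_le_pow_left₀ (norm_nonneg _) (hf z hz) n
  have hb := h1 M (f ^ n) (ρ ^ n) hev
  have hsub : (f ^ n : GS M).1.coeff.support ⊆
      Fintype.piFinset fun _ : Fin M => Finset.Icc (-((n * D : ℕ) : ℤ)) ((n * D : ℕ) : ℤ) := by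
    intro k hk
    rw [Fintype.mem_piFinset]
    intro j
    have h2 := supp_pow hD n k (Finsupp.mem_support_iff.1 hk) j
    rw [Finset.mem_Icc]
    have h3 := abs_le.1 h2
    push_cast
    exact h3
  have hcard : ((f ^ n : GS M).1.coeff.support.card : ℝ) ≤ (2 * D + 1 : ℝ) ^ M * (n : ℝ) ^ M := by
    have h2 := Finset.card_le_card hsub
    rw [Fintype.card_piFinset] at h2
    simp only [Int.card_Icc, Finset.prod_const, Finset.card_univ, Fintype.card_fin] at h2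
    have h3 : (((n * D : ℕ) : ℤ) + 1 - -((n * D : ℕ) : ℤ)).toNat = 2 * (n * D) + 1 := by omega
    rw [h3] at h2
    have h4 : ((f ^ n : GS M).1.coeff.support.card : ℝ) ≤ ((2 * (n * D) + 1 : ℕ) : ℝ) ^ M := by
      exact_mod_cast h2
    refine h4.trans ?_
    rw [← mul_pow]
    refine pow_le_pow_left₀ (by positivity) ?_ M
    have h5 : (1 : ℝ) ≤ n := by exact_mod_cast hn1
    push_cast
    nlinarith
  calc ∑ k ∈ (f ^ n : GS M).1.coeff.support, ‖(f ^ n : GS M).1.coeff k t‖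
      ≤ ∑ k ∈ (f ^ n : GS M).1.coeff.support, ρ ^ n := Finset.sum_le_sum fun k _ => hb k t ht
    _ = ((f ^ n : GS M).1.coeff.support.card : ℝ) * ρ ^ n := by
        rw [Finset.sum_const, nsmul_eq_mul]
    _ ≤ (2 * D + 1 : ℝ) ^ M * (n : ℝ) ^ M * ρ ^ n :=
        mul_le_mul_of_nonneg_right hcard (pow_nonneg hρ n)
    _ = (2 * D + 1 : ℝ) ^ M * ((n : ℝ) ^ M * ρ ^ n) := by ring
    _ ≤ ε := hn

end Pool.Agent.Tate.Toe
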