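import Pool.Agent.Lib.Tate.Toe.Spec

set_option autoImplicit false

open Set Filter Topology

noncomputable section

namespace Pool.Agent.Tate.Toe

open Idx

private theorem Ec_norm_ph {M : ℕ} (k : Fin M → ℤ) (z : Fin M → ℂ) : ‖ph k z‖ ≤ 1 := by
  unfold ph
  rw [norm_prod]
  refine Finset.prod_le_one (fun j _ => norm_nonneg _) fun j _ => ?_
  rw [norm_zpow]
  by_cases hz : z j = 0
  · by_cases hk : k j = 0
    · rw [hk, zpow_zero]
    · rw [hz, zero_div, norm_zero, zero_zpow _ hk]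
      exact zero_le_one
  · have h1 : ‖z j / (‖z j‖ : ℂ)‖ = 1 := by
      rw [norm_div, Complex.norm_real, norm_norm]
      exact div_self (by simpa using hz)
    rw [h1, one_zpow]

private theorem Ec_ph_cont {M : ℕ} (k : Fin M → ℤ) (z : Fin M → ℂ)
    (h : ∀ j, k j ≠ 0 → z j ≠ 0) : ContinuousAt (ph k) z := by
  unfold ph ContinuousAt
  refine tendsto_finsetProd _ fun j _ => ?_
  by_cases hk : k j = 0
  · simp only [hk, zpow_zero]
    exact tendsto_const_nhds
  · have hz := h j hk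
    have hn : (‖z j‖ : ℂ) ≠ 0 := by simpa using hz
    have h1 : ContinuousAt (fun z : Fin M → ℂ => z j) z := (continuous_apply j).continuousAt
    have h2 : ContinuousAt (fun z : Fin M → ℂ => (‖z j‖ : ℂ)) z :=
      (Complex.continuous_ofReal.comp (continuous_norm.comp (continuous_apply j))).continuousAt
    have h3 : ContinuousAt (fun z : Fin M → ℂ => (z j / (‖z j‖ : ℂ)) ^ k j) z :=
      (h1.div h2 hn).zpow₀ _ (Or.inl (div_ne_zero hz hn))
    exact h3

theorem pEc : S_Ec := by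
  intro M f
  show ContinuousOn (fun z => ∑ k ∈ f.1.coeff.support,
    ph k z * f.1.coeff k fun j => ‖z j‖ ^ 2) (Sp M)
  refine continuousOn_finsetSum _ fun k _ => ?_
  have hsq : Continuous fun (z : Fin M → ℂ) (j : Fin M) => ‖z j‖ ^ 2 :=
    continuous_pi fun j => (continuous_norm.comp (continuous_apply j)).pow 2
  have hmaps : MapsTo (fun (z : Fin M → ℂ) (j : Fin M) => ‖z j‖ ^ 2) (Sp M)
      (stdSimplex ℝ (Fin M)) := fun z hz => ⟨fun j => sq_nonneg _, hz⟩
  have hg : ContinuousOn (fun z : Fin M → ℂ => f.1.coeff k fun j => ‖z j‖ ^ 2) (Sp M) :=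
    (f.2.1 k).comp hsq.continuousOn hmaps
  intro z hz
  by_cases h : ∀ j, k j ≠ 0 → z j ≠ 0
  · exact (Ec_ph_cont k z h).continuousWithinAt.mul (hg z hz)
  · push Not at h
    obtain ⟨j, hj, hzj⟩ := h
    have h0 : (f.1.coeff k fun j => ‖z j‖ ^ 2) = 0 := f.2.2 k _ j (by simp [hzj]) hj
    have h1 := hg z hz
    unfold ContinuousWithinAt at h1 ⊢
    dsimp only at h1 ⊢
    rw [h0] at h1 ⊢
    rw [mul_zero]
    refine squeeze_zero_norm (fun w => ?_) (tendsto_norm_zero.comp h1)
    rw [norm_mul]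
    exact mul_le_of_le_one_left (norm_nonneg _) (Ec_norm_ph k w)

end Pool.Agent.Tate.Toe
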