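import Pool.Agent.Lib.Tate.Toe.Spec

/-!
# C42 (MP_071d69_gt), Toe/Fr (helper33)
-/

set_option autoImplicit false

open Set Filter Topology

noncomputable section

namespace Pool.Agent.Tate.Toe

open Idx

namespace Fraux

theorem cG_neg_one {M : ℕ} : (cG (-1) : GS M) = -1 := by
  apply Subtype.ext
  show (cst (-1) : RR M) = -1
  rw [← cst_one]
  unfold cst
  apply AddMonoidAlgebra.coeff_injective
  rw [AddMonoidAlgebra.coeff_neg, AddMonoidAlgebra.coeff_single, AddMonoidAlgebra.coeff_single,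
    ← Finsupp.single_neg]
  congr 1

end Fraux

open Fraux in
theorem pFr (h1 : Idx.S_T2) (h2 : Idx.S_Cp) (h3 : Idx.S_B2) (h4 : S_Pm) (h5 : S_To1)
    (h6 : S_To2) (h7 : S_C0) (h8 : S_To3) (h9 : S_To4) (h10 : S_To5) (h11 : S_Dg) : S_Fr := by
  intro M J _ _ ζ χ f T g hM hζ hχ hf hd hT hg
  obtain ⟨q, r, hq1, hq2, hr⟩ := h4 M J f hM hd (1 / 2) (by norm_num)
  obtain ⟨Tq, hTq⟩ := h5 M J J q
  obtain ⟨Tr, hTr⟩ := h5 M J J (r • (1 : Matrix J J (GS M)))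
  obtain ⟨A, K, hTr', hA, hK⟩ := h9 M J r (1 / 2) Tr hTr (by norm_num) hr
  have hζ0 : ∀ i, ζ i ≠ 0 := by
    intro i h
    have := hζ i
    rw [h] at this
    norm_num at this
  have hTg : T ∘L g = g ∘L T := h10 M J J ζ χ χ f T g g hζ0 hf hT hg hg
  have hg4 := (h11 M J ζ χ hζ hχ).2 g hg
  have h3' : IsTo ((1 - r) • (1 : Matrix J J (GS M))) (1 + (-1 : ℂ) • Tr) := by
    have e : (1 - r) • (1 : Matrix J J (GS M)) = 1 + (cG (-1) : GS M) • (r • (1 : Matrix J J (GS M))) := by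
      ext1 i j
      show (1 - r) * (1 : Matrix J J (GS M)) i j = (1 : Matrix J J (GS M)) i j +
        (cG (-1) : GS M) * (r * (1 : Matrix J J (GS M)) i j)
      rw [cG_neg_one]
      ring
    rw [e]
    exact (h6 M J J).2.1 _ _ _ _ (h6 M J J).2.2.2 ((h6 M J J).2.2.1 (-1) _ _ hTr)
  have hC1 : Cpt (Tq ∘L T - (1 + (-1 : ℂ) • Tr)) := by
    refine (h7 (In M J) (H (In M J)) (H (In M J))).2.2.2.2 _ ?_
    exact h8 M J J J q f Tq T _ hTq hT (by rw [hq2]; exact h3')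
  have hC2 : Cpt (T ∘L Tq - (1 + (-1 : ℂ) • Tr)) := by
    refine (h7 (In M J) (H (In M J)) (H (In M J))).2.2.2.2 _ ?_
    exact h8 M J J J f q T Tq _ hT hTq (by rw [hq1]; exact h3')
  have hcp := h2 (H (In M J)) (H (In M J)) (H (In M J))
  have hK' : Cpt K := hcp.2.2.1 K hK
  have key : ∀ X : H (In M J) →L[ℂ] H (In M J), Cpt (X - (1 + (-1 : ℂ) • Tr)) →
      Cpt (K + (-1 : ℂ) • (X - (1 + (-1 : ℂ) • Tr))) ∧
        X = 1 - A - (K + (-1 : ℂ) • (X - (1 + (-1 : ℂ) • Tr))) := by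
    intro X hX
    refine ⟨hcp.1 _ _ hK' (hcp.2.1 _ _ hX), ?_⟩
    rw [hTr']
    simp only [neg_one_smul]
    abel
  obtain ⟨k1, k2⟩ := key _ hC1
  obtain ⟨k3, k4⟩ := key _ hC2
  exact h3 _ _ g g T Tq Tq A _ A _ hg4.1 hg4.1 hg4.2 hg4.2 hTg (by linarith) k1 k2 (by linarith)
    k3 k4

end Pool.Agent.Tate.Toe
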