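import Pool.Agent.Lib.Tate.Toe.Spec

/-!
# C42 (MP_071d69_gt), Toe/It (helper33)
-/

set_option autoImplicit false

open Set Filter Topology

noncomputable section

namespace Pool.Agent.Tate.Toe

open Idx

namespace Itaux

theorem Sp_snoc {M : ℕ} {z : Fin M → ℂ} (hz : z ∈ Sp M) :
    Fin.snoc (α := fun _ => ℂ) z 0 ∈ Sp (M + 1) := by
  show ∑ j, ‖(Fin.snoc (α := fun _ => ℂ) z 0 : Fin (M + 1) → ℂ) j‖ ^ 2 = 1
  rw [Fin.sum_univ_castSucc]
  simp only [Fin.snoc_castSucc, Fin.snoc_last, norm_zero]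
  have : ∑ j, ‖z j‖ ^ 2 = 1 := hz
  rw [this]
  norm_num

theorem eqs_res {M : ℕ} {J : Type} {ζ : Fin (M + 1) → ℂ} {χ : J → ℂ}
    {f : Matrix J J (GS (M + 1))} {f' : Matrix J J (GS M)} (hf : Eqs ζ χ χ f)
    (h : ∀ j' j, IsRes (f j' j) (f' j' j)) : Eqs (fun i => ζ i.castSucc) χ χ f' := by
  intro j' j k hk
  have h1 : (f j' j).1.coeff (Fin.snoc (α := fun _ => ℤ) k 0) ≠ 0 := by
    intro h0
    apply hk
    funext t
    rw [h j' j k t, h0]
    rfl
  have h2 := hf j' j _ h1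
  rw [Fin.prod_univ_castSucc] at h2
  simpa using h2

theorem det_res {M : ℕ} {J : Type} [Fintype J] [DecidableEq J]
    {f : Matrix J J (GS (M + 1))} {f' : Matrix J J (GS M)}
    (h : ∀ (j' j : J) (z : Fin M → ℂ), ev z (f' j' j) = ev (Fin.snoc (α := fun _ => ℂ) z 0) (f j' j))
    (hd : ∀ z ∈ Sp (M + 1), (f.map (ev z)).det ≠ 0) : ∀ z ∈ Sp M, (f'.map (ev z)).det ≠ 0 := by
  intro z hz
  have : f'.map (ev z) = f.map (ev (Fin.snoc (α := fun _ => ℂ) z 0)) := by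
    ext i j
    exact h i j z
  rw [this]
  exact hd _ (Sp_snoc hz)

theorem append_snoc {M d : ℕ} (z : Fin M → ℂ) :
    (Fin.append z (0 : Fin (d + 1) → ℂ) : Fin (M + (d + 1)) → ℂ) =
      Fin.snoc (α := fun _ => ℂ) (Fin.append z (0 : Fin d → ℂ)) 0 := by
  have h : (0 : Fin (d + 1) → ℂ) = Fin.snoc (α := fun _ => ℂ) (0 : Fin d → ℂ) 0 := by
    funext i
    refine Fin.lastCases ?_ (fun i => ?_) i <;> simp
  rw [h, Fin.append_snoc]

end Itaux

open Itaux in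
theorem pIt (h1 : Idx.S_L2) (h2 : S_To1) (h3 : S_To2) (h4 : S_Dg) (h5 : S_Fr) (h6 : S_Rs)
    (h7 : S_P2) : S_It := by
  intro J _ _ χ M hM hχ d
  induction d with
  | zero =>
    intro ζ f T g w hζ hf hd hT hg hw
    refine ⟨f, hf, fun z i j => ?_, fun T' g' hT' hg' => ?_⟩
    · congr 1
      have : Fin.append z (0 : Fin 0 → ℂ) = z := by
        funext i
        exact Fin.append_left z (0 : Fin 0 → ℂ) i
      rw [this]
    · have e1 : T' = T := (h3 M J J).1 f T' T hT' hT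
      have e2 : g' = g := (h1 (In M J) (H (In M J))).2.2 g' g fun p => by
        rw [hg' p]
        exact (hg p).symm
      rw [e1, e2]
      simpa using hw
  | succ d ih =>
    intro ζ f T g w hζ hf hd hT hg hw
    choose f₁ hf₁ hev₁ using fun (j' j : J) => h6 (M + d) (f j' j)
    have hE := eqs_res (f' := f₁) hf hf₁
    have hdet := det_res (f' := f₁) hev₁ hd
    have hζ' : ∀ i : Fin (M + d), ζ i.castSucc ^ 4 = 1 := fun i => hζ _
    obtain ⟨T₁, hT₁⟩ := h2 (M + d) J J f₁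
    obtain ⟨g₁, hg₁⟩ := (h4 (M + d) J (fun i => ζ i.castSucc) χ hζ' hχ).1
    obtain ⟨w₁, hw₁⟩ := h5 (M + d) J (fun i => ζ i.castSucc) χ f₁ T₁ g₁ (by omega) hζ' hχ hE hdet
      hT₁ hg₁
    have hP := h7 (M + d) J ζ χ f f₁ T g T₁ g₁ w w₁ hζ hχ hf hf₁ hT hT₁ hg hg₁ hw hw₁
    obtain ⟨f', hf', hev', hfin⟩ := ih (fun i => ζ i.castSucc) f₁ T₁ g₁ w₁ hζ' hE hdet hT₁ hg₁ hw₁
    refine ⟨f', hf', fun z i j => ?_, fun T' g' hT' hg' => ?_⟩
    · rw [hev', append_snoc]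
      exact hev₁ i j _
    · have := hfin T' g' hT' hg'
      rw [hP] at this
      rw [Fin.prod_univ_castSucc]
      have e : (∏ i : Fin d, (1 - ζ (Fin.natAdd M i.castSucc))) * (1 - ζ (Fin.natAdd M (Fin.last d))) * w =
        (∏ i : Fin d, (1 - ζ (Fin.natAdd M i).castSucc)) * ((1 - ζ (Fin.last (M + d))) * w) := by
        rw [mul_assoc]
        rfl
      rw [e]
      exact this

end Pool.Agent.Tate.Toe
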