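import Pool.Agent.Lib.Tate.Toe.Spec

/-!
# C42 (MP_071d69_gt), Toe/P2 (helper33)
-/

set_option autoImplicit false

open Set Filter Topology

noncomputable section

namespace Pool.Agent.Tate.Toe

open Idx

namespace P2aux

theorem chr_snoc {M : ℕ} {J : Type} (ζ : Fin (M + 1) → ℂ) (χ : J → ℂ) (a : Fin M → ℕ) (j : J) :
    chr ζ χ ((Fin.snoc (α := fun _ => ℕ) a 0, j) : In (M + 1) J) =
      chr (fun i => ζ i.castSucc) χ (a, j) := by
  unfold chr
  simp only
  rw [Fin.prod_univ_castSucc]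
  simp

theorem chr_up1 {M : ℕ} {J : Type} (ζ : Fin (M + 1) → ℂ) (χ : J → ℂ) (a : Fin (M + 1) → ℕ)
    (j : J) : chr ζ χ ((up1 a, j) : In (M + 1) J) = ζ (Fin.last M) * chr ζ χ (a, j) := by
  have h : ∏ i, ζ i ^ (up1 a i) = ζ (Fin.last M) * ∏ i, ζ i ^ (a i) := by
    have h1 : ∀ i, ζ i ^ (up1 a i) = ζ i ^ (Pi.single (M := fun _ => ℕ) (Fin.last M) 1 i) *
        ζ i ^ (a i) := by
      intro i
      rw [← pow_add, add_comm]
      rfl
    rw [Finset.prod_congr rfl fun i _ => h1 i, Finset.prod_mul_distrib]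
    congr 1
    rw [Finset.prod_eq_single (Fin.last M)]
    · simp
    · intro i _ hi
      rw [Pi.single_eq_of_ne hi, pow_zero]
    · intro h
      exact absurd (Finset.mem_univ _) h
  unfold chr
  simp only
  rw [h, mul_assoc]

theorem cases {M : ℕ} (a : Fin (M + 1) → ℕ) :
    (∃ a' : Fin M → ℕ, a = Fin.snoc (α := fun _ => ℕ) a' 0) ∨ ∃ a' : Fin (M + 1) → ℕ, a = up1 a' := by
  rcases Nat.eq_zero_or_pos (a (Fin.last M)) with h | h
  · left
    refine ⟨fun i => a i.castSucc, ?_⟩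
    funext i
    refine Fin.lastCases ?_ (fun i => ?_) i
    · rw [Fin.snoc_last, h]
    · rw [Fin.snoc_castSucc]
  · right
    refine ⟨a - Pi.single (Fin.last M) 1, ?_⟩
    funext i
    unfold up1
    rw [Pi.add_apply, Pi.sub_apply]
    by_cases hi : i = Fin.last M
    · subst hi
      simp only [Pi.single_eq_same]
      omega
    · simp only [Pi.single_eq_of_ne hi]
      omega

end P2aux

open P2aux in
theorem pP2 (h1 : Idx.S_I1) (h2 : Idx.S_I5) (h3 : Idx.S_I6) (h4 : Idx.S_I8) (h5 : Idx.S_L2)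
    (h6 : S_To5) (h7 : S_Dg) (h8 : S_Ck) (h9 : S_C0) (h10 : S_Sh) (h11 : S_Bt) : S_P2 := by
  intro M J _ _ ζ χ f f' T g T' g' w w' hζ hχ hf hres hT hT' hg hg' hw hw'
  obtain ⟨⟨D, hD⟩, hsh⟩ := h10 M J f
  have hcol := hsh T D hT hD
  obtain ⟨E, B, hE1, hE2, hE3⟩ := h11 M J f f' T D T' hres hT hT' hD
  have hζ0 : ∀ i, ζ i ≠ 0 := by
    intro i h
    have := hζ i
    rw [h] at this
    norm_num at this
  have hTg : T ∘L g = g ∘L T := h6 (M + 1) J J ζ χ χ f T g g hζ0 hf hT hg hg
  have hg4 := (h7 (M + 1) J ζ χ hζ hχ).2 g hg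
  set c : ℂ := ζ (Fin.last M) with hc
  -- the operator `g` in the coordinates
  have hEg : (E : H (In (M + 1) J) →L[ℂ] H (In M J) × H (In (M + 1) J)) ∘L g =
      (g'.prodMap (c • g)) ∘L
        (E : H (In (M + 1) J) →L[ℂ] H (In M J) × H (In (M + 1) J)) := by
    refine (h5 (In (M + 1) J) (H (In M J) × H (In (M + 1) J))).2.2 _ _ ?_
    rintro ⟨a, j⟩
    rcases cases a with ⟨a', rfl⟩ | ⟨a', rfl⟩
    · show E (g (de (Fin.snoc (α := fun _ => ℕ) a' 0, j))) = (g'.prodMap (c • g)) (E (de (Fin.snoc (α := fun _ => ℕ) a' 0, j)))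
      rw [hg, map_smul, hE1]
      show _ = (g' (de (a', j)), (c • g) 0)
      rw [hg', map_zero, chr_snoc]
      simp
    · show E (g (de (up1 a', j))) = (g'.prodMap (c • g)) (E (de (up1 a', j)))
      rw [hg, map_smul, hE2]
      show _ = (g' 0, c • g (de (a', j)))
      rw [hg, map_zero, chr_up1, smul_smul]
      simp [hc]
  have hEg' : ∀ v, E (g v) = (g' (E v).1, c • g (E v).2) := fun v =>
    congrArg (fun F : H (In (M + 1) J) →L[ℂ] H (In M J) × H (In (M + 1) J) => F v) hEg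
  -- the commutation relations
  have hcomm : ∀ y, B ((c • g) y) = g' (B y) ∧ D ((c • g) y) = (c • g) (D y) := by
    intro y
    have e1 : E.symm (0, (c • g) y) = g (E.symm (0, y)) := by
      rw [ContinuousLinearEquiv.symm_apply_eq, hEg']
      simp
    have e2 : E (T (E.symm (0, (c • g) y))) = (g' (B y), c • g (D y)) := by
      rw [e1]
      have : T (g (E.symm (0, y))) = g (T (E.symm (0, y))) :=
        congrArg (fun F : H (In (M + 1) J) →L[ℂ] H (In (M + 1) J) => F (E.symm (0, y))) hTg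
      rw [this, hEg', hE3]
      simp
    rw [hE3] at e2
    have e3 := Prod.mk.inj e2
    refine ⟨?_, e3.2⟩
    have := e3.1
    simpa using this
  have hDg : D ∘L g = g ∘L D := by
    ext1 y
    have := (hcomm y).2
    have h' : c • D (g y) = c • g (D y) := by
      simpa using this
    exact smul_right_injective _ (hζ0 _) h'
  have hcpt : Cpt (D - T) :=
    (h9 (In (M + 1) J) (H (In (M + 1) J)) (H (In (M + 1) J))).2.2.2.2 _ hcol
  have hDw : HasInd g g D w := by
    have := h8 _ _ g g T (D - T) w hg4.1 hg4.1 hg4.2 hg4.2 hw hcpt (by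
      rw [ContinuousLinearMap.sub_comp, ContinuousLinearMap.comp_sub, hDg, hTg])
    rwa [add_sub_cancel] at this
  have hDw' : HasInd (c • g) (c • g) D (c * w) := h3 _ _ g g D w c hDw
  set ETE : H (In M J) × H (In (M + 1) J) →L[ℂ] H (In M J) × H (In (M + 1) J) :=
    (E : H (In (M + 1) J) →L[ℂ] H (In M J) × H (In (M + 1) J)) ∘L T ∘L
      (E.symm : H (In M J) × H (In (M + 1) J) →L[ℂ] H (In (M + 1) J)) with hETE
  have hblock := h2 (H (In M J)) (H (In (M + 1) J)) (H (In M J)) (H (In (M + 1) J)) g' (c • g) g'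
    (c • g) T' B D ETE w' (c * w) hw' hDw' (by
      ext1 y
      exact (hcomm y).1) (fun x y => hE3 x y)
  have hfin := h4 _ _ _ _ (g'.prodMap (c • g)) (g'.prodMap (c • g)) g g E.symm E.symm ETE T
    (w' + c * w) (by
      intro v
      rw [ContinuousLinearEquiv.symm_apply_eq, hEg', ContinuousLinearEquiv.apply_symm_apply]
      rfl) (by
      intro v
      rw [ContinuousLinearEquiv.symm_apply_eq, hEg', ContinuousLinearEquiv.apply_symm_apply]
      rfl) (by
      intro v
      rw [hETE]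
      simp) hblock
  have := h1 _ _ g g T _ _ hw hfin
  linear_combination -this

end Pool.Agent.Tate.Toe
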