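import Pool.Agent.Lib.Tate.Toe.Spec

/-! # C42, block Toe: proof of `S_Pa` (affine paths of invertible symbols) -/

set_option autoImplicit false

open Set Filter Topology

noncomputable section

namespace Pool.Agent.Tate.Toe

open Idx

private theorem coeff_cG_mul {M : ℕ} (c : ℂ) (f : GS M) (k : Fin M → ℤ) (t : Fin M → ℝ) :
    ((cG c * f : GS M)).1.coeff k t = c * f.1.coeff k t := by
  have h : ((cG c * f : GS M)).1 = AddMonoidAlgebra.single 0 (fun _ => c) * f.1 := rfl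
  rw [h, AddMonoidAlgebra.coeff_single_zero_mul]
  rfl

theorem pPa (h1 : Idx.S_B3) (h2 : S_To2) (h3 : S_Fr) : S_Pa := by
  intro M J _ _ ζ χ f₀ f₁ T₀ T₁ g w hM hζ hχ hE₀ hE₁ hdet hT₀ hT₁ hg hI
  obtain ⟨_, hadd, hsmul, _⟩ := h2 M J J
  have h4 := h1 (H (In M J)) (H (In M J)) g g
    (fun s : ℝ => ((1 - s : ℝ) : ℂ) • T₀ + ((s : ℝ) : ℂ) • T₁) w ?_ ?_ ?_
  · simpa using h4
  · apply Continuous.continuousOn
    fun_prop
  · intro s hs
    refine h3 M J ζ χ ((cG ((1 - s : ℝ) : ℂ) : GS M) • f₀ + (cG ((s : ℝ) : ℂ) : GS M) • f₁)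
      _ g hM hζ hχ ?_ ?_ (hadd _ _ _ _ (hsmul _ _ _ hT₀) (hsmul _ _ _ hT₁)) hg
    · intro j' j k hk
      by_cases h0 : (f₀ j' j).1.coeff k = 0
      · by_cases h00 : (f₁ j' j).1.coeff k = 0
        · exfalso
          apply hk
          funext t
          have e1 : (((cG ((1 - s : ℝ) : ℂ) : GS M) • f₀ + (cG ((s : ℝ) : ℂ) : GS M) • f₁)
              j' j).1.coeff k t = ((cG ((1 - s : ℝ) : ℂ) : GS M) * f₀ j' j).1.coeff k t +
                ((cG ((s : ℝ) : ℂ) : GS M) * f₁ j' j).1.coeff k t := rfl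
          rw [e1, coeff_cG_mul, coeff_cG_mul, h0, h00]
          simp
        · exact hE₁ j' j k h00
      · exact hE₀ j' j k h0
    · intro z hz
      have e1 : ((cG ((1 - s : ℝ) : ℂ) : GS M) • f₀ + (cG ((s : ℝ) : ℂ) : GS M) • f₁).map (ev z) =
          ((1 - s : ℝ) : ℂ) • f₀.map (ev z) + ((s : ℝ) : ℂ) • f₁.map (ev z) := by
        ext i j
        simp only [Matrix.map_apply, Matrix.add_apply, Matrix.smul_apply, smul_eq_mul, map_add,
          map_mul, ev_cG]
      rw [e1]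
      exact hdet s hs z hz
  · simpa using hI

end Pool.Agent.Tate.Toe
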