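import Pool.Agent.Lib.Tate.Toe.Spec

/-!
# C42 (MP_071d69_gt), block Toe: `S_Pm`, inverse symbols up to small symbols
-/

set_option autoImplicit false

open Set Filter Topology

noncomputable section

namespace Pool.Agent.Tate.Toe

open Idx

namespace PmAux

theorem continuous_sum (M : ℕ) : Continuous fun z : Fin M → ℂ => ∑ j, ‖z j‖ ^ 2 :=
  continuous_finsetSum _ fun j _ => ((continuous_apply j).norm).pow 2

theorem isCompact_Sp (M : ℕ) : IsCompact (Sp M) := by
  refine Metric.isCompact_of_isClosed_isBounded ?_ ?_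
  · exact isClosed_eq (continuous_sum M) continuous_const
  · refine (Metric.isBounded_closedBall (x := (0 : Fin M → ℂ)) (r := 1)).subset fun z hz => ?_
    rw [mem_closedBall_zero_iff, pi_norm_le_iff_of_nonneg zero_le_one]
    intro j
    have h1 : ‖z j‖ ^ 2 ≤ 1 := by
      have h : ∑ j, ‖z j‖ ^ 2 = 1 := hz
      rw [← h]
      exact Finset.single_le_sum (f := fun j => ‖z j‖ ^ 2) (fun i _ => by positivity)
        (Finset.mem_univ j)
    nlinarith [norm_nonneg (z j)]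

theorem nonempty_Sp {M : ℕ} (hM : 1 ≤ M) : (Sp M).Nonempty := by
  refine ⟨Pi.single ⟨0, hM⟩ 1, ?_⟩
  show ∑ j, ‖(Pi.single (⟨0, hM⟩ : Fin M) (1 : ℂ) : Fin M → ℂ) j‖ ^ 2 = 1
  rw [Finset.sum_eq_single ⟨0, hM⟩]
  · simp
  · intro j _ hj
    simp [Pi.single_eq_of_ne hj]
  · intro h
    exact absurd (Finset.mem_univ _) h

theorem gen {R J : Type} [CommRing R] [Fintype J] [DecidableEq J] (f : Matrix J J R) (a b : R)
    (h : a * f.det = b) :
    f * (a • f.adjugate) = b • (1 : Matrix J J R) ∧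
      (a • f.adjugate) * f = b • (1 : Matrix J J R) := by
  constructor
  · rw [Matrix.mul_smul, Matrix.mul_adjugate, smul_smul, h]
  · rw [Matrix.smul_mul, Matrix.adjugate_mul, smul_smul, h]

end PmAux

open PmAux in
theorem pPm (h1 : S_Cj) (h2 : S_E3) (h3 : S_Ec) : S_Pm := by
  intro M J _ _ f hM hf ε hε
  set D : GS M := f.det with hD
  obtain ⟨D', hD'⟩ := h1 M D
  have hevD : ∀ z, ev z D = (f.map (ev z)).det := by
    intro z
    rw [hD, RingHom.map_det]
    rfl
  -- the function |det|²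
  have hcont : ContinuousOn (fun z => ‖ev z D‖ ^ 2) (Sp M) := ((h3 M D).norm).pow 2
  obtain ⟨z0, hz0, hmin⟩ := (isCompact_Sp M).exists_isMinOn (nonempty_Sp hM) hcont
  obtain ⟨z1, hz1, hmax⟩ := (isCompact_Sp M).exists_isMaxOn (nonempty_Sp hM) hcont
  set c : ℝ := ‖ev z0 D‖ ^ 2 with hc
  set C : ℝ := ‖ev z1 D‖ ^ 2 with hC
  have hc0 : 0 < c := by
    have : ev z0 D ≠ 0 := by rw [hevD]; exact hf z0 hz0
    have := norm_pos_iff.2 this
    positivity
  have hcC : c ≤ C := hmin hz1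
  have hCc : 0 < C + c := by linarith
  set s : GS M := cG ((2 / (C + c) : ℝ) : ℂ) with hs
  set r0 : GS M := 1 - s * (D * D') with hr0
  have hev0 : ∀ z, ev z r0 = ((1 - 2 / (C + c) * ‖ev z D‖ ^ 2 : ℝ) : ℂ) := by
    intro z
    rw [hr0, map_sub, map_one, map_mul, map_mul, hD', hs, ev_cG, Complex.mul_conj']
    push_cast
    ring
  have hρ : ∀ z ∈ Sp M, ‖ev z r0‖ ≤ (C - c) / (C + c) := by
    intro z hz
    have a1 : c ≤ ‖ev z D‖ ^ 2 := hmin hz
    have a2 : ‖ev z D‖ ^ 2 ≤ C := hmax hz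
    rw [hev0, Complex.norm_real, Real.norm_eq_abs, abs_le]
    have e1 : 1 - 2 / (C + c) * ‖ev z D‖ ^ 2 = (C + c - 2 * ‖ev z D‖ ^ 2) / (C + c) := by
      field_simp
    rw [e1, ← neg_div]
    constructor
    · exact div_le_div_of_nonneg_right (by linarith) hCc.le
    · exact div_le_div_of_nonneg_right (by linarith) hCc.le
  have hρ0 : 0 ≤ (C - c) / (C + c) := div_nonneg (by linarith) hCc.le
  have hρ1 : (C - c) / (C + c) < 1 := by
    rw [div_lt_one hCc]
    linarith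
  obtain ⟨n, hn⟩ := h2 M r0 _ hρ0 hρ1 hρ ε hε
  set S : GS M := ∑ m ∈ Finset.range n, r0 ^ m with hS
  have hgeo : (s * D' * S) * D = 1 - r0 ^ n := by
    have := mul_neg_geom_sum r0 n
    rw [← this, hr0]
    ring
  obtain ⟨g1, g2⟩ := gen f (s * D' * S) (1 - r0 ^ n) hgeo
  exact ⟨(s * D' * S) • f.adjugate, r0 ^ n, g1, g2, hn⟩

end Pool.Agent.Tate.Toe
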