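import Pool.Agent.Lib.Tate.Toe.Spec

/-!
# C42 (MP_071d69_gt), block Toe, statement Rs: the restriction of a symbol
-/

set_option autoImplicit false

open Set Filter Topology

noncomputable section

namespace Pool.Agent.Tate.Toe

open Idx

namespace RsM

variable {M : ℕ}

/-- `(k, 0)` -/
private def sn (k : Fin M → ℤ) : Fin (M + 1) → ℤ := Fin.snoc (α := fun _ => ℤ) k 0

private theorem sn_inj : Function.Injective (sn : (Fin M → ℤ) → _) := by
  intro k l h
  funext i
  have h1 := congrFun h i.castSucc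
  simpa [sn] using h1

private theorem sn_cast (k : Fin M → ℤ) (i : Fin M) : sn k i.castSucc = k i := by
  simp [sn]

private theorem sn_last (k : Fin M → ℤ) : sn k (Fin.last M) = 0 := by
  simp [sn]

private theorem sn_range {l : Fin (M + 1) → ℤ} (h : l ∉ Set.range (sn : (Fin M → ℤ) → _)) :
    l (Fin.last M) ≠ 0 := by
  intro h0
  apply h
  refine ⟨fun i => l i.castSucc, ?_⟩
  funext i
  refine Fin.lastCases ?_ (fun j => ?_) i
  · rw [sn_last, h0]
  · rw [sn_cast]

/-- restriction of the coefficients -/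
private def rc (c : (Fin (M + 1) → ℝ) → ℂ) : (Fin M → ℝ) → ℂ :=
  fun t => c (Fin.snoc (α := fun _ => ℝ) t 0)

private theorem rc_zero : rc (0 : (Fin (M + 1) → ℝ) → ℂ) = 0 := rfl

/-- the restriction -/
private def rs (f : RR (M + 1)) : RR M :=
  AddMonoidAlgebra.ofCoeff
    (Finsupp.mapRange rc rc_zero (Finsupp.comapDomain sn f.coeff sn_inj.injOn))

private theorem rs_coeff (f : RR (M + 1)) (k : Fin M → ℤ) : (rs f).coeff k = rc (f.coeff (sn k)) :=
  rfl

private theorem snoc_mem {t : Fin M → ℝ} (ht : t ∈ stdSimplex ℝ (Fin M)) :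
    (Fin.snoc (α := fun _ => ℝ) t 0 : Fin (M + 1) → ℝ) ∈ stdSimplex ℝ (Fin (M + 1)) := by
  refine ⟨fun i => ?_, ?_⟩
  · refine Fin.lastCases ?_ (fun j => ?_) i
    · simp
    · simpa using ht.1 j
  · rw [Fin.sum_univ_castSucc]
    simpa using ht.2

private theorem snoc_cont : Continuous fun t : Fin M → ℝ =>
    (Fin.snoc (α := fun _ => ℝ) t 0 : Fin (M + 1) → ℝ) := by
  refine continuous_pi fun i => ?_
  refine Fin.lastCases ?_ (fun j => ?_) i
  · simpa using continuous_const
  · simpa using continuous_apply j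

private theorem rs_good {f : RR (M + 1)} (hf : Gd f) : Gd (rs f) := by
  refine ⟨fun k => ?_, fun k t j h h' => ?_⟩
  · rw [rs_coeff]
    exact (hf.1 (sn k)).comp snoc_cont.continuousOn fun t ht => snoc_mem ht
  · rw [rs_coeff]
    exact hf.2 (sn k) _ j.castSucc (by simpa using h) (by rw [sn_cast]; exact h')

private theorem ph_sn (k : Fin M → ℤ) (z : Fin M → ℂ) :
    ph (sn k) (Fin.snoc (α := fun _ => ℂ) z 0) = ph k z := by
  unfold ph
  rw [Fin.prod_univ_castSucc, sn_last, zpow_zero, mul_one]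
  refine Finset.prod_congr rfl fun i _ => ?_
  rw [sn_cast, Fin.snoc_castSucc]

private theorem ph_zero {l : Fin (M + 1) → ℤ} (h : l (Fin.last M) ≠ 0) (z : Fin M → ℂ) :
    ph l (Fin.snoc (α := fun _ => ℂ) z 0) = 0 := by
  unfold ph
  rw [Fin.prod_univ_castSucc, Fin.snoc_last, zero_div, zero_zpow _ h, mul_zero]

private theorem abs_snoc (z : Fin M → ℂ) :
    (fun j => ‖(Fin.snoc (α := fun _ => ℂ) z 0 : Fin (M + 1) → ℂ) j‖ ^ 2) =
      Fin.snoc (α := fun _ => ℝ) (fun j => ‖z j‖ ^ 2) 0 := by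
  funext i
  refine Fin.lastCases ?_ (fun j => ?_) i
  · simp
  · simp

end RsM

open RsM in
theorem pRs : S_Rs := by
  intro M f
  refine ⟨⟨rs f.1, rs_good f.2⟩, ?_, ?_⟩
  · intro k t
    show (rs f.1).coeff k t = _
    rw [rs_coeff]
    rfl
  · intro z
    show evA z (rs f.1) = evA (Fin.snoc (α := fun _ => ℂ) z 0) f.1
    unfold evA
    rw [Finsupp.sum, Finsupp.sum]
    have h1 := Finset.sum_preimage (sn : (Fin M → ℤ) → _) f.1.coeff.support sn_inj.injOn
      (fun l => ph l (Fin.snoc (α := fun _ => ℂ) z 0) *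
        f.1.coeff l fun j => ‖(Fin.snoc (α := fun _ => ℂ) z 0 : Fin (M + 1) → ℂ) j‖ ^ 2)
      (fun l _ hl => by rw [ph_zero (sn_range hl), zero_mul])
    rw [← h1]
    have h2 : (rs f.1).coeff.support ⊆ f.1.coeff.support.preimage sn sn_inj.injOn := by
      intro k hk
      rw [Finset.mem_preimage, Finsupp.mem_support_iff]
      intro h0
      rw [Finsupp.mem_support_iff] at hk
      apply hk
      rw [rs_coeff, h0]
      rfl
    rw [← Finset.sum_subset h2]
    · refine Finset.sum_congr rfl fun k _ => ?_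
      rw [ph_sn, abs_snoc, rs_coeff]
      rfl
    · intro k _ hk
      rw [Finsupp.notMem_support_iff, rs_coeff] at hk
      rw [abs_snoc]
      have h3 := congrFun hk fun j => ‖z j‖ ^ 2
      rw [show f.1.coeff (sn k) (Fin.snoc (α := fun _ => ℝ) (fun j => ‖z j‖ ^ 2) 0) =
        rc (f.1.coeff (sn k)) fun j => ‖z j‖ ^ 2 from rfl, h3]
      simp

end Pool.Agent.Tate.Toe
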