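import Pool.Agent.Lib.Tate.Toe.Spec

/-!
# C42 (MP_071d69_gt), block Toe: the shifted operator
-/

set_option autoImplicit false

open Set Filter Topology

noncomputable section

namespace Pool.Agent.Tate.Toe

open Idx

namespace Sh

variable {ι : Type}

theorem de_self (a : ι) : (de a : ι → ℂ) a = 1 := by
  classical
  unfold de
  exact lp.single_apply_self _ _ _

theorem de_ne {a b : ι} (h : b ≠ a) : (de a : ι → ℂ) b = 0 := by
  classical
  unfold de
  exact lp.single_apply_ne _ _ _ h

theorem norm_de (a : ι) : ‖(de a : H ι)‖ = 1 := by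
  classical
  unfold de
  rw [lp.norm_single one_pos, norm_one]

/-- the value at `q` -/
def val (q : ι) : H ι →+ ℂ where
  toFun x := (x : ι → ℂ) q
  map_zero' := rfl
  map_add' _ _ := rfl

theorem val_de_self (a : ι) : val a (de a) = 1 := de_self a

theorem val_de_ne {a b : ι} (h : b ≠ a) : val b (de a) = 0 := de_ne h

theorem val_smul (q : ι) (c : ℂ) (x : H ι) : val q (c • x) = c * val q x := rfl

theorem ext_val {x y : H ι} (h : ∀ q, val q x = val q y) : x = y :=
  lp.ext (funext h)

section

variable {M : ℕ} {J' : Type} [Fintype J'] (a : Fin M → ℕ) (S : J' → Finset (Fin M → ℤ))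
  (c : J' → (Fin M → ℤ) → ℂ)

/-- a column with given entries -/
def colv : H (In M J') := open Classical in ∑ j', ∑ k ∈ S j',
  if ∀ i, 0 ≤ (a i : ℤ) + k i then c j' k • de (fun i => ((a i : ℤ) + k i).toNat, j') else 0

theorem colv_norm : ‖colv a S c‖ ≤ ∑ j', ∑ k ∈ S j', ‖c j' k‖ := by
  unfold colv
  refine (norm_sum_le _ _).trans (Finset.sum_le_sum fun j' _ => ?_)
  refine (norm_sum_le _ _).trans (Finset.sum_le_sum fun k _ => ?_)
  split_ifs
  · rw [norm_smul, norm_de, mul_one]
  · rw [norm_zero]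
    exact norm_nonneg _

theorem colv_val (b : Fin M → ℕ) (j' : J') (h : df b a ∉ S j' → c j' (df b a) = 0) :
    val (b, j') (colv a S c) = c j' (df b a) := by
  classical
  unfold colv
  rw [map_sum, Finset.sum_eq_single j']
  · rw [map_sum, Finset.sum_eq_single (df b a)]
    · have e1 : ∀ i, (a i : ℤ) + df b a i = b i := fun i => by
        unfold df
        ring
      have e2 : ∀ i, 0 ≤ (a i : ℤ) + df b a i := fun i => by
        rw [e1]
        exact Int.natCast_nonneg _
      rw [if_pos e2, val_smul]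
      have e3 : (fun i => ((a i : ℤ) + df b a i).toNat) = b := by
        funext i
        rw [e1, Int.toNat_natCast]
      rw [e3, val_de_self, mul_one]
    · intro k _ hk
      split_ifs with hn
      · rw [val_smul, val_de_ne, mul_zero]
        intro h
        refine hk (funext fun i => ?_)
        have h4 : b i = ((a i : ℤ) + k i).toNat := congrFun (Prod.ext_iff.1 h).1 i
        have h5 := hn i
        unfold df
        omega
      · exact map_zero _
    · intro hk
      rw [h hk]
      split_ifs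
      · rw [val_smul, zero_mul]
      · exact map_zero _
  · intro j'' _ hj
    rw [map_sum]
    refine Finset.sum_eq_zero fun k _ => ?_
    split_ifs with hn
    · rw [val_smul, val_de_ne, mul_zero]
      intro h
      exact hj (Prod.ext_iff.1 h).2.symm
    · exact map_zero _
  · intro h
    exact absurd (Finset.mem_univ j') h

end

end Sh

open Sh in
theorem pSh (h1 : Idx.S_L1) (h2 : S_Ub) : S_Sh := by
  classical
  intro M J _ f
  constructor
  · have hC : ∀ (j' j : J) (k : Fin (M + 1) → ℤ), ∃ C : ℝ, ∀ a : Fin (M + 1) → ℕ,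
        ‖(f j' j).1.coeff k (pt a)‖ ≤ C := fun j' j k => (h2 (M + 1) _ ((f j' j).2.1 k)).1
    choose C hC using hC
    have hC0 : ∀ j' j k, 0 ≤ C j' j k := fun j' j k => (norm_nonneg _).trans (hC j' j k 0)
    set v : In (M + 1) J → H (In (M + 1) J) := fun p => colv p.1
      (fun j' => (f j' p.2).1.coeff.support) (fun j' k => (f j' p.2).1.coeff k (pt (up1 p.1)))
      with hv
    have hvn : ∀ p, ‖v p‖ ≤ ∑ j, ∑ j', ∑ k ∈ (f j' j).1.coeff.support, C j' j k := by
      intro p
      have e1 : ‖v p‖ ≤ ∑ j', ∑ k ∈ (f j' p.2).1.coeff.support, C j' p.2 k := by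
        refine (colv_norm _ _ _).trans (Finset.sum_le_sum fun j' _ =>
          Finset.sum_le_sum fun k _ => ?_)
        exact hC j' p.2 k (up1 p.1)
      refine e1.trans ?_
      exact Finset.single_le_sum (f := fun j => ∑ j', ∑ k ∈ (f j' j).1.coeff.support, C j' j k)
        (fun j _ => Finset.sum_nonneg fun j' _ => Finset.sum_nonneg fun k _ => hC0 j' j k)
        (Finset.mem_univ p.2)
    obtain ⟨T, -, hT⟩ := h1 (In (M + 1) J) (H (In (M + 1) J)) v _
      (Finset.sum_nonneg fun j _ => Finset.sum_nonneg fun j' _ => Finset.sum_nonneg fun k _ =>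
        hC0 j' j k) hvn
    refine ⟨T, ?_⟩
    intro a b j j'
    have e0 : (T (de (a, j)) : In (M + 1) J → ℂ) (b, j') = val (b, j') (T (de (a, j))) := rfl
    rw [e0, hT]
    simp only [hv]
    rw [colv_val]
    intro hk
    rw [Finsupp.notMem_support_iff.1 hk]
    rfl
  · intro T D hT hD ε hε
    -- the columns of the difference
    have hcol : ∀ a j, (D - T) (de (a, j)) = colv a (fun j' => (f j' j).1.coeff.support)
        (fun j' k => (f j' j).1.coeff k (pt (up1 a)) - (f j' j).1.coeff k (pt a)) := by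
      intro a j
      refine ext_val fun q => ?_
      obtain ⟨b, j'⟩ := q
      rw [colv_val]
      · have e1 : val (b, j') ((D - T) (de (a, j))) =
          (D (de (a, j)) : In (M + 1) J → ℂ) (b, j') -
            (T (de (a, j)) : In (M + 1) J → ℂ) (b, j') := rfl
        rw [e1, hD, hT]
      · intro hk
        rw [Finsupp.notMem_support_iff.1 hk]
        simp
    obtain ⟨K, hK⟩ : ∃ K : ℕ, K = ∑ j, ∑ j', (f j' j).1.coeff.support.card := ⟨_, rfl⟩
    obtain ⟨δ, hδ⟩ : ∃ δ : ℝ, δ = ε / (K + 1) := ⟨_, rfl⟩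
    have hK0 : (0 : ℝ) < K + 1 := Nat.cast_add_one_pos K
    have hδ0 : 0 < δ := by rw [hδ]; exact div_pos hε hK0
    have hN : ∀ (j' j : J) (k : Fin (M + 1) → ℤ), ∃ N : ℕ, ∀ a b : Fin (M + 1) → ℕ,
        N ≤ ∑ i, a i → df b a = Pi.single (Fin.last M) 1 →
        ‖(f j' j).1.coeff k (pt b) - (f j' j).1.coeff k (pt a)‖ ≤ δ := fun j' j k =>
      (h2 (M + 1) _ ((f j' j).2.1 k)).2.1 (Pi.single (Fin.last M) 1) δ hδ0
    choose N hN using hN
    obtain ⟨N₀, hN₀⟩ : ∃ N₀ : ℕ, N₀ = ∑ j, ∑ j', ∑ k ∈ (f j' j).1.coeff.support, N j' j k :=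
      ⟨_, rfl⟩
    have hNle : ∀ j j', ∀ k ∈ (f j' j).1.coeff.support, N j' j k ≤ N₀ := by
      intro j j' k hk
      rw [hN₀]
      calc N j' j k ≤ ∑ k ∈ (f j' j).1.coeff.support, N j' j k :=
            Finset.single_le_sum (f := fun k => N j' j k) (fun _ _ => Nat.zero_le _) hk
        _ ≤ ∑ j', ∑ k ∈ (f j' j).1.coeff.support, N j' j k :=
            Finset.single_le_sum (f := fun j' => ∑ k ∈ (f j' j).1.coeff.support, N j' j k)
              (fun _ _ => Nat.zero_le _) (Finset.mem_univ j')
        _ ≤ _ := Finset.single_le_sum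
              (f := fun j => ∑ j', ∑ k ∈ (f j' j).1.coeff.support, N j' j k)
              (fun _ _ => Nat.zero_le _) (Finset.mem_univ j)
    have hup : ∀ a : Fin (M + 1) → ℕ, df (up1 a) a = Pi.single (Fin.last M) 1 := by
      intro a
      funext i
      unfold df up1
      by_cases hi : i = Fin.last M
      · subst hi
        simp
      · simp [hi]
    have hfin : ({a : Fin (M + 1) → ℕ | ∑ i, a i < N₀} ×ˢ (univ : Set J)).Finite := by
      refine Set.Finite.prod ?_ Set.finite_univ
      refine (Set.finite_Iic (fun _ : Fin (M + 1) => N₀)).subset fun a ha => ?_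
      intro i
      have h3 : a i ≤ ∑ i, a i := Finset.single_le_sum (f := fun i => a i)
        (fun _ _ => Nat.zero_le _) (Finset.mem_univ i)
      exact h3.trans (le_of_lt ha)
    refine hfin.subset ?_
    rintro ⟨a, j⟩ hp
    refine ⟨?_, Set.mem_univ _⟩
    by_contra hcon
    have hcon' : N₀ ≤ ∑ i, a i := not_lt.1 hcon
    have hp' : ε < ‖(D - T) (de (a, j))‖ := hp
    rw [hcol] at hp'
    have h3 : ‖colv a (fun j' => (f j' j).1.coeff.support)
        (fun j' k => (f j' j).1.coeff k (pt (up1 a)) - (f j' j).1.coeff k (pt a))‖ ≤ K * δ := by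
      refine (colv_norm _ _ _).trans ?_
      have h4 : ∑ j', ∑ k ∈ (f j' j).1.coeff.support,
          ‖(f j' j).1.coeff k (pt (up1 a)) - (f j' j).1.coeff k (pt a)‖ ≤
          ∑ j', ∑ _k ∈ (f j' j).1.coeff.support, δ :=
        Finset.sum_le_sum fun j' _ => Finset.sum_le_sum fun k hk =>
          hN j' j k a (up1 a) ((hNle j j' k hk).trans hcon') (hup a)
      refine h4.trans ?_
      simp only [Finset.sum_const, nsmul_eq_mul]
      rw [← Finset.sum_mul]
      refine mul_le_mul_of_nonneg_right ?_ hδ0.le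
      rw [hK]
      push_cast
      exact Finset.single_le_sum
        (f := fun j => ∑ j', ((f j' j).1.coeff.support.card : ℝ))
        (fun _ _ => Finset.sum_nonneg fun _ _ => Nat.cast_nonneg _) (Finset.mem_univ j)
    have h5 : (K : ℝ) * δ < ε := by
      rw [hδ, mul_div_assoc', div_lt_iff₀ hK0]
      nlinarith
    linarith

end Pool.Agent.Tate.Toe
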