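import Pool.Agent.Lib.Tate.Toe.Spec

/-! # C42, block Toe: proof of `S_Sx` (splitting of the index set) -/

set_option autoImplicit false

open Set Filter Topology

noncomputable section

namespace Pool.Agent.Tate.Toe

open Idx

/-- The inverse of the splitting. -/
private def hSx (M : ℕ) (J : Type) : In M J ⊕ In (M + 1) J → In (M + 1) J :=
  Sum.elim (fun q => (Fin.snoc (α := fun _ => ℕ) q.1 0, q.2)) (fun q => (up1 q.1, q.2))

private theorem hSx_bij (M : ℕ) (J : Type) : Function.Bijective (hSx M J) := by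
  have hne : ∀ (a : Fin M → ℕ) (b : Fin (M + 1) → ℕ),
      Fin.snoc (α := fun _ => ℕ) a 0 ≠ up1 b := by
    intro a b h
    have h2 := congrFun h (Fin.last M)
    rw [Fin.snoc_last] at h2
    simp only [up1, Pi.add_apply, Pi.single_eq_same] at h2
    omega
  constructor
  · rintro (⟨a, j⟩ | ⟨a, j⟩) (⟨b, i⟩ | ⟨b, i⟩) h
    · simp only [hSx, Sum.elim_inl, Prod.mk.injEq] at h
      obtain ⟨h1, h2⟩ := h
      have h3 : a = b := by
        have h4 : Fin.init (α := fun _ => ℕ) (Fin.snoc (α := fun _ => ℕ) a 0) =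
            Fin.init (α := fun _ => ℕ) (Fin.snoc (α := fun _ => ℕ) b 0) := by rw [h1]
        rwa [Fin.init_snoc, Fin.init_snoc] at h4
      rw [h3, h2]
    · simp only [hSx, Sum.elim_inl, Sum.elim_inr, Prod.mk.injEq] at h
      exact absurd h.1 (hne a b)
    · simp only [hSx, Sum.elim_inl, Sum.elim_inr, Prod.mk.injEq] at h
      exact absurd h.1.symm (hne b a)
    · simp only [hSx, Sum.elim_inr, Prod.mk.injEq] at h
      obtain ⟨h1, h2⟩ := h
      have h3 : a = b := by
        unfold up1 at h1
        exact add_right_cancel h1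
      rw [h3, h2]
  · rintro ⟨a, j⟩
    by_cases h0 : a (Fin.last M) = 0
    · refine ⟨Sum.inl (Fin.init (α := fun _ => ℕ) a, j), ?_⟩
      simp only [hSx, Sum.elim_inl, Prod.mk.injEq, and_true]
      conv_lhs => rw [← h0]
      exact Fin.snoc_init_self (α := fun _ => ℕ) a
    · refine ⟨Sum.inr (a - Pi.single (Fin.last M) 1, j), ?_⟩
      simp only [hSx, Sum.elim_inr, Prod.mk.injEq, and_true, up1]
      refine tsub_add_cancel_of_le ?_
      intro i
      by_cases hi : i = Fin.last M
      · subst hi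
        rw [Pi.single_eq_same]
        exact Nat.one_le_iff_ne_zero.2 h0
      · rw [Pi.single_eq_of_ne hi]
        exact Nat.zero_le _

theorem pSx : S_Sx := by
  intro M J
  refine ⟨(Equiv.ofBijective (hSx M J) (hSx_bij M J)).symm, ?_, ?_⟩
  · intro a j
    rw [Equiv.symm_apply_eq]
    rfl
  · intro a j
    rw [Equiv.symm_apply_eq]
    rfl

end Pool.Agent.Tate.Toe
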