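import Pool.Agent.Lib.Tate.Toe.Spec

/-!
# C42 (MP_071d69_gt), block Toe: existence of Toeplitz operators
-/

set_option autoImplicit false

open Set Filter Topology

noncomputable section

namespace Pool.Agent.Tate.Toe

open Idx

namespace To1

variable {ι : Type}

theorem de_self (a : ι) : (de a : ι → ℂ) a = 1 := by
  classical
  unfold de
  exact lp.single_apply_self _ _ _

theorem de_ne {a b : ι} (h : b ≠ a) : (de a : ι → ℂ) b = 0 := by
  classical
  unfold de
  exact lp.single_apply_ne _ _ _ h

theorem norm_de (a : ι) : ‖(de a : H ι)‖ = 1 := by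
  classical
  unfold de
  rw [lp.norm_single one_pos, norm_one]

/-- the value at `q` -/
def val (q : ι) : H ι →+ ℂ where
  toFun x := (x : ι → ℂ) q
  map_zero' := rfl
  map_add' _ _ := rfl

theorem val_de_self (a : ι) : val a (de a) = 1 := de_self a

theorem val_de_ne {a b : ι} (h : b ≠ a) : val b (de a) = 0 := de_ne h

theorem val_smul (q : ι) (c : ℂ) (x : H ι) : val q (c • x) = c * val q x := rfl

end To1

open To1 in
theorem pTo1 (h1 : Idx.S_L1) (h2 : S_Ub) : S_To1 := by
  classical
  intro M J J' _ _ f
  have hC : ∀ (j' : J') (j : J) (k : Fin M → ℤ), ∃ C : ℝ, ∀ a : Fin M → ℕ,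
      ‖(f j' j).1.coeff k (pt a)‖ ≤ C := fun j' j k => (h2 M _ ((f j' j).2.1 k)).1
  choose C hC using hC
  have hC0 : ∀ j' j k, 0 ≤ C j' j k := fun j' j k => (norm_nonneg _).trans (hC j' j k 0)
  set v : In M J → H (In M J') := fun p => ∑ j', ∑ k ∈ (f j' p.2).1.coeff.support,
    if ∀ i, 0 ≤ (p.1 i : ℤ) + k i then
      (f j' p.2).1.coeff k (pt p.1) • de (fun i => ((p.1 i : ℤ) + k i).toNat, j') else 0 with hv
  have hvn : ∀ p, ‖v p‖ ≤ ∑ j, ∑ j', ∑ k ∈ (f j' j).1.coeff.support, C j' j k := by
    intro p
    have e1 : ‖v p‖ ≤ ∑ j', ∑ k ∈ (f j' p.2).1.coeff.support, C j' p.2 k := by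
      simp only [hv]
      refine (norm_sum_le _ _).trans (Finset.sum_le_sum fun j' _ => ?_)
      refine (norm_sum_le _ _).trans (Finset.sum_le_sum fun k _ => ?_)
      split_ifs
      · rw [norm_smul, norm_de, mul_one]
        exact hC j' p.2 k p.1
      · rw [norm_zero]
        exact hC0 j' p.2 k
    refine e1.trans ?_
    exact Finset.single_le_sum (f := fun j => ∑ j', ∑ k ∈ (f j' j).1.coeff.support, C j' j k)
      (fun j _ => Finset.sum_nonneg fun j' _ => Finset.sum_nonneg fun k _ => hC0 j' j k)
      (Finset.mem_univ p.2)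
  obtain ⟨T, -, hT⟩ := h1 (In M J) (H (In M J')) v _
    (Finset.sum_nonneg fun j _ => Finset.sum_nonneg fun j' _ => Finset.sum_nonneg fun k _ =>
      hC0 j' j k) hvn
  refine ⟨T, ?_⟩
  intro a b j j'
  have e0 : (T (de (a, j)) : In M J' → ℂ) (b, j') = val (b, j') (T (de (a, j))) := rfl
  rw [e0, hT]
  simp only [hv]
  rw [map_sum, Finset.sum_eq_single j']
  · rw [map_sum, Finset.sum_eq_single (df b a)]
    · have e1 : ∀ i, (a i : ℤ) + df b a i = b i := fun i => by
        unfold df
        ring
      have e2 : ∀ i, 0 ≤ (a i : ℤ) + df b a i := fun i => by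
        rw [e1]
        exact Int.natCast_nonneg _
      rw [if_pos e2, val_smul]
      have e3 : (fun i => ((a i : ℤ) + df b a i).toNat) = b := by
        funext i
        rw [e1, Int.toNat_natCast]
      rw [e3, val_de_self, mul_one]
    · intro k _ hk
      split_ifs with hn
      · rw [val_smul, val_de_ne, mul_zero]
        intro h
        refine hk (funext fun i => ?_)
        have h4 : b i = ((a i : ℤ) + k i).toNat := congrFun (Prod.ext_iff.1 h).1 i
        have h5 := hn i
        unfold df
        omega
      · exact map_zero _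
    · intro hk
      rw [Finsupp.notMem_support_iff.1 hk]
      split_ifs
      · rw [val_smul]
        simp
      · exact map_zero _
  · intro j'' _ hj
    rw [map_sum]
    refine Finset.sum_eq_zero fun k _ => ?_
    split_ifs with hn
    · rw [val_smul, val_de_ne, mul_zero]
      intro h
      exact hj (Prod.ext_iff.1 h).2.symm
    · exact map_zero _
  · intro h
    exact absurd (Finset.mem_univ j') h

end Pool.Agent.Tate.Toe
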