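import Pool.Agent.Lib.Tate.Toe.Spec

/-!
# C42 (MP_071d69_gt), Toe/To2: uniqueness and linearity of Toeplitz operators (helper77)
-/

set_option autoImplicit false

open Set Filter Topology

noncomputable section

namespace Pool.Agent.Tate.Toe

open Idx

namespace To2Aux

variable {M : ℕ}

theorem df_eq_zero {a b : Fin M → ℕ} : df b a = 0 ↔ b = a := by
  constructor
  · intro h
    funext i
    have h1 := congrFun h i
    unfold df at h1
    rw [Pi.zero_apply] at h1
    omega
  · intro h
    subst h
    funext i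
    unfold df
    rw [Pi.zero_apply]
    omega

theorem coeff_cG_mul (c : ℂ) (f : GS M) (k : Fin M → ℤ) (t : Fin M → ℝ) :
    (cG c * f).1.coeff k t = c * f.1.coeff k t := by
  show ((AddMonoidAlgebra.single 0 (fun _ => c) : RR M) * f.1).coeff k t = _
  rw [AddMonoidAlgebra.coeff_single_zero_mul]
  rfl

theorem coeff_one (k : Fin M → ℤ) (t : Fin M → ℝ) [Decidable (k = 0)] :
    (1 : GS M).1.coeff k t = if k = 0 then 1 else 0 := by
  classical
  show (AddMonoidAlgebra.single 0 1 : RR M).coeff k t = _
  rw [AddMonoidAlgebra.coeff_single, Finsupp.single_apply]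
  by_cases h : k = 0
  · rw [if_pos h.symm, if_pos h]
    rfl
  · rw [if_neg (fun h1 => h h1.symm), if_neg h]
    rfl

theorem coeff_zero (k : Fin M → ℤ) (t : Fin M → ℝ) : (0 : GS M).1.coeff k t = 0 := rfl

theorem de_apply {ι : Type} (p q : ι) [Decidable (q = p)] :
    (de p : H ι) q = if q = p then 1 else 0 := by
  classical
  unfold de
  by_cases h : q = p
  · rw [if_pos h]
    subst h
    rw [lp.single_apply_self]
  · rw [if_neg h, lp.single_apply_ne]
    exact h

end To2Aux

open To2Aux in
theorem pTo2 (h1 : Idx.S_L2) : S_To2 := by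
  classical
  intro M J J' _ _ _
  refine ⟨?_, ?_, ?_, ?_⟩
  · intro f T T' hT hT'
    refine (h1 (In M J) (H (In M J'))).2.2 T T' ?_
    rintro ⟨a, j⟩
    refine lp.ext (funext ?_)
    rintro ⟨b, j'⟩
    exact (hT a b j j').trans (hT' a b j j').symm
  · intro f g T T' hT hT' a b j j'
    show (T (de (a, j)) : In M J' → ℂ) (b, j') + (T' (de (a, j)) : In M J' → ℂ) (b, j') = _
    rw [hT a b j j', hT' a b j j']
    rfl
  · intro c f T hT a b j j'
    show c * (T (de (a, j)) : In M J' → ℂ) (b, j') = _
    rw [hT a b j j']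
    exact (coeff_cG_mul c (f j' j) (df b a) (pt a)).symm
  · intro a b j j'
    show (de (a, j) : In M J → ℂ) (b, j') = _
    rw [de_apply, Matrix.one_apply]
    by_cases hj : j' = j
    · subst hj
      rw [if_pos rfl, coeff_one]
      by_cases hb : b = a
      · rw [if_pos (df_eq_zero.2 hb), if_pos (by rw [hb])]
      · rw [if_neg (fun h => hb (df_eq_zero.1 h)), if_neg]
        intro h
        exact hb (Prod.ext_iff.1 h).1
    · rw [if_neg hj, if_neg, coeff_zero]
      intro h
      exact hj (Prod.ext_iff.1 h).2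

end Pool.Agent.Tate.Toe
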