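import Pool.Agent.Lib.Tate.Toe.Spec

/-!
# C42 (MP_071d69_gt), block Toe: products of Toeplitz operators
-/

set_option autoImplicit false

open Set Filter Topology

noncomputable section

namespace Pool.Agent.Tate.Toe

open Idx

namespace To3

section

variable {M : ℕ} {J J' J'' : Type} [Fintype J] [DecidableEq J] [Fintype J'] [DecidableEq J']
  [Fintype J''] [DecidableEq J'']

/-- the statement for two symbols -/
def Pd (f : Matrix J'' J' (GS M)) (g : Matrix J' J (GS M)) : Prop :=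
  ∀ (T₁ : H (In M J') →L[ℂ] H (In M J'')) (T₂ : H (In M J) →L[ℂ] H (In M J'))
    (T₃ : H (In M J) →L[ℂ] H (In M J'')),
  IsTo f T₁ → IsTo g T₂ → IsTo (f * g) T₃ → Col0 (T₁ ∘L T₂ - T₃)

theorem isTo_zero {J J' : Type} :
    IsTo (0 : Matrix J' J (GS M)) (0 : H (In M J) →L[ℂ] H (In M J')) :=
  fun _ _ _ _ => rfl

theorem col0_zero {ι E : Type} [NormedAddCommGroup E] [NormedSpace ℂ E] :
    Col0 (0 : H ι →L[ℂ] E) := by
  intro ε hε
  have h : {p : ι | ε < ‖(0 : H ι →L[ℂ] E) (de p)‖} = ∅ := by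
    ext p
    simp only [mem_empty_iff_false, iff_false]
    intro hp
    have hp' : ε < ‖(0 : E)‖ := hp
    rw [norm_zero] at hp'
    exact absurd hp' (not_lt.2 (le_of_lt hε))
  rw [h]
  exact finite_empty

omit [DecidableEq J''] in
theorem zeroL (h2 : S_To2) (g : Matrix J' J (GS M)) : Pd (0 : Matrix J'' J' (GS M)) g := by
  intro T₁ T₂ T₃ k1 k2 k3
  rw [Matrix.zero_mul] at k3
  rw [(h2 M J' J'').1 _ _ _ k1 isTo_zero, (h2 M J J'').1 _ _ _ k3 isTo_zero,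
    ContinuousLinearMap.zero_comp, sub_zero]
  exact col0_zero

omit [DecidableEq J''] in
theorem zeroR (h2 : S_To2) (f : Matrix J'' J' (GS M)) : Pd f (0 : Matrix J' J (GS M)) := by
  intro T₁ T₂ T₃ k1 k2 k3
  rw [Matrix.mul_zero] at k3
  rw [(h2 M J J').1 _ _ _ k2 isTo_zero, (h2 M J J'').1 _ _ _ k3 isTo_zero,
    ContinuousLinearMap.comp_zero, sub_zero]
  exact col0_zero

omit [DecidableEq J''] in
theorem addL (h1 : S_To1) (h2 : S_To2) (h3 : S_C0) {f₁ f₂ : Matrix J'' J' (GS M)}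
    {g : Matrix J' J (GS M)} (H1 : Pd f₁ g) (H2 : Pd f₂ g) : Pd (f₁ + f₂) g := by
  intro T₁ T₂ T₃ k1 k2 k3
  obtain ⟨A₁, hA₁⟩ := h1 M J' J'' f₁
  obtain ⟨A₂, hA₂⟩ := h1 M J' J'' f₂
  obtain ⟨B₁, hB₁⟩ := h1 M J J'' (f₁ * g)
  obtain ⟨B₂, hB₂⟩ := h1 M J J'' (f₂ * g)
  rw [Matrix.add_mul] at k3
  have e1 : T₁ = A₁ + A₂ := (h2 M J' J'').1 _ _ _ k1 ((h2 M J' J'').2.1 _ _ _ _ hA₁ hA₂)
  have e2 : T₃ = B₁ + B₂ := (h2 M J J'').1 _ _ _ k3 ((h2 M J J'').2.1 _ _ _ _ hB₁ hB₂)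
  have e3 : T₁ ∘L T₂ - T₃ = (A₁ ∘L T₂ - B₁) + (A₂ ∘L T₂ - B₂) := by
    rw [e1, e2, ContinuousLinearMap.add_comp]
    abel
  rw [e3]
  exact (h3 (In M J) (H (In M J'')) (H (In M J''))).1 _ _ (H1 _ _ _ hA₁ k2 hB₁)
    (H2 _ _ _ hA₂ k2 hB₂)

omit [DecidableEq J''] in
theorem addR (h1 : S_To1) (h2 : S_To2) (h3 : S_C0) {f : Matrix J'' J' (GS M)}
    {g₁ g₂ : Matrix J' J (GS M)} (H1 : Pd f g₁) (H2 : Pd f g₂) : Pd f (g₁ + g₂) := by
  intro T₁ T₂ T₃ k1 k2 k3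
  obtain ⟨A₁, hA₁⟩ := h1 M J J' g₁
  obtain ⟨A₂, hA₂⟩ := h1 M J J' g₂
  obtain ⟨B₁, hB₁⟩ := h1 M J J'' (f * g₁)
  obtain ⟨B₂, hB₂⟩ := h1 M J J'' (f * g₂)
  rw [Matrix.mul_add] at k3
  have e1 : T₂ = A₁ + A₂ := (h2 M J J').1 _ _ _ k2 ((h2 M J J').2.1 _ _ _ _ hA₁ hA₂)
  have e2 : T₃ = B₁ + B₂ := (h2 M J J'').1 _ _ _ k3 ((h2 M J J'').2.1 _ _ _ _ hB₁ hB₂)
  have e3 : T₁ ∘L T₂ - T₃ = (T₁ ∘L A₁ - B₁) + (T₁ ∘L A₂ - B₂) := by
    rw [e1, e2, ContinuousLinearMap.comp_add]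
    abel
  rw [e3]
  exact (h3 (In M J) (H (In M J'')) (H (In M J''))).1 _ _ (H1 _ _ _ k1 hA₁ hB₁)
    (H2 _ _ _ k1 hA₂ hB₂)

omit [DecidableEq J''] in
theorem sumL (h1 : S_To1) (h2 : S_To2) (h3 : S_C0) {ι : Type} (s : Finset ι)
    (F : ι → Matrix J'' J' (GS M)) (g : Matrix J' J (GS M)) (hF : ∀ i ∈ s, Pd (F i) g) :
    Pd (∑ i ∈ s, F i) g := by
  classical
  induction s using Finset.induction_on with
  | empty =>
    rw [Finset.sum_empty]
    exact zeroL h2 g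
  | insert a s ha ih =>
    rw [Finset.sum_insert ha]
    exact addL h1 h2 h3 (hF a (Finset.mem_insert_self a s))
      (ih fun i hi => hF i (Finset.mem_insert_of_mem hi))

omit [DecidableEq J''] in
theorem sumR (h1 : S_To1) (h2 : S_To2) (h3 : S_C0) {ι : Type} (s : Finset ι)
    (f : Matrix J'' J' (GS M)) (F : ι → Matrix J' J (GS M)) (hF : ∀ i ∈ s, Pd f (F i)) :
    Pd f (∑ i ∈ s, F i) := by
  classical
  induction s using Finset.induction_on with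
  | empty =>
    rw [Finset.sum_empty]
    exact zeroR h2 f
  | insert a s ha ih =>
    rw [Finset.sum_insert ha]
    exact addR h1 h2 h3 (hF a (Finset.mem_insert_self a s))
      (ih fun i hi => hF i (Finset.mem_insert_of_mem hi))

/-- the monomials of a good symbol -/
def mono (u : GS M) (k : Fin M → ℤ) : GS M :=
  ⟨AddMonoidAlgebra.single k (u.1.coeff k), Gd.single (u.2.1 k) fun t j h h' => u.2.2 k t j h h'⟩

theorem sum_mono (u : GS M) : u = ∑ k ∈ u.1.coeff.support, mono u k := by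
  classical
  refine Subtype.ext ?_
  have e1 : ((∑ k ∈ u.1.coeff.support, mono u k : GS M) : RR M) =
      ∑ k ∈ u.1.coeff.support, (mono u k : RR M) := map_sum (GS M).subtype _ _
  rw [e1]
  apply AddMonoidAlgebra.coeff_injective
  rw [AddMonoidAlgebra.coeff_sum]
  have e2 : ∀ k ∈ u.1.coeff.support, (mono u k : RR M).coeff = Finsupp.single k (u.1.coeff k) :=
    fun k _ => AddMonoidAlgebra.coeff_single _ _
  rw [Finset.sum_congr rfl e2]
  exact (Finsupp.sum_single u.1.coeff).symm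

theorem single_sum {m n : Type} [DecidableEq m] [DecidableEq n] {ι : Type} (s : Finset ι) (i : m)
    (j : n) (x : ι → GS M) :
    Matrix.single i j (∑ k ∈ s, x k) = ∑ k ∈ s, Matrix.single i j (x k) := by
  classical
  induction s using Finset.induction_on with
  | empty => rw [Finset.sum_empty, Finset.sum_empty, Matrix.single_zero]
  | insert a s ha ih => rw [Finset.sum_insert ha, Finset.sum_insert ha, Matrix.single_add, ih]

/-- the decomposition of a matrix symbol -/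
theorem decomp {m n : Type} [Fintype m] [DecidableEq m] [Fintype n] [DecidableEq n]
    (f : Matrix m n (GS M)) :
    f = ∑ i, ∑ j, ∑ k ∈ (f i j).1.coeff.support, Matrix.single i j (mono (f i j) k) := by
  have e1 : ∀ i j, ∑ k ∈ (f i j).1.coeff.support, Matrix.single i j (mono (f i j) k) =
      Matrix.single i j (f i j) := by
    intro i j
    rw [← single_sum, ← sum_mono]
  simp_rw [e1]
  exact Matrix.matrix_eq_sum_single f

end

end To3

open To3 in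
theorem pTo3 (h1 : S_To1) (h2 : S_To2) (h3 : S_C0) (h4 : S_El) : S_To3 := by
  intro M J J' J'' _ _ _ _ _ _ f g
  have hf := decomp f
  have hg := decomp g
  suffices h : Pd f g from h
  rw [hf]
  refine sumL h1 h2 h3 _ _ _ fun j₁ _ => sumL h1 h2 h3 _ _ _ fun j₂ _ =>
    sumL h1 h2 h3 _ _ _ fun k _ => ?_
  rw [hg]
  refine sumR h1 h2 h3 _ _ _ fun i₁ _ => sumR h1 h2 h3 _ _ _ fun i₂ _ =>
    sumR h1 h2 h3 _ _ _ fun l _ => ?_
  intro T₁ T₂ T₃ k1 k2 k3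
  exact h4 M J J' J'' j₁ j₂ i₁ i₂ (mono (f j₁ j₂) k) (mono (g i₁ i₂) l) k l _ _ rfl rfl T₁ T₂ T₃
    k1 k2 k3

end Pool.Agent.Tate.Toe
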