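import Pool.Agent.Lib.Tate.Toe.Spec

/-!
# C42 (MP_071d69_gt), block Toe, statement To5: equivariance
-/

set_option autoImplicit false

open Set Filter Topology

noncomputable section

namespace Pool.Agent.Tate.Toe

open Idx

namespace To5M

/-- the coordinates -/
private def cor {ι : Type} (q : ι) : H ι →L[ℂ] ℂ := lp.evalCLM ℂ (fun _ : ι => ℂ) 1 q

private theorem cor_apply {ι : Type} (q : ι) (x : H ι) : cor q x = (x : ι → ℂ) q := rfl

open Classical in
/-- a diagonal operator acts on the coordinates -/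
private theorem diag {ι : Type} (h1 : Idx.S_L2) (c : ι → ℂ) (g : H ι →L[ℂ] H ι)
    (hg : ∀ p, g (de p) = c p • de p) (x : H ι) (q : ι) :
    (g x : ι → ℂ) q = c q * (x : ι → ℂ) q := by
  have h2 : (cor q) ∘L g = c q • cor q := by
    refine (h1 ι ℂ).2.2 _ _ fun p => ?_
    rw [ContinuousLinearMap.comp_apply, hg, map_smul, smul_apply]
    rw [smul_eq_mul, smul_eq_mul]
    by_cases hpq : p = q
    · rw [hpq]
    · have h3 : cor q (de p) = 0 := by
        rw [cor_apply, de, lp.single_apply]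
        exact Pi.single_eq_of_ne (Ne.symm hpq) _
      rw [h3, mul_zero, mul_zero]
  have h3 := congrArg (fun A : H ι →L[ℂ] ℂ => A x) h2
  exact h3

end To5M

open To5M in
theorem pTo5 (h1 : Idx.S_L2) : S_To5 := by
  intro M J J' _ _ ζ χ χ' f T g g' hζ hE hT hg hg'
  refine (h1 (In M J) (H (In M J'))).2.2 _ _ fun p => ?_
  obtain ⟨a, j⟩ := p
  rw [ContinuousLinearMap.comp_apply, ContinuousLinearMap.comp_apply, hg, map_smul]
  ext q
  obtain ⟨b, j'⟩ := q
  rw [diag h1 (chr ζ χ') g' hg']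
  show chr ζ χ (a, j) * (T (de (a, j)) : In M J' → ℂ) (b, j') = _
  rw [hT]
  by_cases hc : (f j' j).1.coeff (df b a) (pt a) = 0
  · rw [hc, mul_zero, mul_zero]
  · have h2 : (f j' j).1.coeff (df b a) ≠ 0 := fun h => hc (by rw [h]; rfl)
    have h3 := hE j' j (df b a) h2
    congr 1
    show (∏ i, ζ i ^ a i) * χ j = (∏ i, ζ i ^ b i) * χ' j'
    rw [← h3, ← mul_assoc, ← Finset.prod_mul_distrib]
    congr 1
    refine Finset.prod_congr rfl fun i _ => ?_
    rw [← zpow_natCast, ← zpow_natCast, ← zpow_add₀ (hζ i)]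
    congr 1
    show (a i : ℤ) + ((b i : ℤ) - a i) = b i
    ring

end Pool.Agent.Tate.Toe
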