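import Pool.Agent.Lib.Tate.Toe.Spec

/-!
# C42 (MP_071d69_gt), Toe/Ub (helper33)
-/

set_option autoImplicit false

open Set Filter Topology

noncomputable section

namespace Pool.Agent.Tate.Toe

open Idx

namespace Ubaux

theorem pt_mem {M : ℕ} {a : Fin M → ℕ} (h : 0 < ∑ i, a i) : pt a ∈ stdSimplex ℝ (Fin M) := by
  refine ⟨fun i => ?_, ?_⟩
  · unfold pt
    positivity
  · unfold pt
    rw [← Finset.sum_div, ← Nat.cast_sum]
    exact div_self (by exact_mod_cast h.ne')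

theorem bdd {M : ℕ} {c : (Fin M → ℝ) → ℂ} (hc : ContinuousOn c (stdSimplex ℝ (Fin M))) :
    ∃ C : ℝ, ∀ a : Fin M → ℕ, ‖c (pt a)‖ ≤ C := by
  obtain ⟨C, hC⟩ := (isCompact_stdSimplex ℝ (Fin M)).exists_bound_of_continuousOn hc
  refine ⟨max C ‖c (pt 0)‖, fun a => ?_⟩
  rcases Nat.eq_zero_or_pos (∑ i, a i) with h | h
  · have : a = 0 := by
      funext i
      exact (Finset.sum_eq_zero_iff.1 h) i (Finset.mem_univ i)
    rw [this]
    exact le_max_right _ _
  · exact (hC _ (pt_mem h)).trans (le_max_left _ _)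

/-- The distance of the points. -/
theorem dist_pt {M : ℕ} (l : Fin M → ℤ) (a b : Fin M → ℕ) (h : df b a = l)
    (hN : ∑ i, (l i).natAbs < ∑ i, a i) : 0 < ∑ i, b i ∧ ∀ j, dist (pt b j) (pt a j) ≤
      2 * ((∑ i, (l i).natAbs : ℕ) : ℝ) / (((∑ i, a i : ℕ) : ℝ) - ((∑ i, (l i).natAbs : ℕ) : ℝ)) := by
  set Λ : ℕ := ∑ i, (l i).natAbs with hΛ
  set A : ℕ := ∑ i, a i with hA
  set B : ℕ := ∑ i, b i with hB
  have hb : ∀ i, (b i : ℤ) = a i + l i := by
    intro i
    rw [← h]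
    unfold df
    ring
  have hsum : (B : ℤ) = A + ∑ i, l i := by
    rw [hB, hA]
    push_cast
    rw [Finset.sum_congr rfl fun i _ => hb i, Finset.sum_add_distrib]
  have habs : |∑ i, l i| ≤ (Λ : ℤ) := by
    refine (Finset.abs_sum_le_sum_abs _ _).trans ?_
    rw [hΛ]
    push_cast
    exact le_of_eq (Finset.sum_congr rfl fun i _ => by simp)
  have hBA : (A : ℤ) - Λ ≤ B := by
    have := (abs_le.1 habs).1
    omega
  have hBpos : 0 < B := by omega
  refine ⟨hBpos, fun j => ?_⟩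
  have hA0 : (0 : ℝ) < A := by
    have : 0 < A := by omega
    exact_mod_cast this
  have hB0 : (0 : ℝ) < B := by exact_mod_cast hBpos
  have hd0 : (0 : ℝ) < (A : ℝ) - Λ := by
    have : (Λ : ℝ) < A := by exact_mod_cast hN
    linarith
  have hBA' : (A : ℝ) - Λ ≤ B := by exact_mod_cast hBA
  have haj : (a j : ℝ) ≤ A := by
    have : a j ≤ A := Finset.single_le_sum (f := a) (fun i _ => Nat.zero_le _) (Finset.mem_univ j)
    exact_mod_cast this
  have hlj : |(l j : ℝ)| ≤ Λ := by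
    have h1 : (l j).natAbs ≤ Λ :=
      Finset.single_le_sum (f := fun i => (l i).natAbs) (fun i _ => Nat.zero_le _)
        (Finset.mem_univ j)
    have h2 : |(l j : ℝ)| = ((l j).natAbs : ℝ) := by
      rw [Nat.cast_natAbs]
      push_cast
      rfl
    rw [h2]
    exact_mod_cast h1
  have hAB : |(A : ℝ) - B| ≤ Λ := by
    have h1 : |(A : ℤ) - B| ≤ (Λ : ℤ) := by
      rw [hsum]
      rw [show (A : ℤ) - (A + ∑ i, l i) = -∑ i, l i by ring, abs_neg]
      exact habs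
    exact_mod_cast h1
  have hbj : (b j : ℝ) = a j + l j := by exact_mod_cast hb j
  have e : pt b j - pt a j = (l j * A + a j * (A - B)) / (A * B) := by
    unfold pt
    rw [← hA, ← hB, hbj]
    field_simp
    ring
  rw [Real.dist_eq, e, abs_div, abs_of_pos (mul_pos hA0 hB0)]
  have h1 : |(l j : ℝ) * A + a j * (A - B)| ≤ 2 * Λ * A := by
    refine (abs_add_le _ _).trans ?_
    rw [abs_mul, abs_mul, abs_of_pos hA0, abs_of_nonneg (Nat.cast_nonneg (a j) : (0 : ℝ) ≤ a j)]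
    have h2 : |(l j : ℝ)| * A ≤ Λ * A := mul_le_mul_of_nonneg_right hlj hA0.le
    have h3 : (a j : ℝ) * |(A : ℝ) - B| ≤ A * Λ :=
      mul_le_mul haj hAB (abs_nonneg _) hA0.le
    linarith
  calc |(l j : ℝ) * A + a j * (A - B)| / (A * B) ≤ 2 * Λ * A / (A * B) :=
        div_le_div_of_nonneg_right h1 (mul_pos hA0 hB0).le
    _ = 2 * Λ / B := by
        field_simp
    _ ≤ 2 * Λ / (A - Λ) := by
        refine div_le_div_of_nonneg_left (by positivity) hd0 hBA'

theorem unif {M : ℕ} {c : (Fin M → ℝ) → ℂ} (hc : ContinuousOn c (stdSimplex ℝ (Fin M)))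
    (l : Fin M → ℤ) {ε : ℝ} (hε : 0 < ε) : ∃ N : ℕ, ∀ a b : Fin M → ℕ, N ≤ ∑ i, a i →
      df b a = l → ‖c (pt b) - c (pt a)‖ ≤ ε := by
  have hu := (isCompact_stdSimplex ℝ (Fin M)).uniformContinuousOn_of_continuous hc
  rw [Metric.uniformContinuousOn_iff] at hu
  obtain ⟨δ, hδ, hu⟩ := hu ε hε
  obtain ⟨n, hn⟩ := exists_nat_gt (2 * ((∑ i, (l i).natAbs : ℕ) : ℝ) / δ)
  refine ⟨∑ i, (l i).natAbs + n + 1, fun a b hN hl => ?_⟩
  obtain ⟨h1, h2⟩ := dist_pt l a b hl (by omega)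
  rw [← dist_eq_norm]
  refine (hu _ (pt_mem h1) _ (pt_mem (by omega)) ?_).le
  rw [dist_pi_lt_iff hδ]
  intro j
  refine (h2 j).trans_lt ?_
  have h3 : (n : ℝ) + 1 ≤ ((∑ i, a i : ℕ) : ℝ) - ((∑ i, (l i).natAbs : ℕ) : ℝ) := by
    have : ((∑ i, (l i).natAbs + n + 1 : ℕ) : ℝ) ≤ ((∑ i, a i : ℕ) : ℝ) := by exact_mod_cast hN
    push_cast at this ⊢
    linarith
  have hn0 : (0 : ℝ) ≤ n := Nat.cast_nonneg n
  rw [div_lt_iff₀ (by linarith)]
  rw [div_lt_iff₀ hδ] at hn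
  nlinarith

end Ubaux

open Ubaux in
theorem pUb : S_Ub := by
  intro M c hc
  refine ⟨bdd hc, fun l ε hε => unif hc l hε, fun j hj L ε hε => ?_⟩
  choose N hN using fun m : ℕ => unif hc (-Pi.single j (m : ℤ)) hε
  refine ⟨∑ m ∈ Finset.range (L + 1), N m, fun a ha haj => ?_⟩
  have h1 : N (a j) ≤ ∑ m ∈ Finset.range (L + 1), N m :=
    Finset.single_le_sum (f := N) (fun i _ => Nat.zero_le _)
      (Finset.mem_range.2 (Nat.lt_succ_of_le haj))
  have h2 := hN (a j) a (Function.update a j 0) (h1.trans ha) (by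
    funext i
    unfold df
    by_cases hi : i = j
    · subst hi
      simp
    · simp [Function.update_of_ne hi, Pi.single_eq_of_ne hi])
  have h3 : c (pt (Function.update a j 0)) = 0 := by
    apply hj
    unfold pt
    simp
  rw [h3, zero_sub, norm_neg] at h2
  exact h2

end Pool.Agent.Tate.Toe
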