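import Pool.Agent.Lib.Tate.Toe.Spec

/-!
# C42, block Toe: Stone-Weierstrass (helper66)
-/

set_option autoImplicit false

open Set Filter Topology

noncomputable section

namespace Pool.Agent.Tate.Toe

open Idx

theorem Ap_compact (M : ℕ) : IsCompact (Sp M) := by
  have hcl : IsClosed (Sp M) := isClosed_eq (by fun_prop) continuous_const
  have hb : IsCompact (Set.univ.pi fun _ : Fin M => Metric.closedBall (0 : ℂ) 1) :=
    isCompact_univ_pi fun _ => isCompact_closedBall _ _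
  refine hb.of_isClosed_subset hcl ?_
  intro z hz i _
  rw [mem_closedBall_zero_iff]
  have h1 : ‖z i‖ ^ 2 ≤ 1 := by
    have h2 : ∑ j, ‖z j‖ ^ 2 = 1 := hz
    rw [← h2]
    exact Finset.single_le_sum (f := fun j => ‖z j‖ ^ 2) (fun _ _ => by positivity)
      (Finset.mem_univ i)
  nlinarith [norm_nonneg (z i)]

/-- The functions given by symbols. -/
def ApA (h1 : S_Cj) (M : ℕ) : StarSubalgebra ℂ C(Sp M, ℂ) where
  carrier := {g | ∃ f : GS M, ∀ z : Sp M, g z = ev z.1 f}
  mul_mem' := by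
    rintro a b ⟨f, hf⟩ ⟨g, hg⟩
    exact ⟨f * g, fun z => by rw [map_mul, ← hf, ← hg]; rfl⟩
  add_mem' := by
    rintro a b ⟨f, hf⟩ ⟨g, hg⟩
    exact ⟨f + g, fun z => by rw [map_add, ← hf, ← hg]; rfl⟩
  algebraMap_mem' := by
    intro c
    exact ⟨cG c, fun z => by rw [ev_cG]; rfl⟩
  star_mem' := by
    rintro a ⟨f, hf⟩
    obtain ⟨f', hf'⟩ := h1 M f
    exact ⟨f', fun z => by rw [hf', ← hf]; rfl⟩

theorem pAp (h1 : S_Cj) (h2 : S_Ec) : S_Ap := by
  classical
  intro M J _ F hF ε hε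
  haveI : CompactSpace (Sp M) := isCompact_iff_compactSpace.1 (Ap_compact M)
  have hsep : (ApA h1 M).SeparatesPoints := by
    intro x y hxy
    have : ∃ j, x.1 j ≠ y.1 j := by
      by_contra hn
      push Not at hn
      exact hxy (Subtype.ext (funext hn))
    obtain ⟨j, hj⟩ := this
    refine ⟨fun z : Sp M => ev z.1 (Zs j), ⟨⟨fun z : Sp M => ev z.1 (Zs j), ?_⟩, ⟨Zs j, fun z => rfl⟩,
      rfl⟩, ?_⟩
    · exact continuousOn_iff_continuous_restrict.1 (h2 M (Zs j))
    · show ev x.1 (Zs j) ≠ ev y.1 (Zs j)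
      rw [ev_Zs, ev_Zs]
      exact hj
  have htop := ContinuousMap.starSubalgebra_topologicalClosure_eq_top_of_separatesPoints _ hsep
  have key : ∀ i j, ∃ f : GS M, ∀ z ∈ Sp M, ‖ev z f - F z i j‖ ≤ ε := by
    intro i j
    have hc : Continuous fun z : Sp M => F z.1 i j := by
      have h := continuousOn_iff_continuous_restrict.1 hF
      exact (continuous_apply_apply i j).comp h
    have hm : (⟨fun z : Sp M => F z.1 i j, hc⟩ : C(Sp M, ℂ)) ∈
        (ApA h1 M).topologicalClosure := by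
      rw [htop]
      trivial
    have hm' : (⟨fun z : Sp M => F z.1 i j, hc⟩ : C(Sp M, ℂ)) ∈
        closure ((ApA h1 M : StarSubalgebra ℂ C(Sp M, ℂ)) : Set C(Sp M, ℂ)) := hm
    obtain ⟨g, ⟨f, hf⟩, hg⟩ := Metric.mem_closure_iff.1 hm' ε hε
    refine ⟨f, fun z hz => ?_⟩
    have h3 := (ContinuousMap.dist_lt_iff hε).1 hg ⟨z, hz⟩
    rw [hf] at h3
    rw [← dist_eq_norm, dist_comm]
    exact h3.le
  choose f hf using key
  exact ⟨fun i j => f i j, fun z hz i j => hf i j z hz⟩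

end Pool.Agent.Tate.Toe
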