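import Pool.Agent.Lib.Tate.Idx.Spec

/-!
# C42 (MP_071d69_gt), T7 (Det), block Toe (helper35): symbols

A symbol in `M` variables is a finite Laurent polynomial `∑ c_k(t) e^{i k θ}`, `k ∈ ℤ^M`, whose coefficients
are functions of `t ∈ ℝ^M`, continuous on the simplex, with `c_k(t) = 0` if `t_j = 0`, `k_j ≠ 0` for some `j`.
It defines the function `ev f z` on the sphere: `t_j = |z_j|²`, `e^{i θ_j} = z_j / |z_j|`.
-/

set_option autoImplicit false

open Set Filter Topology

noncomputable section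

namespace Pool.Agent.Tate.Toe

open Idx

/-- Laurent polynomials in `M` variables, the coefficients are functions on `ℝ^M`. -/
abbrev RR (M : ℕ) : Type := AddMonoidAlgebra ((Fin M → ℝ) → ℂ) (Fin M → ℤ)

/-- Good symbols. -/
def Gd {M : ℕ} (f : RR M) : Prop :=
  (∀ k, ContinuousOn (f.coeff k) (stdSimplex ℝ (Fin M))) ∧
    ∀ (k : Fin M → ℤ) (t : Fin M → ℝ) (j : Fin M), t j = 0 → k j ≠ 0 → f.coeff k t = 0

theorem Gd.add {M : ℕ} {f g : RR M} (hf : Gd f) (hg : Gd g) : Gd (f + g) := by
  refine ⟨fun k => ?_, fun k t j h h' => ?_⟩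
  · exact (hf.1 k).add (hg.1 k)
  · show f.coeff k t + g.coeff k t = 0
    rw [hf.2 k t j h h', hg.2 k t j h h', add_zero]

theorem Gd.zero {M : ℕ} : Gd (0 : RR M) :=
  ⟨fun _ => continuousOn_const, fun _ _ _ _ _ => rfl⟩

theorem Gd.sum {M : ℕ} {ι : Type} (s : Finset ι) (f : ι → RR M) (h : ∀ i ∈ s, Gd (f i)) :
    Gd (∑ i ∈ s, f i) := by
  classical
  induction s using Finset.induction_on with
  | empty => simpa using Gd.zero
  | insert a s ha ih =>
    rw [Finset.sum_insert ha]
    exact (h a (Finset.mem_insert_self a s)).add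
      (ih fun i hi => h i (Finset.mem_insert_of_mem hi))

/-- A monomial is good. -/
theorem Gd.single {M : ℕ} {k : Fin M → ℤ} {c : (Fin M → ℝ) → ℂ}
    (h1 : ContinuousOn c (stdSimplex ℝ (Fin M)))
    (h2 : ∀ (t : Fin M → ℝ) (j : Fin M), t j = 0 → k j ≠ 0 → c t = 0) :
    Gd (AddMonoidAlgebra.single k c : RR M) := by
  classical
  refine ⟨fun l => ?_, fun l t j h h' => ?_⟩
  · rw [AddMonoidAlgebra.coeff_single, Finsupp.single_apply]
    split_ifs
    · exact h1
    · exact continuousOn_const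
  · rw [AddMonoidAlgebra.coeff_single, Finsupp.single_apply]
    split_ifs with hl
    · subst hl
      exact h2 t j h h'
    · rfl

theorem Gd.mul {M : ℕ} {f g : RR M} (hf : Gd f) (hg : Gd g) : Gd (f * g) := by
  classical
  rw [AddMonoidAlgebra.mul_def, Finsupp.sum]
  refine Gd.sum _ _ fun k _ => ?_
  rw [Finsupp.sum]
  refine Gd.sum _ _ fun l _ => ?_
  refine Gd.single ((hf.1 k).mul (hg.1 l)) fun t j h h' => ?_
  show f.coeff k t * g.coeff l t = 0
  by_cases hk : k j = 0
  · have hl : l j ≠ 0 := by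
      intro hl
      exact h' (by simp [hk, hl])
    rw [hg.2 l t j h hl, mul_zero]
  · rw [hf.2 k t j h hk, zero_mul]

/-- The constant symbol. -/
def cst {M : ℕ} (c : ℂ) : RR M := AddMonoidAlgebra.single 0 fun _ => c

theorem Gd.cst {M : ℕ} (c : ℂ) : Gd (cst c : RR M) :=
  Gd.single continuousOn_const fun _ _ _ h' => absurd rfl h'

theorem cst_one {M : ℕ} : (cst 1 : RR M) = 1 := rfl

/-- The ring of good symbols. -/
def GS (M : ℕ) : Subring (RR M) where
  carrier := {f | Gd f}
  mul_mem' := Gd.mul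
  add_mem' := Gd.add
  one_mem' := Gd.cst 1
  zero_mem' := Gd.zero
  neg_mem' := by
    intro f hf
    refine ⟨fun k => ?_, fun k t j h h' => ?_⟩
    · show ContinuousOn (-(f.coeff k)) _
      exact (hf.1 k).neg
    · show -(f.coeff k t) = 0
      rw [hf.2 k t j h h', neg_zero]

/-- `e^{i k θ}` for `z_j = |z_j| e^{i θ_j}` (with `0 / 0 = 0`). -/
def ph {M : ℕ} (k : Fin M → ℤ) (z : Fin M → ℂ) : ℂ := ∏ j, (z j / (‖z j‖ : ℂ)) ^ (k j)

/-- The function given by a symbol, additive form. -/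
def evA {M : ℕ} (z : Fin M → ℂ) (f : RR M) : ℂ :=
  f.coeff.sum fun k c => ph k z * c fun j => ‖z j‖ ^ 2

theorem evA_add {M : ℕ} (z : Fin M → ℂ) (f g : RR M) : evA z (f + g) = evA z f + evA z g := by
  classical
  unfold evA
  rw [AddMonoidAlgebra.coeff_add, Finsupp.sum_add_index']
  · intro k
    simp
  · intro k c c'
    rw [Pi.add_apply, mul_add]

theorem evA_zero {M : ℕ} (z : Fin M → ℂ) : evA z (0 : RR M) = 0 := by
  unfold evA
  simp

theorem evA_single {M : ℕ} (z : Fin M → ℂ) (k : Fin M → ℤ) (c : (Fin M → ℝ) → ℂ) :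
    evA z (AddMonoidAlgebra.single k c : RR M) = ph k z * c fun j => ‖z j‖ ^ 2 := by
  unfold evA
  rw [AddMonoidAlgebra.coeff_single, Finsupp.sum_single_index]
  simp

theorem evA_sum {M : ℕ} {ι : Type} (z : Fin M → ℂ) (s : Finset ι) (f : ι → RR M) :
    evA z (∑ i ∈ s, f i) = ∑ i ∈ s, evA z (f i) := by
  classical
  induction s using Finset.induction_on with
  | empty => simpa using evA_zero z
  | insert a s ha ih => rw [Finset.sum_insert ha, Finset.sum_insert ha, evA_add, ih]

/-- Multiplicativity on monomials. -/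
theorem ph_mul {M : ℕ} (z : Fin M → ℂ) (k l : Fin M → ℤ) (x y : ℂ)
    (hx : ∀ j, z j = 0 → k j ≠ 0 → x = 0) (hy : ∀ j, z j = 0 → l j ≠ 0 → y = 0) :
    ph (k + l) z * (x * y) = (ph k z * x) * (ph l z * y) := by
  by_cases hx0 : x = 0
  · simp [hx0]
  by_cases hy0 : y = 0
  · simp [hy0]
  have : ph (k + l) z = ph k z * ph l z := by
    unfold ph
    rw [← Finset.prod_mul_distrib]
    refine Finset.prod_congr rfl fun j _ => ?_
    by_cases hz : z j = 0
    · have hk : k j = 0 := by
        by_contra h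
        exact hx0 (hx j hz h)
      have hl : l j = 0 := by
        by_contra h
        exact hy0 (hy j hz h)
      simp [hk, hl]
    · rw [Pi.add_apply, zpow_add₀]
      exact div_ne_zero hz (by simpa using hz)
  rw [this]
  ring

theorem evA_mul {M : ℕ} (z : Fin M → ℂ) {f g : RR M} (hf : Gd f) (hg : Gd g) :
    evA z (f * g) = evA z f * evA z g := by
  classical
  rw [AddMonoidAlgebra.mul_def, Finsupp.sum, evA_sum]
  conv_rhs => rw [evA, evA, Finsupp.sum, Finsupp.sum, Finset.sum_mul_sum]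
  refine Finset.sum_congr rfl fun k _ => ?_
  rw [Finsupp.sum, evA_sum]
  refine Finset.sum_congr rfl fun l _ => ?_
  rw [evA_single]
  refine ph_mul z k l _ _ (fun j hz hk => ?_) fun j hz hl => ?_
  · exact hf.2 k _ j (by simp [hz]) hk
  · exact hg.2 l _ j (by simp [hz]) hl

theorem evA_cst {M : ℕ} (z : Fin M → ℂ) (c : ℂ) : evA z (cst c : RR M) = c := by
  unfold cst
  rw [evA_single]
  unfold ph
  simp

/-- The value of a good symbol at `z`, as a ring homomorphism. -/
def ev {M : ℕ} (z : Fin M → ℂ) : GS M →+* ℂ where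
  toFun f := evA z f.1
  map_one' := evA_cst z 1
  map_mul' f g := evA_mul z f.2 g.2
  map_zero' := evA_zero z
  map_add' f g := evA_add z f.1 g.1

/-- The constant symbol, as a good symbol. -/
def cG {M : ℕ} (c : ℂ) : GS M := ⟨cst c, Gd.cst c⟩

theorem ev_cG {M : ℕ} (z : Fin M → ℂ) (c : ℂ) : ev z (cG c) = c := evA_cst z c

/-- The symbol of the coordinate `z_j`. -/
def Zs {M : ℕ} (j : Fin M) : GS M :=
  ⟨AddMonoidAlgebra.single (Pi.single j 1) fun t => (Real.sqrt (t j) : ℂ), Gd.single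
    (Complex.continuous_ofReal.comp
      (Real.continuous_sqrt.comp (continuous_apply j))).continuousOn (by
      intro t i h h'
      by_cases hij : i = j
      · subst hij
        simp [h]
      · exact absurd (Pi.single_eq_of_ne hij _) h')⟩

/-- The symbol of the function `conj z_j`. -/
def Zc {M : ℕ} (j : Fin M) : GS M :=
  ⟨AddMonoidAlgebra.single (-Pi.single j 1) fun t => (Real.sqrt (t j) : ℂ), Gd.single
    (Complex.continuous_ofReal.comp
      (Real.continuous_sqrt.comp (continuous_apply j))).continuousOn (by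
      intro t i h h'
      by_cases hij : i = j
      · subst hij
        simp [h]
      · exact absurd (by simp [Pi.single_eq_of_ne hij]) h')⟩

theorem ev_Zs {M : ℕ} (z : Fin M → ℂ) (j : Fin M) : ev z (Zs j) = z j := by
  show evA z (AddMonoidAlgebra.single (Pi.single j 1) fun t => (Real.sqrt (t j) : ℂ)) = z j
  rw [evA_single]
  unfold ph
  rw [Finset.prod_eq_single j]
  · rw [Pi.single_eq_same, zpow_one, Real.sqrt_sq (norm_nonneg _)]
    by_cases hz : z j = 0
    · simp [hz]
    · rw [div_mul_cancel₀]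
      simpa using hz
  · intro i _ hi
    rw [Pi.single_eq_of_ne hi, zpow_zero]
  · intro h
    exact absurd (Finset.mem_univ j) h

theorem ev_Zc {M : ℕ} (z : Fin M → ℂ) (j : Fin M) : ev z (Zc j) = (starRingEnd ℂ) (z j) := by
  show evA z (AddMonoidAlgebra.single (-Pi.single j 1) fun t => (Real.sqrt (t j) : ℂ)) = _
  rw [evA_single]
  unfold ph
  rw [Finset.prod_eq_single j]
  · rw [Pi.neg_apply, Pi.single_eq_same, zpow_neg, zpow_one, Real.sqrt_sq (norm_nonneg _)]
    by_cases hz : z j = 0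
    · simp [hz]
    · have hn : (‖z j‖ : ℂ) ≠ 0 := by simpa using hz
      rw [inv_div, div_mul_eq_mul_div, div_eq_iff hz, Complex.conj_mul']
      ring
  · intro i _ hi
    rw [Pi.neg_apply, Pi.single_eq_of_ne hi, neg_zero, zpow_zero]
  · intro h
    exact absurd (Finset.mem_univ j) h

/-- The sphere. -/
def Sp (M : ℕ) : Set (Fin M → ℂ) := {z | ∑ j, ‖z j‖ ^ 2 = 1}

/-- The point `a / |a|` of the simplex (`0` for `a = 0`). -/
def pt {M : ℕ} (a : Fin M → ℕ) : Fin M → ℝ := fun j => (a j : ℝ) / ((∑ i, a i : ℕ) : ℝ)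

/-- The index set of the basis of the Hardy space with labels in `J`. -/
abbrev In (M : ℕ) (J : Type) : Type := (Fin M → ℕ) × J

/-- `b - a`. -/
def df {M : ℕ} (b a : Fin M → ℕ) : Fin M → ℤ := fun i => (b i : ℤ) - a i

/-- `T` is the Toeplitz operator with the matrix symbol `f`: the entry at `((b, j'), (a, j))` is
`(f j' j)_{b - a} (a / |a|)`. -/
def IsTo {M : ℕ} {J J' : Type} (f : Matrix J' J (GS M)) (T : H (In M J) →L[ℂ] H (In M J')) :
    Prop :=
  ∀ (a b : Fin M → ℕ) (j : J) (j' : J'),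
    (T (de (a, j)) : In M J' → ℂ) (b, j') = (f j' j).1.coeff (df b a) (pt a)

/-- The character by which `g` acts on the basis vector `(a, j)`. -/
def chr {M : ℕ} {J : Type} (ζ : Fin M → ℂ) (χ : J → ℂ) (p : In M J) : ℂ :=
  (∏ i, ζ i ^ p.1 i) * χ p.2

/-- `g` is the diagonal operator with the entries `chr`. -/
def IsDg {M : ℕ} {J : Type} (ζ : Fin M → ℂ) (χ : J → ℂ) (g : H (In M J) →L[ℂ] H (In M J)) :
    Prop := ∀ p, g (de p) = chr ζ χ p • de p

/-- The matrix symbol is equivariant: only coefficients with `ζ^k χ_{j'} = χ_j` occur. -/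
def Eqs {M : ℕ} {J J' : Type} (ζ : Fin M → ℂ) (χ : J → ℂ) (χ' : J' → ℂ)
    (f : Matrix J' J (GS M)) : Prop :=
  ∀ (j' : J') (j : J) (k : Fin M → ℤ), (f j' j).1.coeff k ≠ 0 →
    (∏ i, ζ i ^ k i) * χ' j' = χ j

end Pool.Agent.Tate.Toe
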