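import Pool.Agent.Lib.Tate.Toe.Spec

/-!
# C42 (MP_071d69_gt), block Toe: `S_El`, products of elementary symbols
-/

set_option autoImplicit false

open Set Filter Topology

noncomputable section

namespace Pool.Agent.Tate.Toe

open Idx

namespace ElAux

open Classical in
theorem de_apply {ι : Type} (a b : ι) :
    ((de a : H ι) : ι → ℂ) b = if b = a then 1 else 0 := by
  unfold de
  rw [lp.single_apply]
  by_cases h : b = a
  · subst h; simp
  · simp [h]

theorem norm_de {ι : Type} (a : ι) : ‖(de a : H ι)‖ = 1 := by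
  classical
  unfold de
  rw [lp.norm_single (by norm_num)]
  simp

theorem df_inj {M : ℕ} {a b b' : Fin M → ℕ} (h : df b a = df b' a) : b = b' := by
  funext i
  have := congrFun h i
  simp only [df] at this
  omega

open Classical in
/-- Vectors with the entries of a column of an elementary operator. -/
theorem col {M : ℕ} {J : Type} (x : H (In M J)) (a : Fin M → ℕ) (j₁ : J) (m : Fin M → ℤ) (w : ℂ)
    (hx : ∀ b j, (x : In M J → ℂ) (b, j) = if j = j₁ ∧ df b a = m then w else 0) :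
    (∀ b1, df b1 a = m → x = w • de (b1, j₁)) ∧ ((∀ b1, df b1 a ≠ m) → x = 0) := by
  refine ⟨fun b1 hb => ?_, fun hn => ?_⟩
  · refine lp.ext ?_
    funext q
    obtain ⟨b, j⟩ := q
    rw [hx, lp.coeFn_smul, Pi.smul_apply, de_apply]
    by_cases h : j = j₁ ∧ df b a = m
    · obtain ⟨h1, h2⟩ := h
      have hbb : b = b1 := df_inj (h2.trans hb.symm)
      subst hbb
      simp [h1, h2]
    · rw [if_neg h, if_neg]
      · simp
      · intro hq
        rw [Prod.mk.injEq] at hq
        exact h ⟨hq.2, by rw [hq.1]; exact hb⟩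
  · refine lp.ext ?_
    funext q
    obtain ⟨b, j⟩ := q
    rw [hx, if_neg]
    · rfl
    · rintro ⟨_, h2⟩
      exact hn b h2

open Classical in
/-- The columns of an elementary Toeplitz operator. -/
theorem ent {M : ℕ} {J J' : Type} [DecidableEq J] [DecidableEq J'] (i₁ : J') (i₂ : J) (v : GS M)
    (l : Fin M → ℤ) (d : (Fin M → ℝ) → ℂ) (hv : v.1 = AddMonoidAlgebra.single l d)
    (T : H (In M J) →L[ℂ] H (In M J')) (hT : IsTo (Matrix.single i₁ i₂ v) T) (a : Fin M → ℕ)
    (j : J) :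
    (j ≠ i₂ → T (de (a, j)) = 0) ∧
    (∀ b, df b a = l → T (de (a, i₂)) = d (pt a) • de (b, i₁)) ∧
    ((∀ b, df b a ≠ l) → T (de (a, i₂)) = 0) := by
  refine ⟨fun hj => ?_, ?_⟩
  · refine lp.ext ?_
    funext q
    obtain ⟨b, j'⟩ := q
    rw [hT, Matrix.single_apply_of_col_ne _ _ (Ne.symm hj)]
    rfl
  · refine col _ a i₁ l (d (pt a)) fun b j' => ?_
    rw [hT]
    by_cases hj' : j' = i₁
    · subst hj'
      rw [Matrix.single_apply_same, hv, AddMonoidAlgebra.coeff_single, Finsupp.single_apply]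
      by_cases h : df b a = l
      · simp [h]
      · rw [if_neg (fun h' => h h'.symm), if_neg (fun h' => h h'.2)]
        rfl
    · rw [Matrix.single_apply_of_row_ne (Ne.symm hj'), if_neg (fun h' => hj' h'.1)]
      rfl

theorem cont {M : ℕ} (u : GS M) (k : Fin M → ℤ) (c : (Fin M → ℝ) → ℂ)
    (hu : u.1 = AddMonoidAlgebra.single k c) : ContinuousOn c (stdSimplex ℝ (Fin M)) := by
  have h : ContinuousOn (u.1.coeff k) (stdSimplex ℝ (Fin M)) := u.2.1 k
  rw [hu] at h
  simpa using h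

theorem van {M : ℕ} (u : GS M) (k : Fin M → ℤ) (c : (Fin M → ℝ) → ℂ)
    (hu : u.1 = AddMonoidAlgebra.single k c) (j : Fin M) (hj : k j ≠ 0) (t : Fin M → ℝ)
    (ht : t j = 0) : c t = 0 := by
  have h : u.1.coeff k t = 0 := u.2.2 k t j ht hj
  rw [hu] at h
  simpa using h

end ElAux

open ElAux in
theorem pEl (h1 : S_Ub) : S_El := by
  classical
  intro M J J' J'' _ _ _ _ _ _ j₁ j₂ i₁ i₂ u v k l c d hu hv T₁ T₂ T₃ hT₁ hT₂ hT₃ ε hε
  have hc := cont u k c hu
  have hd := cont v l d hv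
  obtain ⟨⟨Cc, hCc⟩, hc2, -⟩ := h1 M c hc
  obtain ⟨⟨Cd, hCd⟩, -, hd3⟩ := h1 M d hd
  have hCc0 : 0 ≤ Cc := (norm_nonneg _).trans (hCc 0)
  have hCd0 : 0 ≤ Cd := (norm_nonneg _).trans (hCd 0)
  set ε1 : ℝ := ε / (Cc + Cd + 1) with hε1
  have hpos : 0 < Cc + Cd + 1 := by linarith
  have hε1p : 0 < ε1 := div_pos hε hpos
  have hε1c : Cc * ε1 ≤ ε := by
    rw [hε1, mul_div_assoc', div_le_iff₀ hpos]
    nlinarith
  have hε1d : Cd * ε1 ≤ ε := by
    rw [hε1, mul_div_assoc', div_le_iff₀ hpos]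
    nlinarith
  obtain ⟨N1, hN1⟩ := hc2 l ε1 hε1p
  have h3 : ∀ m : Fin M, ∃ N : ℕ, ∀ a : Fin M → ℕ, N ≤ ∑ i, a i → l m ≠ 0 →
      a m ≤ (l m).natAbs → ‖d (pt a)‖ ≤ ε1 := by
    intro m
    by_cases hm : l m = 0
    · exact ⟨0, fun a _ h => absurd hm h⟩
    · obtain ⟨N, hN⟩ := hd3 m (fun t ht => van v l d hv m hm t ht) (l m).natAbs ε1 hε1p
      exact ⟨N, fun a ha _ h => hN a ha h⟩
  choose N2 hN2 using h3
  set N := max N1 (Finset.univ.sup N2) with hN
  -- the finite set
  have hfin : {p : In M J | ∑ i, p.1 i < N}.Finite := by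
    have hs : ({a : Fin M → ℕ | ∑ i, a i < N}).Finite := by
      refine (Set.finite_Iic (fun _ : Fin M => N)).subset fun a ha => ?_
      intro i
      have : a i ≤ ∑ i, a i := Finset.single_le_sum (f := a) (fun i _ => Nat.zero_le _)
        (Finset.mem_univ i)
      exact this.trans (le_of_lt ha)
    refine (hs.prod (Set.finite_univ (α := J))).subset fun p hp => ?_
    exact ⟨hp, Set.mem_univ _⟩
  refine hfin.subset fun p hp => ?_
  obtain ⟨a, j⟩ := p
  by_contra hcon
  have hNa : N ≤ ∑ i, a i := not_lt.1 hcon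
  have hN1a : N1 ≤ ∑ i, a i := (le_max_left _ _).trans hNa
  have hN2a : ∀ m, N2 m ≤ ∑ i, a i := fun m =>
    ((Finset.le_sup (Finset.mem_univ m)).trans (le_max_right _ _)).trans hNa
  have hp' : ε < ‖(T₁ ∘L T₂ - T₃) (de (a, j))‖ := hp
  refine absurd hp' (not_lt.2 ?_)
  rw [sub_apply, ContinuousLinearMap.comp_apply]
  obtain ⟨e1, e2, e3⟩ := ent i₁ i₂ v l d hv T₂ hT₂ a j
  by_cases hj : j = i₂
  swap
  · -- both zero
    rw [e1 hj, map_zero]
    have hz : T₃ (de (a, j)) = 0 := by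
      by_cases hji : j₂ = i₁
      · subst hji
        rw [Matrix.single_mul_single_same] at hT₃
        refine lp.ext ?_
        funext q
        obtain ⟨b, j'⟩ := q
        rw [hT₃, Matrix.single_apply_of_col_ne _ _ (Ne.symm hj)]
        rfl
      · rw [Matrix.single_mul_single_of_ne _ _ _ _ hji] at hT₃
        refine lp.ext ?_
        funext q
        obtain ⟨b, j'⟩ := q
        rw [hT₃]
        rfl
    rw [hz]
    simpa using hε.le
  subst hj
  by_cases hji : j₂ = i₁
  swap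
  · have hz : T₃ (de (a, j)) = 0 := by
      rw [Matrix.single_mul_single_of_ne _ _ _ _ hji] at hT₃
      refine lp.ext ?_
      funext q
      obtain ⟨b, j'⟩ := q
      rw [hT₃]
      rfl
    have hz2 : T₁ (T₂ (de (a, j))) = 0 := by
      by_cases hb : ∃ b, df b a = l
      · obtain ⟨b, hb⟩ := hb
        rw [e2 b hb, map_smul, (ent j₁ j₂ u k c hu T₁ hT₁ b i₁).1 (Ne.symm hji), smul_zero]
      · rw [e3 (fun b hb' => hb ⟨b, hb'⟩), map_zero]
    rw [hz, hz2]
    simpa using hε.le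
  subst hji
  -- the main case
  rw [Matrix.single_mul_single_same] at hT₃
  have huv : (u * v : GS M).1 = AddMonoidAlgebra.single (k + l) (c * d) := by
    show u.1 * v.1 = _
    rw [hu, hv, AddMonoidAlgebra.single_mul_single]
  obtain ⟨-, f2, f3⟩ := ent j₁ j (u * v) (k + l) (c * d) huv T₃ hT₃ a j
  by_cases hb : ∃ b, df b a = l
  · obtain ⟨b, hb⟩ := hb
    obtain ⟨-, g2, g3⟩ := ent j₁ j₂ u k c hu T₁ hT₁ b j₂
    by_cases hb1 : ∃ b1, df b1 b = k
    · obtain ⟨b1, hb1⟩ := hb1
      have hb1a : df b1 a = k + l := by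
        rw [← hb, ← hb1]
        funext i
        simp only [df, Pi.add_apply]
        ring
      rw [e2 b hb, map_smul, g2 b1 hb1, f2 b1 hb1a, smul_smul, ← sub_smul, norm_smul, norm_de,
        mul_one]
      have : d (pt a) * c (pt b) - (c * d) (pt a) = (c (pt b) - c (pt a)) * d (pt a) := by
        rw [Pi.mul_apply]
        ring
      rw [this, norm_mul]
      calc ‖c (pt b) - c (pt a)‖ * ‖d (pt a)‖ ≤ ε1 * Cd :=
            mul_le_mul (hN1 a b hN1a hb) (hCd a) (norm_nonneg _) hε1p.le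
        _ ≤ ε := by rw [mul_comm]; exact hε1d
    · have hz : T₁ (de (b, j₂)) = 0 := g3 fun b1 h => hb1 ⟨b1, h⟩
      have hz3 : T₃ (de (a, j)) = 0 := by
        refine f3 fun b1 h => hb1 ⟨b1, ?_⟩
        have : df b1 b = df b1 a - df b a := by
          funext i
          simp only [df, Pi.sub_apply]
          ring
        rw [this, h, hb]
        simp
      rw [e2 b hb, map_smul, hz, hz3]
      simpa using hε.le
  · rw [e3 (fun b hb' => hb ⟨b, hb'⟩), map_zero, zero_sub, norm_neg]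
    -- some coordinate is negative
    have hm : ∃ m, (a m : ℤ) + l m < 0 := by
      by_contra hno
      push Not at hno
      refine hb ⟨fun m => ((a m : ℤ) + l m).toNat, ?_⟩
      funext m
      simp only [df]
      rw [Int.toNat_of_nonneg (hno m)]
      ring
    obtain ⟨m, hm⟩ := hm
    have hlm : l m ≠ 0 := by omega
    have ham : a m ≤ (l m).natAbs := by omega
    have hda : ‖d (pt a)‖ ≤ ε1 := hN2 m a (hN2a m) hlm ham
    by_cases hb1 : ∃ b1, df b1 a = k + l
    · obtain ⟨b1, hb1⟩ := hb1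
      rw [f2 b1 hb1, norm_smul, norm_de, mul_one, Pi.mul_apply, norm_mul]
      calc ‖c (pt a)‖ * ‖d (pt a)‖ ≤ Cc * ε1 :=
            mul_le_mul (hCc a) hda (norm_nonneg _) hCc0
        _ ≤ ε := hε1c
    · rw [f3 fun b1 h => hb1 ⟨b1, h⟩]
      simpa using hε.le

end Pool.Agent.Tate.Toe
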