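import Pool.Agent.Lib.Tate.Toe.Defs

/-!
# C42 (MP_071d69_gt), T7 (Det), block Toe (helper35): Toeplitz operators

Toeplitz operators `T_f` on `ℓ¹ (ℕ^M × J)` for matrix symbols `f` (`Toe/Defs.lean`).  `T_f T_g - T_{f g}` has
columns which tend to `0`; `T_f` has an index if `f` is invertible on the sphere (Wiener's trick: the powers of a
symbol with values of absolute value `≤ ρ < 1` have small coefficients); the index is constant along paths;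
`(1 - ζ) ind T_f = ind T_{f | z = 0}` for a coordinate `z` on which `g` acts by `ζ` (`S_P2`).  Result: `S_Di`.

Complete proofs in the docstrings.  Statement `S_X` is proved by `theorem pX` in
`Pool/Agent/Lib/Tate/Toe/X.lean` (namespace `Pool.Agent.Tate.Toe`); the statements which are used are
hypotheses of the theorem (`Idx.S_X`: statements of `Idx/Spec.lean`).
-/

set_option autoImplicit false

open Set Filter Topology

noncomputable section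

namespace Pool.Agent.Tate.Toe

open Idx

/-! ### Definitions -/

/-- The columns of `A` tend to `0`. -/
def Col0 {ι E : Type} [NormedAddCommGroup E] [NormedSpace ℂ E] (A : H ι →L[ℂ] E) : Prop :=
  ∀ ε > (0 : ℝ), {p | ε < ‖A (de p)‖}.Finite

/-- `f'` is the restriction of `f` to `z_M = 0` (last coordinate). -/
def IsRes {M : ℕ} (f : GS (M + 1)) (f' : GS M) : Prop :=
  ∀ (k : Fin M → ℤ) (t : Fin M → ℝ), f'.1.coeff k t =
    f.1.coeff (Fin.snoc (α := fun _ => ℤ) k 0) (Fin.snoc (α := fun _ => ℝ) t 0)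

/-- `a + e_M` (last coordinate). -/
def up1 {M : ℕ} (a : Fin (M + 1) → ℕ) : Fin (M + 1) → ℕ := a + Pi.single (Fin.last M) 1

/-- `F` is equivariant. -/
def EqF {M : ℕ} {J : Type} (ζ : Fin M → ℂ) (χ : J → ℂ) (F : (Fin M → ℂ) → Matrix J J ℂ) : Prop :=
  ∀ z ∈ Sp M, ∀ i j, F (fun l => ζ l * z l) i j * χ i = χ j * F z i j

/-! ### Symbols -/

/-- **Cj.** The conjugate symbol.

Proof. For a monomial `single k c` take `single (-k) (conj ∘ c)`; in general the sum over the support.  For `z_j ≠ 0`: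
`(z_j / |z_j|)^(-k_j)` is the conjugate of `(z_j / |z_j|)^(k_j)`; if `z_j = 0`, `k_j ≠ 0` for some `j`, then `c (|z|²) = 0`. -/
def S_Cj : Prop := ∀ (M : ℕ) (f : GS M), ∃ f' : GS M, ∀ z, ev z f' = (starRingEnd ℂ) (ev z f)

/-- **E2.** The coefficients are bounded by the values.

Proof. First let all `t_j > 0`.  Let `L` be a natural number `> 2 D`, `D ≥ |k_j|` and `D ≥ |l_j|` for all `l` in the support of `f`, and
`ω = exp (2πi / L)`.  For `n : Fin M → Fin L` the point `z^n_j = √t_j ω^(n_j)` is in `Sp M`, and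
`ev z^n f = ∑_l (∏_j ω^(n_j l_j)) c_l(t)`.  So `L^(-M) ∑_n (∏_j ω^(-n_j k_j)) ev z^n f = ∑_l c_l(t) ∏_j (L⁻¹ ∑_{m < L} ω^(m (l_j - k_j)))
= c_k(t)` (geometric sums; `|l_j - k_j| < L`).  The left side is at most `ρ`.  In general `t` is the limit of points of the simplex
with positive coordinates (`(1 - s) t + s (1/M, …, 1/M)`, `s → 0`), and `c_k` is continuous on the simplex. -/
def S_E2 : Prop := ∀ (M : ℕ) (f : GS M) (ρ : ℝ), (∀ z ∈ Sp M, ‖ev z f‖ ≤ ρ) →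
  ∀ k, ∀ t ∈ stdSimplex ℝ (Fin M), ‖f.1.coeff k t‖ ≤ ρ

/-- **E3.** Wiener's trick.  (Uses `S_E2`.)

Proof. If `|k_j| ≤ D` for `k` in the support of `f`, then `|k_j| ≤ n D` for `k` in the support of `f ^ n`
(`AddMonoidAlgebra.support_mul` or similar); so the support has at most `(2 n D + 1)^M` elements.  `ev z (f ^ n) = (ev z f) ^ n`,
so the coefficients are at most `ρ ^ n` (`S_E2`), and `(2 n D + 1)^M ρ ^ n → 0`. -/
def S_E3 : Prop := ∀ (M : ℕ) (f : GS M) (ρ : ℝ), 0 ≤ ρ → ρ < 1 → (∀ z ∈ Sp M, ‖ev z f‖ ≤ ρ) →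
  ∀ ε > (0 : ℝ), ∃ n : ℕ, ∀ t ∈ stdSimplex ℝ (Fin M),
    ∑ k ∈ (f ^ n : GS M).1.coeff.support, ‖(f ^ n : GS M).1.coeff k t‖ ≤ ε

/-- **Ec.** Continuity on the sphere.

Proof. Sum over the support of `ph k z * c_k (|z|²)`.  `z ↦ |z|²` maps `Sp M` continuously to the simplex, so `c_k (|z|²)` is
continuous on `Sp M`.  At `z` with `z_j ≠ 0` for all `j` with `k_j ≠ 0`: `ph k` is continuous.  Otherwise `c_k (|z|²) = 0`, and
`|ph k| ≤ 1` everywhere, so the product tends to `0`. -/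
def S_Ec : Prop := ∀ (M : ℕ) (f : GS M), ContinuousOn (fun z => ev z f) (Sp M)

/-- **Pm.** Inverse symbols up to small symbols.  (Uses `S_Cj`, `S_E3`, `S_Ec`.)

Proof. `GS M` is a commutative ring.  `D = det f`, `D'` its conjugate (`S_Cj`), `h = D D'`, so `ev z h = |det (f z)|²`
(`RingHom.map_det`), continuous and positive on the compact set `Sp M` (nonempty as `M ≥ 1`), so in `[c, C]` with `c > 0`.
`r = 1 - 2 / (C + c) h`, so `|ev z r| ≤ (C - c) / (C + c) = ρ < 1`.  `n` from `S_E3` for `r`.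
`q = (2 / (C + c) D' ∑_{m < n} r^m) • adjugate f`; `f * q = (D D' 2 / (C + c) ∑ r^m) • 1 = ((1 - r) ∑_{m < n} r^m) • 1 = (1 - r^n) • 1`
(`Matrix.mul_adjugate`, geometric sum), and the same for `q * f`. -/
def S_Pm : Prop := ∀ (M : ℕ) (J : Type) [Fintype J] [DecidableEq J] (f : Matrix J J (GS M)), 1 ≤ M →
  (∀ z ∈ Sp M, (f.map (ev z)).det ≠ 0) → ∀ ε > (0 : ℝ), ∃ (q : Matrix J J (GS M)) (r : GS M),
    f * q = (1 - r) • (1 : Matrix J J (GS M)) ∧ q * f = (1 - r) • (1 : Matrix J J (GS M)) ∧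
    ∀ t ∈ stdSimplex ℝ (Fin M), ∑ k ∈ r.1.coeff.support, ‖r.1.coeff k t‖ ≤ ε

/-! ### Toeplitz operators -/

/-- **Ub.** Uniform continuity on the simplex, at the points `a / |a|`.

Proof. `pt a` is in the simplex for `a ≠ 0`.  First statement: compactness, and the one value at `a = 0`.  Second: `c` is uniformly
continuous on the simplex; `|b_j / |b| - a_j / |a|| ≤ |l_j| / |b| + a_j ||a| - |b|| / (|a| |b|) ≤ 2 ∑ |l_i| / |b|` and `|b| ≥ |a| - ∑ |l_i|`.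
Third: `K_n = {t ∈ simplex | t_j ≤ 1/n}`: `sup |c|` on `K_n` tends to `0` (uniform continuity: a point `t` with `t_j ≤ 1/n` is near a
point of the simplex with `t_j = 0` if `M ≥ 2`, e.g. move `t_j` to another coordinate; if `M = 1` then `a_j = |a| ≤ L` is impossible for
`|a| > L`); `(pt a)_j ≤ L / |a|`. -/
def S_Ub : Prop := ∀ (M : ℕ) (c : (Fin M → ℝ) → ℂ), ContinuousOn c (stdSimplex ℝ (Fin M)) →
  (∃ C : ℝ, ∀ a : Fin M → ℕ, ‖c (pt a)‖ ≤ C) ∧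
  (∀ (l : Fin M → ℤ), ∀ ε > (0 : ℝ), ∃ N : ℕ, ∀ a b : Fin M → ℕ, N ≤ ∑ i, a i → df b a = l →
    ‖c (pt b) - c (pt a)‖ ≤ ε) ∧
  ∀ j : Fin M, (∀ t : Fin M → ℝ, t j = 0 → c t = 0) → ∀ (L : ℕ), ∀ ε > (0 : ℝ), ∃ N : ℕ,
    ∀ a : Fin M → ℕ, N ≤ ∑ i, a i → a j ≤ L → ‖c (pt a)‖ ≤ ε

/-- **To1.** Existence of Toeplitz operators.  (Uses `Idx.S_L1`, `S_Ub`.)

Proof. Column at `(a, j)`: `∑_{j'} ∑_{k ∈ support (f j' j), a + k ≥ 0} (f j' j)_k (pt a) • de (a + k, j')`, norm at most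
`∑_{j', j, k} C_{j', j, k}` (`S_Ub`).  The entry at `(b, j')` is `(f j' j)_{b - a} (pt a)`. -/
def S_To1 : Prop := ∀ (M : ℕ) (J J' : Type) [Fintype J] [Fintype J'] (f : Matrix J' J (GS M)),
  ∃ T : H (In M J) →L[ℂ] H (In M J'), IsTo f T

/-- **To2.** Uniqueness and linearity.  (Uses `Idx.S_L2`.)

Proof. Columns are determined by their entries (`lp.ext`), operators by their columns (`S_L2`).  `1 : Matrix J J (GS M)` has the
entries `1 = single 0 1` on the diagonal, and `df b a = 0` iff `b = a`. -/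
def S_To2 : Prop := ∀ (M : ℕ) (J J' : Type) [Fintype J] [Fintype J'] [DecidableEq J],
  (∀ (f : Matrix J' J (GS M)) (T T' : H (In M J) →L[ℂ] H (In M J')), IsTo f T → IsTo f T' → T = T') ∧
  (∀ (f g : Matrix J' J (GS M)) (T T' : H (In M J) →L[ℂ] H (In M J')), IsTo f T → IsTo g T' →
    IsTo (f + g) (T + T')) ∧
  (∀ (c : ℂ) (f : Matrix J' J (GS M)) (T : H (In M J) →L[ℂ] H (In M J')), IsTo f T →
    IsTo ((cG c : GS M) • f) (c • T)) ∧
  IsTo (1 : Matrix J J (GS M)) (1 : H (In M J) →L[ℂ] H (In M J))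

/-- **C0.** Properties of `Col0`.  (Uses `Idx.S_L3`.)

Proof. `{ε < ‖A + B‖} ⊆ {ε/2 < ‖A‖} ∪ {ε/2 < ‖B‖}`; `‖C (A de p)‖ ≤ (‖C‖ + 1) ‖A de p‖`. -/
def S_C0 : Prop := ∀ (ι E E' : Type) [NormedAddCommGroup E] [NormedSpace ℂ E] [CompleteSpace E]
  [NormedAddCommGroup E'] [NormedSpace ℂ E'],
  (∀ A B : H ι →L[ℂ] E, Col0 A → Col0 B → Col0 (A + B)) ∧
  (∀ (c : ℂ) (A : H ι →L[ℂ] E), Col0 A → Col0 (c • A)) ∧
  (∀ (A : H ι →L[ℂ] E) (C : E →L[ℂ] E'), Col0 A → Col0 (C ∘L A)) ∧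
  (∀ A : H ι →L[ℂ] E, {p | A (de p) ≠ 0}.Finite → Col0 A) ∧
  ∀ A : H ι →L[ℂ] E, Col0 A → Cpt A

/-- **El.** Products of elementary symbols.  (Uses `S_Ub`.)

Proof. If `j₂ ≠ i₁` both `T₁ T₂` and `T₃` are `0` (columns).  Otherwise, with `u = single k c`, `v = single l d`:
`T₂ de (a, j) = d (pt a) de (a + l, i₁)` if `j = i₂` and `a + l ≥ 0`, otherwise `0`; `T₁ T₂ de (a, j) = c (pt (a + l)) d (pt a) de (a + l + k, j₁)` if
`a + l ≥ 0`, `a + l + k ≥ 0`; `T₃ de (a, j) = c (pt a) d (pt a) de (a + l + k, j₁)` if `a + l + k ≥ 0`.  If `a + l ≥ 0`, then the difference has norm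
`≤ ‖c (pt (a + l)) - c (pt a)‖ ‖d (pt a)‖`; if `a_m + l_m < 0` for some `m`, then `l_m ≠ 0`, `a_m ≤ |l_m|`, and the difference has norm
`≤ ‖c (pt a)‖ ‖d (pt a)‖`, where `d (t) = 0` for `t_m = 0`.  Both are small for `|a| ≥ N` by `S_Ub`, and `{a | |a| < N}` is finite. -/
def S_El : Prop := ∀ (M : ℕ) (J J' J'' : Type) [Fintype J] [DecidableEq J] [Fintype J']
  [DecidableEq J'] [Fintype J''] [DecidableEq J''] (j₁ : J'') (j₂ i₁ : J') (i₂ : J) (u v : GS M)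
  (k l : Fin M → ℤ) (c d : (Fin M → ℝ) → ℂ), u.1 = AddMonoidAlgebra.single k c →
  v.1 = AddMonoidAlgebra.single l d → ∀ (T₁ : H (In M J') →L[ℂ] H (In M J''))
  (T₂ : H (In M J) →L[ℂ] H (In M J')) (T₃ : H (In M J) →L[ℂ] H (In M J'')),
  IsTo (Matrix.single j₁ j₂ u) T₁ → IsTo (Matrix.single i₁ i₂ v) T₂ →
  IsTo (Matrix.single j₁ j₂ u * Matrix.single i₁ i₂ v) T₃ → Col0 (T₁ ∘L T₂ - T₃)

/-- **To3.** Products.  (Uses `S_To1`, `S_To2`, `S_C0`, `S_El`.)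

Proof. `f` and `g` are finite sums of matrices `Matrix.single i j u` with `u.1 = single k c` (the monomials of a good symbol are
good).  Both sides are bilinear (`S_To2`; existence of all operators: `S_To1`), `Col0` is closed under sums; `S_El`. -/
def S_To3 : Prop := ∀ (M : ℕ) (J J' J'' : Type) [Fintype J] [DecidableEq J] [Fintype J']
  [DecidableEq J'] [Fintype J''] [DecidableEq J''] (f : Matrix J'' J' (GS M))
  (g : Matrix J' J (GS M)) (T₁ : H (In M J') →L[ℂ] H (In M J''))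
  (T₂ : H (In M J) →L[ℂ] H (In M J')) (T₃ : H (In M J) →L[ℂ] H (In M J'')),
  IsTo f T₁ → IsTo g T₂ → IsTo (f * g) T₃ → Col0 (T₁ ∘L T₂ - T₃)

/-- **To4.** Small scalar symbols.  (Uses `Idx.S_L1`, `Idx.S_L2`, `Idx.S_L3`.)

Proof. Column of `T` at `(a, j)`: `∑_{k, a + k ≥ 0} r_k (pt a) de (a + k, j)`, norm `≤ ∑_k |r_k (pt a)| ≤ ε` for `a ≠ 0`.  `K` = the
columns with `a = 0` (finitely many), `A = T - K`. -/
def S_To4 : Prop := ∀ (M : ℕ) (J : Type) [Fintype J] [DecidableEq J] (r : GS M) (ε : ℝ)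
  (T : H (In M J) →L[ℂ] H (In M J)), IsTo (r • (1 : Matrix J J (GS M))) T → 0 ≤ ε →
  (∀ t ∈ stdSimplex ℝ (Fin M), ∑ k ∈ r.1.coeff.support, ‖r.1.coeff k t‖ ≤ ε) →
  ∃ A K : H (In M J) →L[ℂ] H (In M J), T = A + K ∧ ‖A‖ ≤ ε ∧
    FR (K : H (In M J) →ₗ[ℂ] H (In M J))

/-- **To5.** Equivariance.  (Uses `Idx.S_L2`.)

Proof. Entries of both sides at `((b, j'), (a, j))`: `ζ^a χ_j c` and `ζ^b χ'_{j'} c`, `c = (f j' j)_{b - a} (pt a)`; if `c ≠ 0`, then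
`ζ^(b - a) χ'_{j'} = χ_j`. -/
def S_To5 : Prop := ∀ (M : ℕ) (J J' : Type) [Fintype J] [Fintype J'] (ζ : Fin M → ℂ) (χ : J → ℂ)
  (χ' : J' → ℂ) (f : Matrix J' J (GS M)) (T : H (In M J) →L[ℂ] H (In M J'))
  (g : H (In M J) →L[ℂ] H (In M J)) (g' : H (In M J') →L[ℂ] H (In M J')), (∀ i, ζ i ≠ 0) →
  Eqs ζ χ χ' f → IsTo f T → IsDg ζ χ g → IsDg ζ χ' g' → T ∘L g = g' ∘L T

/-- **Dg.** The operator `g`.  (Uses `Idx.S_L2`, `Idx.S_L8`.)

Proof. `chr ζ χ p ^ 4 = 1`; `S_L8`, uniqueness by `S_L2`. -/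
def S_Dg : Prop := ∀ (M : ℕ) (J : Type) (ζ : Fin M → ℂ) (χ : J → ℂ), (∀ i, ζ i ^ 4 = 1) →
  (∀ j, χ j ^ 4 = 1) → (∃ g, IsDg ζ χ g) ∧ ∀ g, IsDg ζ χ g → g ^ 4 = 1 ∧ ‖g‖ ≤ 1

/-- **Fr.** Toeplitz operators with invertible symbols have an index.
(Uses `Idx.S_T2`, `Idx.S_Cp`, `Idx.S_B2`, `S_Pm`, `S_To1`, `S_To2`, `S_C0`, `S_To3`, `S_To4`, `S_To5`, `S_Dg`.)

Proof. `q`, `r` from `S_Pm` with `ε = 1/2`, `S = T_q`.  `T_q T = T_{q f} + C₁ = 1 - T_{r • 1} + C₁ = 1 - A - K + C₁`, `C₁` with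
columns tending to `0`, `‖A‖ ≤ 1/2`, `K` of finite rank (`S_To3`, `S_To2`, `S_To4`), and `K - C₁` is `Cpt`; the same for
`T T_q`.  `S_B2`. -/
def S_Fr : Prop := ∀ (M : ℕ) (J : Type) [Fintype J] [DecidableEq J] (ζ : Fin M → ℂ) (χ : J → ℂ)
  (f : Matrix J J (GS M)) (T g : H (In M J) →L[ℂ] H (In M J)), 1 ≤ M → (∀ i, ζ i ^ 4 = 1) →
  (∀ j, χ j ^ 4 = 1) → Eqs ζ χ χ f → (∀ z ∈ Sp M, (f.map (ev z)).det ≠ 0) → IsTo f T →
  IsDg ζ χ g → ∃ w, HasInd g g T w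

/-- **Ck.** Perturbations by equivariant norm limits of operators of finite rank.
(Uses `Idx.S_T2`, `Idx.S_T3`, `Idx.S_I3`, `Idx.S_B1`.)

Proof. Let `S` be a parametrix of `T`, `F` of finite rank with `‖S‖ ‖K - F‖ < 1`, `F' = 1/4 ∑_{k < 4} gW^k F gV^(4-k)`: equivariant,
of finite rank, and `K - F' = 1/4 ∑ gW^k (K - F) gV^(4-k)`, so `‖K - F'‖ ≤ ‖K - F‖`.  `T + K = (T + (K - F')) + F'`: `S_B1`,
`S_I3`. -/
def S_Ck : Prop := ∀ (V W : Type) [NormedAddCommGroup V] [NormedSpace ℂ V] [CompleteSpace V]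
  [NormedAddCommGroup W] [NormedSpace ℂ W] (gV : V →L[ℂ] V) (gW : W →L[ℂ] W) (T K : V →L[ℂ] W)
  (w : ℂ), gV ^ 4 = 1 → gW ^ 4 = 1 → ‖gV‖ ≤ 1 → ‖gW‖ ≤ 1 → HasInd gV gW T w → Cpt K →
  K ∘L gV = gW ∘L K → HasInd gV gW (T + K) w

/-- **Pa.** Affine paths of invertible symbols.  (Uses `Idx.S_B3`, `S_To2`, `S_Fr`.)

Proof. `f_s = cG (1 - s) • f₀ + cG s • f₁`, `T_s = (1 - s) T₀ + s T₁` is the Toeplitz operator of `f_s` (`S_To2`), continuous in `s`;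
`f_s` is equivariant and invertible on the sphere, so `T_s` has an index (`S_Fr`); `S_B3`. -/
def S_Pa : Prop := ∀ (M : ℕ) (J : Type) [Fintype J] [DecidableEq J] (ζ : Fin M → ℂ) (χ : J → ℂ)
  (f₀ f₁ : Matrix J J (GS M)) (T₀ T₁ g : H (In M J) →L[ℂ] H (In M J)) (w : ℂ), 1 ≤ M →
  (∀ i, ζ i ^ 4 = 1) → (∀ j, χ j ^ 4 = 1) → Eqs ζ χ χ f₀ → Eqs ζ χ χ f₁ →
  (∀ s ∈ Icc (0 : ℝ) 1, ∀ z ∈ Sp M,
    (((1 - s : ℝ) : ℂ) • f₀.map (ev z) + ((s : ℝ) : ℂ) • f₁.map (ev z)).det ≠ 0) →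
  IsTo f₀ T₀ → IsTo f₁ T₁ → IsDg ζ χ g → HasInd g g T₀ w → HasInd g g T₁ w

/-! ### Restriction to a coordinate hyperplane -/

/-- **Rs.** The restriction of a symbol.

Proof. Coefficients as in `IsRes` (finite support: if `k` is in the support, then `Fin.snoc k 0` is in the support of `f`);
`Fin.snoc t 0` is in the simplex for `t` in the simplex.  `ev`: in `ev (Fin.snoc z 0) f` the terms with `k_M ≠ 0` vanish (the last
factor of `ph` is `(0 / 0) ^ k_M = 0`), the others are the terms of `ev z f'`. -/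
def S_Rs : Prop := ∀ (M : ℕ) (f : GS (M + 1)), ∃ f' : GS M, IsRes f f' ∧
  ∀ z : Fin M → ℂ, ev z f' = ev (Fin.snoc (α := fun _ => ℂ) z 0) f

/-- **Sh.** The shifted operator.  (Uses `Idx.S_L1`, `S_Ub`.)

Proof. `D` exists as in `S_To1`.  The column of `D - T` at `(a, j)` has norm
`≤ ∑_{j'} ∑_{k ∈ support (f j' j)} ‖(f j' j)_k (pt (up1 a)) - (f j' j)_k (pt a)‖`, small for large `|a|` by the second part of `S_Ub`
(with `l` = the last unit vector). -/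
def S_Sh : Prop := ∀ (M : ℕ) (J : Type) [Fintype J] (f : Matrix J J (GS (M + 1))),
  (∃ D : H (In (M + 1) J) →L[ℂ] H (In (M + 1) J), ∀ (a b : Fin (M + 1) → ℕ) (j j' : J),
    (D (de (a, j)) : In (M + 1) J → ℂ) (b, j') = (f j' j).1.coeff (df b a) (pt (up1 a))) ∧
  ∀ T D : H (In (M + 1) J) →L[ℂ] H (In (M + 1) J), IsTo f T →
    (∀ (a b : Fin (M + 1) → ℕ) (j j' : J),
      (D (de (a, j)) : In (M + 1) J → ℂ) (b, j') = (f j' j).1.coeff (df b a) (pt (up1 a))) →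
    Col0 (D - T)

/-- **Sx.** Splitting of the index set.  Proof: `(a, j)` with last coordinate `0` goes to `inl`, with last coordinate `≥ 1` to
`inr` (last coordinate reduced by `1`). -/
def S_Sx : Prop := ∀ (M : ℕ) (J : Type), ∃ e : In (M + 1) J ≃ In M J ⊕ In (M + 1) J,
  (∀ (a : Fin M → ℕ) (j : J), e (Fin.snoc (α := fun _ => ℕ) a 0, j) = Sum.inl (a, j)) ∧
  ∀ (a : Fin (M + 1) → ℕ) (j : J), e (up1 a, j) = Sum.inr (a, j)

/-- **Bt.** The block triangular form of a Toeplitz operator.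
(Uses `Idx.S_L2`, `Idx.S_L5`, `Idx.S_L6`, `S_Sx`.)

Proof. `E` is the composition of the isomorphisms of `S_L6` (for the bijection `e` of `S_Sx`) and `S_L5`; so
`E (de (snoc a 0, j)) = (de (a, j), 0)`, `E (de (up1 a, j)) = (0, de (a, j))`.  `B` = the first component of `E T E⁻¹ (0, ·)`.
`T (de (snoc a 0, j))` has the entries `(f j' j)_{b - snoc a 0} (pt (snoc a 0))`, `pt (snoc a 0) = snoc (pt a) 0`; this is `0` if the last
coordinate of `b` is not `0` (goodness), and `(f' j' j)_{b' - a} (pt a)` for `b = snoc b' 0`.  So `E T E⁻¹ (x, 0) = (T' x, 0)`.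
The entries of `T` at `((up1 b, j'), (up1 a, j))` are `(f j' j)_{b - a} (pt (up1 a))`, those of `D`. -/
def S_Bt : Prop := ∀ (M : ℕ) (J : Type) [Fintype J] (f : Matrix J J (GS (M + 1)))
  (f' : Matrix J J (GS M)) (T D : H (In (M + 1) J) →L[ℂ] H (In (M + 1) J))
  (T' : H (In M J) →L[ℂ] H (In M J)), (∀ j' j, IsRes (f j' j) (f' j' j)) → IsTo f T → IsTo f' T' →
  (∀ (a b : Fin (M + 1) → ℕ) (j j' : J),
    (D (de (a, j)) : In (M + 1) J → ℂ) (b, j') = (f j' j).1.coeff (df b a) (pt (up1 a))) →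
  ∃ (E : H (In (M + 1) J) ≃L[ℂ] H (In M J) × H (In (M + 1) J))
    (B : H (In (M + 1) J) →L[ℂ] H (In M J)),
    (∀ (a : Fin M → ℕ) (j : J), E (de (Fin.snoc (α := fun _ => ℕ) a 0, j)) = (de (a, j), 0)) ∧
    (∀ (a : Fin (M + 1) → ℕ) (j : J), E (de (up1 a, j)) = (0, de (a, j))) ∧
    ∀ x y, E (T (E.symm (x, y))) = (T' x + B y, D y)

/-- **P2.** `(1 - ζ) ind T_f = ind T_{f | z = 0}`.
(Uses `Idx.S_I1`, `Idx.S_I5`, `Idx.S_I6`, `Idx.S_I8`, `Idx.S_L2`, `S_To5`, `S_Dg`, `S_Ck`, `S_C0`, `S_Sh`, `S_Bt`.)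

Proof. `D` from `S_Sh`, `E`, `B` from `S_Bt`, `ζ' = ζ (last)`.  `E g E⁻¹ = g' × (ζ' g)` (basis vectors).  As `T` commutes with `g`
(`S_To5`), `E T E⁻¹` commutes with `g' × ζ' g`, so `B (ζ' g) = g' B` and `D (ζ' g) = (ζ' g) D`, hence `D g = g D`.  `D - T` is `Cpt`
(`S_Sh`, `S_C0`) and commutes with `g`, so `HasInd g g D w` (`S_Ck`), `HasInd (ζ' g) (ζ' g) D (ζ' w)` (`S_I6`), and by `S_I5` the
operator `(x, y) ↦ (T' x + B y, D y)` has the index `w' + ζ' w`; `S_I8` for `E⁻¹`: `HasInd g g T (w' + ζ' w)`; `S_I1`. -/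
def S_P2 : Prop := ∀ (M : ℕ) (J : Type) [Fintype J] [DecidableEq J] (ζ : Fin (M + 1) → ℂ)
  (χ : J → ℂ) (f : Matrix J J (GS (M + 1))) (f' : Matrix J J (GS M))
  (T g : H (In (M + 1) J) →L[ℂ] H (In (M + 1) J)) (T' g' : H (In M J) →L[ℂ] H (In M J))
  (w w' : ℂ), (∀ i, ζ i ^ 4 = 1) → (∀ j, χ j ^ 4 = 1) → Eqs ζ χ χ f →
  (∀ j' j, IsRes (f j' j) (f' j' j)) → IsTo f T → IsTo f' T' → IsDg ζ χ g →
  IsDg (fun i => ζ i.castSucc) χ g' → HasInd g g T w → HasInd g' g' T' w' →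
  w' = (1 - ζ (Fin.last M)) * w

/-- **It.** Iteration.  (Uses `Idx.S_L2`, `S_To1`, `S_To2`, `S_Dg`, `S_Fr`, `S_Rs`, `S_P2`.)

Proof. `d = 0`: `f' = f` (`M + 0 = M`), `T' = T`, `g' = g` by uniqueness (`S_To2`, `S_L2`).  Induction on `d` (`M + (d + 1) = (M + d) + 1`): the restriction `f₁` of `f` to the last coordinate `0` (`S_Rs`, entrywise) is
equivariant for `ζ ∘ castSucc`, invertible on `Sp (M + d)` (`Fin.snoc z 0 ∈ Sp (M + d + 1)`), so its Toeplitz operator has an index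
(`S_Fr`), which is `(1 - ζ (last)) w` by `S_P2`.  `Fin.append z (0 : Fin (d + 1) → ℂ) = Fin.snoc (Fin.append z 0) 0`. -/
def S_It : Prop := ∀ (J : Type) [Fintype J] [DecidableEq J] (χ : J → ℂ) (M : ℕ), 1 ≤ M →
  (∀ j, χ j ^ 4 = 1) → ∀ (d : ℕ) (ζ : Fin (M + d) → ℂ) (f : Matrix J J (GS (M + d)))
  (T g : H (In (M + d) J) →L[ℂ] H (In (M + d) J)) (w : ℂ), (∀ i, ζ i ^ 4 = 1) → Eqs ζ χ χ f →
  (∀ z ∈ Sp (M + d), (f.map (ev z)).det ≠ 0) → IsTo f T → IsDg ζ χ g → HasInd g g T w →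
  ∃ f' : Matrix J J (GS M), Eqs (fun i => ζ (Fin.castAdd d i)) χ χ f' ∧
    (∀ (z : Fin M → ℂ) (i j : J), ev z (f' i j) = ev (Fin.append z (0 : Fin d → ℂ)) (f i j)) ∧
    ∀ T' g' : H (In M J) →L[ℂ] H (In M J), IsTo f' T' →
      IsDg (fun i => ζ (Fin.castAdd d i)) χ g' →
      HasInd g' g' T' ((∏ i : Fin d, (1 - ζ (Fin.natAdd M i))) * w)

/-! ### Approximation by symbols -/

/-- **Ap.** Stone-Weierstrass.  (Uses `S_Cj`, `S_Ec`.)

Proof. `Sp M` is compact.  The functions `ev · f` on `Sp M`, `f ∈ GS M`, are a star subalgebra of `C(Sp M, ℂ)` (constants: `cG`;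
conjugation: `S_Cj`; continuous: `S_Ec`) which separates points (`Zs j`), so it is dense
(`ContinuousMap.starSubalgebra_topologicalClosure_eq_top_of_separatesPoints`); for each entry. -/
def S_Ap : Prop := ∀ (M : ℕ) (J : Type) [Fintype J] (F : (Fin M → ℂ) → Matrix J J ℂ),
  ContinuousOn F (Sp M) → ∀ ε > (0 : ℝ), ∃ f : Matrix J J (GS M), ∀ z ∈ Sp M, ∀ i j,
    ‖ev z (f i j) - F z i j‖ ≤ ε

/-- **Aq.** Equivariant approximation.  (Uses `S_Ap`.)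

Proof. `f` from `S_Ap`; `f'_{i j}` = the part of `f_{i j}` with the coefficients `k` such that `ζ^k χ_i = χ_j` (good, equivariant).
As `1/4 ∑_{n < 4} (ζ^k χ_i / χ_j)^n` is `1` or `0`: `ev z f'_{i j} = 1/4 ∑_{n < 4} (χ_i / χ_j)^n ev (ζ^n z) f_{i j}` (`ph k (ζ^n z) =
ζ^(n k) ph k z`, for `z_l = 0`, `k_l ≠ 0` both are `0`), and `F` satisfies the same equation (`EqF`, iterated), so
`|ev z f'_{i j} - F z i j| ≤ 1/4 ∑ |ev (ζ^n z) f_{i j} - F (ζ^n z) i j| ≤ ε`. -/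
def S_Aq : Prop := ∀ (M : ℕ) (J : Type) [Fintype J] (ζ : Fin M → ℂ) (χ : J → ℂ)
  (F : (Fin M → ℂ) → Matrix J J ℂ), (∀ i, ζ i ^ 4 = 1) → (∀ j, χ j ^ 4 = 1) →
  ContinuousOn F (Sp M) → EqF ζ χ F → ∀ ε > (0 : ℝ), ∃ f : Matrix J J (GS M), Eqs ζ χ χ f ∧
    ∀ z ∈ Sp M, ∀ i j, ‖ev z (f i j) - F z i j‖ ≤ ε

/-- **Ds.** Stability of invertibility.

Proof. `F (Sp M)` is a compact subset of the open set `{det ≠ 0}`; a thickening of it (for the maximum of the entries) is contained in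
the open set (`IsCompact.exists_thickening_subset_open`; `Matrix J J ℂ` with the topology of `J → J → ℂ`). -/
def S_Ds : Prop := ∀ (M : ℕ) (J : Type) [Fintype J] [DecidableEq J]
  (F : (Fin M → ℂ) → Matrix J J ℂ), ContinuousOn F (Sp M) → (∀ z ∈ Sp M, (F z).det ≠ 0) →
  ∃ ε > (0 : ℝ), ∀ z ∈ Sp M, ∀ B : Matrix J J ℂ, (∀ i j, ‖B i j - F z i j‖ ≤ ε) → B.det ≠ 0

/-- **Di.** Divisibility of the index.
(Uses `Idx.S_I1`, `Idx.S_I7`, `S_To1`, `S_Dg`, `S_Fr`, `S_Pa`, `S_It`, `S_Aq`, `S_Ds`.)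

Proof. `ε` from `S_Ds` for `F` on `Sp (M + d)`, `f` from `S_Aq`; `f` is invertible on the sphere, `T_f` has an index `w₀`
(`S_Fr`), which is `x + y i` (`S_I7`, `S_Dg`).  `f'` from `S_It`, its Toeplitz operator `T'` has the index `∏ (1 - ζ) w₀`.  For
`z ∈ Sp M`, `s ∈ [0, 1]` the matrix `(1 - s) f'(z) + s Φ(z)` has entries at distance `≤ ε` from `F (Fin.append z 0)`, so it is
invertible; `S_Pa`: `T` has the index `∏ (1 - ζ) w₀`; `S_I1`. -/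
def S_Di : Prop := ∀ (M d : ℕ) (J : Type) [Fintype J] [DecidableEq J] (ζ : Fin (M + d) → ℂ)
  (χ : J → ℂ) (F : (Fin (M + d) → ℂ) → Matrix J J ℂ) (Φ : Matrix J J (GS M))
  (T g : H (In M J) →L[ℂ] H (In M J)) (w : ℂ), 1 ≤ M → (∀ i, ζ i ^ 4 = 1) → (∀ j, χ j ^ 4 = 1) →
  ContinuousOn F (Sp (M + d)) → EqF ζ χ F → (∀ z ∈ Sp (M + d), (F z).det ≠ 0) →
  Eqs (fun i => ζ (Fin.castAdd d i)) χ χ Φ →
  (∀ z ∈ Sp M, Φ.map (ev z) = F (Fin.append z (0 : Fin d → ℂ))) → IsTo Φ T →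
  IsDg (fun i => ζ (Fin.castAdd d i)) χ g → HasInd g g T w →
  ∃ x y : ℤ, w = (∏ i : Fin d, (1 - ζ (Fin.natAdd M i))) * (x + y * Complex.I)

end Pool.Agent.Tate.Toe
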