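import Pool.Agent.Lib.Tate.Toe.Spec

/-!
# C42 (MP_071d69_gt), block Toe: small scalar symbols
-/

set_option autoImplicit false

open Set Filter Topology

noncomputable section

namespace Pool.Agent.Tate.Toe

open Idx

namespace To4

variable {ι : Type}

theorem de_self (a : ι) : (de a : ι → ℂ) a = 1 := by
  classical
  unfold de
  exact lp.single_apply_self _ _ _

theorem de_ne {a b : ι} (h : b ≠ a) : (de a : ι → ℂ) b = 0 := by
  classical
  unfold de
  exact lp.single_apply_ne _ _ _ h

theorem norm_de (a : ι) : ‖(de a : H ι)‖ = 1 := by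
  classical
  unfold de
  rw [lp.norm_single one_pos, norm_one]

/-- the value at `q` -/
def val (q : ι) : H ι →+ ℂ where
  toFun x := (x : ι → ℂ) q
  map_zero' := rfl
  map_add' _ _ := rfl

theorem val_de_self (a : ι) : val a (de a) = 1 := de_self a

theorem val_de_ne {a b : ι} (h : b ≠ a) : val b (de a) = 0 := de_ne h

theorem val_smul (q : ι) (c : ℂ) (x : H ι) : val q (c • x) = c * val q x := rfl

theorem ext_val {x y : H ι} (h : ∀ q, val q x = val q y) : x = y :=
  lp.ext (funext h)

section

variable {M : ℕ} {J' : Type} [Fintype J'] (a : Fin M → ℕ) (S : J' → Finset (Fin M → ℤ))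
  (c : J' → (Fin M → ℤ) → ℂ)

/-- a column with given entries -/
def colv : H (In M J') := open Classical in ∑ j', ∑ k ∈ S j',
  if ∀ i, 0 ≤ (a i : ℤ) + k i then c j' k • de (fun i => ((a i : ℤ) + k i).toNat, j') else 0

theorem colv_norm : ‖colv a S c‖ ≤ ∑ j', ∑ k ∈ S j', ‖c j' k‖ := by
  unfold colv
  refine (norm_sum_le _ _).trans (Finset.sum_le_sum fun j' _ => ?_)
  refine (norm_sum_le _ _).trans (Finset.sum_le_sum fun k _ => ?_)
  split_ifs
  · rw [norm_smul, norm_de, mul_one]
  · rw [norm_zero]
    exact norm_nonneg _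

theorem colv_val (b : Fin M → ℕ) (j' : J') (h : df b a ∉ S j' → c j' (df b a) = 0) :
    val (b, j') (colv a S c) = c j' (df b a) := by
  classical
  unfold colv
  rw [map_sum, Finset.sum_eq_single j']
  · rw [map_sum, Finset.sum_eq_single (df b a)]
    · have e1 : ∀ i, (a i : ℤ) + df b a i = b i := fun i => by
        unfold df
        ring
      have e2 : ∀ i, 0 ≤ (a i : ℤ) + df b a i := fun i => by
        rw [e1]
        exact Int.natCast_nonneg _
      rw [if_pos e2, val_smul]
      have e3 : (fun i => ((a i : ℤ) + df b a i).toNat) = b := by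
        funext i
        rw [e1, Int.toNat_natCast]
      rw [e3, val_de_self, mul_one]
    · intro k _ hk
      split_ifs with hn
      · rw [val_smul, val_de_ne, mul_zero]
        intro h
        refine hk (funext fun i => ?_)
        have h4 : b i = ((a i : ℤ) + k i).toNat := congrFun (Prod.ext_iff.1 h).1 i
        have h5 := hn i
        unfold df
        omega
      · exact map_zero _
    · intro hk
      rw [h hk]
      split_ifs
      · rw [val_smul, zero_mul]
      · exact map_zero _
  · intro j'' _ hj
    rw [map_sum]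
    refine Finset.sum_eq_zero fun k _ => ?_
    split_ifs with hn
    · rw [val_smul, val_de_ne, mul_zero]
      intro h
      exact hj (Prod.ext_iff.1 h).2.symm
    · exact map_zero _
  · intro h
    exact absurd (Finset.mem_univ j') h

end

end To4

open To4 in
theorem pTo4 (h1 : Idx.S_L1) (h2 : Idx.S_L2) (h3 : Idx.S_L3) : S_To4 := by
  classical
  intro M J _ _ r ε T hT hε hr
  obtain ⟨K, -, hK⟩ := h1 (In M J) (H (In M J)) (fun p => if p.1 = 0 then T (de p) else 0) ‖T‖
    (norm_nonneg _) (by
      intro p
      split_ifs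
      · refine (T.le_opNorm _).trans ?_
        rw [norm_de, mul_one]
      · rw [norm_zero]
        exact norm_nonneg _)
  have hKf : FR (K : H (In M J) →ₗ[ℂ] H (In M J)) := by
    refine (h3 (In M J) (H (In M J)) K).2 ?_
    refine ((Set.finite_singleton (0 : Fin M → ℕ)).prod (Set.finite_univ (α := J))).subset ?_
    rintro ⟨a, j⟩ hp
    refine ⟨?_, Set.mem_univ _⟩
    by_contra ha
    have ha' : a ≠ 0 := ha
    have hp' : K (de (a, j)) ≠ 0 := hp
    rw [hK, if_neg ha'] at hp'
    exact hp' rfl
  refine ⟨T - K, K, (sub_add_cancel T K).symm, ?_, hKf⟩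
  refine (h2 (In M J) (H (In M J))).1 _ _ hε fun p => ?_
  obtain ⟨a, j⟩ := p
  have e1 : (T - K) (de (a, j)) = T (de (a, j)) - K (de (a, j)) := rfl
  rw [e1, hK]
  by_cases ha : a = 0
  · rw [if_pos ha, sub_self, norm_zero]
    exact hε
  · have ha' : ¬ ((a, j) : In M J).1 = 0 := ha
    rw [if_neg ha', sub_zero]
    have hcol : T (de (a, j)) = colv a (fun j' => if j' = j then r.1.coeff.support else ∅)
        (fun j' k => if j' = j then r.1.coeff k (pt a) else 0) := by
      refine ext_val fun q => ?_
      obtain ⟨b, j'⟩ := q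
      have e2 : val (b, j') (T (de (a, j))) = (T (de (a, j)) : In M J → ℂ) (b, j') := rfl
      rw [e2, hT]
      have e3 : (r • (1 : Matrix J J (GS M))) j' j = if j' = j then r else 0 := by
        rw [Matrix.smul_apply, smul_eq_mul, Matrix.one_apply]
        split_ifs <;> simp
      rw [e3]
      by_cases hj : j' = j
      · rw [colv_val]
        · rw [if_pos hj, if_pos hj]
        · intro hk
          rw [if_pos hj] at hk ⊢
          rw [Finsupp.notMem_support_iff.1 hk]
          rfl
      · rw [colv_val]
        · rw [if_neg hj, if_neg hj]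
          rfl
        · intro _
          rw [if_neg hj]
    have hpt : pt a ∈ stdSimplex ℝ (Fin M) := by
      have hs : 0 < ∑ i, a i := by
        rcases Nat.eq_zero_or_pos (∑ i, a i) with h | h
        · exfalso
          refine ha (funext fun i => ?_)
          exact (Finset.sum_eq_zero_iff.1 h) i (Finset.mem_univ i)
        · exact h
      have hs' : (0 : ℝ) < ((∑ i, a i : ℕ) : ℝ) := by exact_mod_cast hs
      refine ⟨fun i => div_nonneg (Nat.cast_nonneg _) hs'.le, ?_⟩
      unfold pt
      rw [← Finset.sum_div, ← Nat.cast_sum, div_self hs'.ne']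
    rw [hcol]
    refine (colv_norm _ _ _).trans ?_
    rw [Finset.sum_eq_single j]
    · simp only [if_true]
      exact hr (pt a) hpt
    · intro j' _ hj
      rw [if_neg hj, Finset.sum_empty]
    · intro h
      exact absurd (Finset.mem_univ j) h

end Pool.Agent.Tate.Toe
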